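import Mathlib
import Pool.Agent.H576.CR.Stm

/-! Project CR (helper576), part NET: an exponential-size net of the unit sphere of `ℂⁿ`, from the
bound of the cardinality of separated sets used for Besicovitch's covering theorem. -/

set_option autoImplicit false

namespace Pool.Agent.H122

open Finset Pool.Agent.H576.CR

/-- one halving of the radius -/
lemma cr_half (E : Type) [NormedAddCommGroup E] [NormedSpace ℝ E] [FiniteDimensional ℝ E] :
    ∃ s : Finset E, s.card ≤ 5 ^ Module.finrank ℝ E ∧ ∀ x : E, ‖x‖ ≤ 2 → ∃ c ∈ s, ‖x - c‖ ≤ 1 := by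
  classical
  obtain ⟨P, hP⟩ : ∃ P : ℕ → Prop, ∀ k, P k ↔ ∃ s : Finset E, s.card = k ∧ (∀ c ∈ s, ‖c‖ ≤ 2) ∧
      ∀ c ∈ s, ∀ d ∈ s, c ≠ d → 1 ≤ ‖c - d‖ := ⟨_, fun _ => Iff.rfl⟩
  have hb : ∀ k, P k → k ≤ 5 ^ Module.finrank ℝ E := by
    intro k hk
    obtain ⟨s, h1, h2, h3⟩ := (hP k).1 hk
    rw [← h1]
    exact Besicovitch.card_le_of_separated s h2 h3
  have h0 : P 0 := (hP 0).2 ⟨∅, rfl, by simp, by simp⟩
  obtain ⟨s, h1, h2, h3⟩ := (hP _).1 (Nat.findGreatest_spec (P := P) (Nat.zero_le (5 ^ Module.finrank ℝ E)) h0)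
  refine ⟨s, ?_, fun x hx => ?_⟩
  · rw [h1]
    exact Nat.findGreatest_le _
  by_contra hcon
  push Not at hcon
  have hxs : x ∉ s := by
    intro h
    have := hcon x h
    rw [sub_self, norm_zero] at this
    linarith
  have h4 : P (s.card + 1) := by
    rw [hP]
    refine ⟨insert x s, card_insert_of_notMem hxs, ?_, ?_⟩
    · intro c hc
      rcases mem_insert.1 hc with rfl | hc
      · exact hx
      · exact h2 c hc
    · intro c hc d hd hcd
      rcases mem_insert.1 hc with hc1 | hc1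
      · rcases mem_insert.1 hd with hd1 | hd1
        · exact absurd (hc1.trans hd1.symm) hcd
        · rw [hc1]
          exact (hcon d hd1).le
      · rcases mem_insert.1 hd with hd1 | hd1
        · rw [norm_sub_rev, hd1]
          exact (hcon c hc1).le
        · exact h3 c hc1 d hd1 hcd
  have h5 := Nat.le_findGreatest (hb _ h4) h4
  omega

/-- the net of the unit ball -/
lemma cr_net_ball (E : Type) [NormedAddCommGroup E] [NormedSpace ℝ E] [FiniteDimensional ℝ E]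
    (k : ℕ) : ∃ s : Finset E, s.card ≤ (5 ^ Module.finrank ℝ E) ^ k ∧
      ∀ x : E, ‖x‖ ≤ 1 → ∃ c ∈ s, ‖x - c‖ ≤ (1 / 2) ^ k := by
  classical
  induction k with
  | zero =>
    refine ⟨{0}, by simp, fun x hx => ⟨0, mem_singleton_self _, ?_⟩⟩
    rw [sub_zero, pow_zero]
    exact hx
  | succ k ih =>
    obtain ⟨s, h1, h2⟩ := ih
    obtain ⟨t, h3, h4⟩ := cr_half E
    refine ⟨(s ×ˢ t).image fun p => p.1 + ((1 / 2 : ℝ) ^ (k + 1)) • p.2, ?_, fun x hx => ?_⟩
    · refine card_image_le.trans ?_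
      rw [card_product, pow_succ]
      exact Nat.mul_le_mul h1 h3
    · obtain ⟨c, hc, h5⟩ := h2 x hx
      have hp : (0 : ℝ) < (1 / 2) ^ (k + 1) := by positivity
      have h6 : ‖((2 : ℝ) ^ (k + 1)) • (x - c)‖ ≤ 2 := by
        rw [norm_smul, norm_pow, Real.norm_ofNat]
        have h7 := mul_le_mul_of_nonneg_left h5 (by positivity : (0 : ℝ) ≤ 2 ^ (k + 1))
        have h8 : (2 : ℝ) ^ (k + 1) * (1 / 2) ^ k = 2 := by
          rw [pow_succ, one_div, inv_pow]
          field_simp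
        rw [h8] at h7
        exact h7
      obtain ⟨d, hd, h7⟩ := h4 _ h6
      refine ⟨c + ((1 / 2 : ℝ) ^ (k + 1)) • d, mem_image.2 ⟨(c, d), mem_product.2 ⟨hc, hd⟩, rfl⟩, ?_⟩
      have h8 : x - (c + ((1 / 2 : ℝ) ^ (k + 1)) • d) =
          ((1 / 2 : ℝ) ^ (k + 1)) • (((2 : ℝ) ^ (k + 1)) • (x - c) - d) := by
        rw [smul_sub, smul_smul, ← mul_pow]
        norm_num
        abel
      rw [h8, norm_smul, Real.norm_of_nonneg hp.le]
      have := mul_le_mul_of_nonneg_left h7 hp.le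
      rwa [mul_one] at this

theorem cr_net : S_NET := by
  intro ε hε
  obtain ⟨k, hk⟩ := exists_pow_lt_of_lt_one hε (by norm_num : (1 / 2 : ℝ) < 1)
  refine ⟨25 ^ k, fun n => ?_⟩
  obtain ⟨s, h1, h2⟩ := cr_net_ball (EuclideanSpace ℂ (Fin n)) k
  have hn : ∀ z : EuclideanSpace ℂ (Fin n), nsq (WithLp.ofLp z) = ‖z‖ ^ 2 := by
    intro z
    rw [EuclideanSpace.norm_sq_eq]
    rfl
  classical
  refine ⟨s.image WithLp.ofLp, ?_, fun z hz => ?_⟩
  · refine card_image_le.trans (h1.trans ?_)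
    rw [finrank_real_of_complex, finrank_euclideanSpace_fin, (by norm_num : 25 = 5 ^ 2), ← pow_mul,
      ← pow_mul, ← pow_mul, mul_assoc, mul_comm n k]
  · have h3 : ‖WithLp.toLp 2 z‖ ^ 2 = 1 := by
      rw [← hn]
      exact hz
    have h4 : ‖WithLp.toLp 2 z‖ ≤ 1 := by
      have := norm_nonneg (WithLp.toLp 2 z)
      nlinarith
    obtain ⟨c, hc, h5⟩ := h2 _ h4
    refine ⟨WithLp.ofLp c, mem_image_of_mem _ hc, ?_⟩
    have h6 : z - WithLp.ofLp c = WithLp.ofLp (WithLp.toLp 2 z - c) := rfl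
    rw [h6, hn]
    exact pow_le_pow_left₀ (norm_nonneg _) (h5.trans hk.le) 2

end Pool.Agent.H122
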