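import Mathlib

set_option autoImplicit false

namespace Pool.Agent.H122.Danz

open Finset Filter Topology

variable {n : ℕ}

/-- The line `t ↦ (t, pz + t q, pw + t r)` meets the open unit ball about `(ct, cz, cw)`. -/
def Hit (pz q : ℝ) (pw r : Fin n → ℝ) (ct cz : ℝ) (cw : Fin n → ℝ) : Prop :=
  ∃ t : ℝ, (t - ct) ^ 2 + (pz + t * q - cz) ^ 2 + ∑ j, (pw j + t * r j - cw j) ^ 2 < 1

lemma key (κ b γ s pz q : ℝ) (m pw r : Fin n → ℝ) (hb : b ^ 2 * (1 + κ ^ 2) = 1)
    (hγ : γ ^ 2 + ∑ j, m j ^ 2 = 1)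
    (h : Hit pz q pw r (s + γ * κ * b) (κ * s - γ * b) (fun j => - m j)) :
    ∑ j, m j * (pw j + s * r j) + γ * b * (pz + s * (q - κ)) <
      (∑ j, m j * r j + γ * b * (q - κ)) ^ 2 / 2 := by
  obtain ⟨t, h⟩ := h
  have h1 : 2 * ∑ j, m j * (pw j + t * r j - - m j) ≤
      ∑ j, (pw j + t * r j - - m j) ^ 2 + ∑ j, m j ^ 2 := by
    rw [mul_sum, ← sum_add_distrib]
    exact sum_le_sum fun j _ => by nlinarith [sq_nonneg (pw j + t * r j - - m j - m j)]
  have h2 : ∑ j, m j * (pw j + t * r j - - m j) =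
      ∑ j, m j * (pw j + s * r j) + (t - s) * ∑ j, m j * r j + ∑ j, m j ^ 2 := by
    rw [mul_sum, ← sum_add_distrib, ← sum_add_distrib]
    exact sum_congr rfl fun j _ => by ring
  rw [h2] at h1
  set A := ∑ j, m j * (pw j + s * r j)
  set R := ∑ j, m j * r j
  set M := ∑ j, m j ^ 2
  set Y := ∑ j, (pw j + t * r j - - m j) ^ 2
  set ρ := R + γ * b * (q - κ) with hρ
  have e1 := sq_nonneg ((t - (s + γ * κ * b)) - (-(γ * κ * b) - ρ))
  have e2 := sq_nonneg ((pz + t * q - (κ * s - γ * b)) - γ * b)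
  have e3 : γ ^ 2 * (b ^ 2 * (1 + κ ^ 2)) = γ ^ 2 := by rw [hb, mul_one]
  have e4 : R = ρ - γ * b * (q - κ) := by rw [hρ]; ring
  rw [e4] at h1
  nlinarith

lemma pert (κ b γ s pz x : ℝ) (m pw r : Fin n → ℝ) (hb : b ^ 2 * (1 + κ ^ 2) = 1)
    (hγ : γ ^ 2 + ∑ j, m j ^ 2 = 1)
    (hL : ∑ j, m j * (pw j + s * r j) + γ * b * (pz + s * x) < 0) :
    ∀ᶠ ε in 𝓝[>] (0 : ℝ), Hit (ε * pz) (κ + ε * x) (fun j => ε * pw j) (fun j => ε * r j)
      (s + γ * κ * b) (κ * s - γ * b) (fun j => - m j) := by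
  set L := ∑ j, m j * (pw j + s * r j) + γ * b * (pz + s * x) with hLdef
  set Q := (pz + s * x) ^ 2 + ∑ j, (pw j + s * r j) ^ 2 with hQ
  have hc : ∀ᶠ ε in 𝓝 (0 : ℝ), 2 * L + ε * Q < 0 := by
    have : ContinuousAt (fun ε : ℝ => 2 * L + ε * Q) 0 := by fun_prop
    exact this.eventually_lt continuousAt_const (by simp; linarith)
  filter_upwards [self_mem_nhdsWithin, nhdsWithin_le_nhds hc] with ε hε h
  have hε : 0 < ε := hε
  refine ⟨s, ?_⟩
  have h2 : ∑ j, (ε * pw j + s * (ε * r j) - - m j) ^ 2 =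
      ∑ j, m j ^ 2 + 2 * ε * ∑ j, m j * (pw j + s * r j) + ε ^ 2 * ∑ j, (pw j + s * r j) ^ 2 := by
    rw [mul_sum, mul_sum, ← sum_add_distrib, ← sum_add_distrib]
    exact sum_congr rfl fun j _ => by ring
  rw [h2]
  have e3 : γ ^ 2 * (b ^ 2 * (1 + κ ^ 2)) = γ ^ 2 := by rw [hb, mul_one]
  have e5 : ε * (2 * L + ε * Q) < 0 := mul_neg_of_pos_of_neg hε h
  rw [hLdef, hQ] at e5
  nlinarith

lemma robust (κ b γ s pz x : ℝ) (m pw r : Fin n → ℝ) (hb : b ^ 2 * (1 + κ ^ 2) = 1)
    (hγ : γ ^ 2 + ∑ j, m j ^ 2 = 1) (h0 : 0 < κ * s) (h1 : κ * s < γ * b) :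
    ∀ᶠ ε in 𝓝[>] (0 : ℝ), Hit (ε * pz) (κ + ε * x) (fun j => ε * pw j) (fun j => ε * r j)
      (-(s + γ * κ * b)) (κ * s - γ * b) (fun j => - m j) := by
  have hc : ∀ᶠ ε in 𝓝 (0 : ℝ), (-s - -(s + γ * κ * b)) ^ 2 +
      (ε * pz + -s * (κ + ε * x) - (κ * s - γ * b)) ^ 2 +
      ∑ j, (ε * pw j + -s * (ε * r j) - - m j) ^ 2 < 1 := by
    have : ContinuousAt (fun ε : ℝ => (-s - -(s + γ * κ * b)) ^ 2 +
      (ε * pz + -s * (κ + ε * x) - (κ * s - γ * b)) ^ 2 +
      ∑ j, (ε * pw j + -s * (ε * r j) - - m j) ^ 2) 0 := by fun_prop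
    refine this.eventually_lt continuousAt_const ?_
    have e3 : γ ^ 2 * (b ^ 2 * (1 + κ ^ 2)) = γ ^ 2 := by rw [hb, mul_one]
    have e5 := mul_pos h0 (sub_pos.2 h1)
    simp only [zero_mul, mul_zero, add_zero, zero_add, zero_sub, neg_neg]
    nlinarith
  filter_upwards [nhdsWithin_le_nhds hc] with ε h
  exact ⟨-s, h⟩

/-- index of the far balls on one side -/
abbrev J (n : ℕ) := Option (Fin n × Bool)

noncomputable def kap (n : ℕ) : ℝ := 1 / (40 * n + 20)
noncomputable def bb (n : ℕ) : ℝ := 1 / √(1 + kap n ^ 2)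
noncomputable def be (n : ℕ) : ℝ := 1 / (2 * (n + 1))

def pos : J n → ℝ
  | none => 10 * (n + 1)
  | some (j, false) => 10 * ((j : ℕ) + 1)
  | some (j, true) => 10 * (n + 2 + (j : ℕ))

noncomputable def gam : J n → ℝ
  | none => √(1 - n * be n ^ 2)
  | some _ => 4 / 5

noncomputable def mv : J n → Fin n → ℝ
  | none => fun _ => - be n
  | some (j, _) => fun k => if k = j then 3 / 5 else 0

lemma kap_pos : 0 < kap n := by unfold kap; positivity

lemma kap_mul : kap n * (40 * n + 20) = 1 := by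
  unfold kap; field_simp

lemma kap_le : kap n ≤ 1 / 20 := by
  have := kap_mul (n := n)
  have h := kap_pos (n := n)
  have : (0 : ℝ) ≤ n := Nat.cast_nonneg n
  nlinarith

lemma bb_sq : bb n ^ 2 * (1 + kap n ^ 2) = 1 := by
  unfold bb
  rw [div_pow, Real.sq_sqrt (by positivity)]
  field_simp

lemma bb_pos : 0 < bb n := by unfold bb; positivity

lemma bb_lt : bb n < 1 := by
  have h := bb_sq (n := n)
  have h1 := bb_pos (n := n)
  have h2 := kap_pos (n := n)
  by_contra hc
  push Not at hc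
  have : 0 < bb n ^ 2 * kap n ^ 2 := by positivity
  nlinarith

lemma bb_ge : 4 / 5 ≤ bb n := by
  have h := bb_sq (n := n)
  have h1 := bb_pos (n := n)
  have h2 := kap_pos (n := n)
  have h3 := kap_le (n := n)
  by_contra hc
  push Not at hc
  have : bb n ^ 2 < 16 / 25 := by nlinarith
  have : kap n ^ 2 ≤ 1 / 400 := by nlinarith
  nlinarith

lemma be_pos : 0 < be n := by unfold be; positivity

lemma be_mul : be n * (2 * (n + 1)) = 1 := by unfold be; field_simp

lemma nbe : (n : ℝ) * be n ≤ 1 / 2 := by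
  have := be_mul (n := n)
  have := be_pos (n := n)
  nlinarith

lemma be_le : be n ≤ 1 / 2 := by
  have := be_mul (n := n)
  have := be_pos (n := n)
  have : (0 : ℝ) ≤ n := Nat.cast_nonneg n
  nlinarith

lemma nbe2 : (n : ℝ) * be n ^ 2 ≤ 1 / 4 := by
  have := nbe (n := n)
  have := be_pos (n := n)
  have := be_le (n := n)
  have : (0 : ℝ) ≤ n * be n := by positivity
  nlinarith

lemma unit (i : J n) : gam i ^ 2 + ∑ k, mv i k ^ 2 = 1 := by
  rcases i with _ | ⟨j, c⟩
  · simp only [gam, mv]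
    rw [Real.sq_sqrt (by linarith [nbe2 (n := n)])]
    simp
  · simp only [gam, mv]
    rw [sum_eq_single j (by intro k _ hk; simp [hk]) (by simp)]
    norm_num

lemma gam_ge (i : J n) : 4 / 5 ≤ gam i := by
  rcases i with _ | ⟨j, c⟩
  · simp only [gam]
    exact Real.le_sqrt_of_sq_le (by linarith [nbe2 (n := n)])
  · simp [gam]

lemma gam_le (i : J n) : gam i ≤ 1 := by
  have h := unit i
  have h1 : 0 ≤ ∑ k, mv i k ^ 2 := sum_nonneg fun _ _ => sq_nonneg _
  have := gam_ge i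
  nlinarith

lemma pos_ge (i : J n) : 10 ≤ pos i := by
  have : (0 : ℝ) ≤ n := Nat.cast_nonneg n
  rcases i with _ | ⟨j, _ | _⟩ <;> simp only [pos]
  · linarith
  · have : (0 : ℝ) ≤ (j : ℕ) := Nat.cast_nonneg _
    linarith
  · have : (0 : ℝ) ≤ (j : ℕ) := Nat.cast_nonneg _
    linarith

lemma fin_lt (j : Fin n) : ((j : ℕ) : ℝ) + 1 ≤ n := by exact_mod_cast j.2

lemma pos_le (i : J n) : pos i ≤ 20 * n + 10 := by
  have : (0 : ℝ) ≤ n := Nat.cast_nonneg n
  rcases i with _ | ⟨j, _ | _⟩ <;> simp only [pos]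
  · linarith
  · linarith [fin_lt j]
  · linarith [fin_lt j]

lemma pos_sep (i k : J n) (h : i ≠ k) : 10 ≤ |pos i - pos k| := by
  have key : ∀ a c : ℕ, a ≠ c → 10 ≤ |(10 * a : ℝ) - 10 * c| := by
    intro a c hac
    rcases lt_or_gt_of_ne hac with h | h
    · have : (a : ℝ) + 1 ≤ c := by exact_mod_cast h
      rw [abs_of_neg (by linarith)]; linarith
    · have : (c : ℝ) + 1 ≤ a := by exact_mod_cast h
      rw [abs_of_pos (by linarith)]; linarith
  let f : J n → ℕ := fun i => match i with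
    | none => n + 1
    | some (j, false) => j + 1
    | some (j, true) => n + 2 + j
  have hf : ∀ i, pos i = 10 * (f i : ℝ) := by
    rintro (_ | ⟨j, _ | _⟩) <;> simp [pos, f]
  rw [hf, hf]
  apply key
  intro e
  apply h
  rcases i with _ | ⟨j, _ | _⟩ <;> rcases k with _ | ⟨l, _ | _⟩ <;> simp only [f] at e <;>
    first | rfl | (have := j.2; have := l.2; omega) | (have := j.2; omega) | (have := l.2; omega) |
      (have : j = l := Fin.ext (by omega); rw [this])

lemma sum_mv (j : Fin n) (c : Bool) (g : Fin n → ℝ) :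
    ∑ k, mv (some (j, c)) k * g k = 3 / 5 * g j := by
  simp only [mv]
  rw [sum_eq_single j (by intro k _ hk; simp [hk]) (by simp)]
  simp

lemma sum_mv0 (g : Fin n → ℝ) : ∑ k, mv (none : J n) k * g k = - be n * ∑ k, g k := by
  simp only [mv]
  rw [mul_sum]

/-- centre coordinates of the far balls -/
noncomputable def ct (i : J n) : ℝ := pos i + gam i * kap n * bb n
noncomputable def cz (i : J n) : ℝ := kap n * pos i - gam i * bb n

lemma xy (pz q : ℝ) (pw r : Fin n → ℝ)
    (hX : Hit pz q pw r 0 (-(1 / bb n)) (fun _ => 0)) (hY : Hit pz q pw r 0 (1 / bb n) (fun _ => 0)) :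
    pz - kap n * bb n * (q - kap n) < bb n * (q - kap n) ^ 2 / 2 ∧
      -pz - kap n * bb n * (q - kap n) < bb n * (q - kap n) ^ 2 / 2 := by
  have hb := bb_sq (n := n)
  have hp := bb_pos (n := n)
  have e : 1 / bb n = bb n * (1 + kap n ^ 2) := by
    rw [div_eq_iff hp.ne']; linarith
  have h1 := key (kap n) (bb n) 1 (-(kap n * bb n)) pz q (fun _ => 0) pw r hb (by simp) (by
    convert hX using 1
    · ring
    · rw [e]; ring
    · simp)
  have h2 := key (kap n) (bb n) (-1) (kap n * bb n) pz q (fun _ => 0) pw r hb (by simp) (by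
    convert hY using 1
    · ring
    · rw [e]; ring
    · simp)
  simp only [zero_mul, sum_const_zero, zero_add] at h1 h2
  constructor
  · apply lt_of_mul_lt_mul_left _ hp.le
    nlinarith
  · apply lt_of_mul_lt_mul_left _ hp.le
    nlinarith

lemma core (pz q : ℝ) (pw r : Fin n → ℝ)
    (hX : Hit pz q pw r 0 (-(1 / bb n)) (fun _ => 0)) (hY : Hit pz q pw r 0 (1 / bb n) (fun _ => 0))
    (hA : ∀ i : J n, Hit pz q pw r (ct i) (cz i) (fun k => - mv i k))
    (hq1 : q * (10 * n + 9) < 1) (hr : ∀ k, |r k| * (10 * n + 9) < 1) (hq : kap n < q) : False := by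
  have hn : (0 : ℝ) ≤ n := Nat.cast_nonneg n
  obtain ⟨-, hz⟩ := xy pz q pw r hX hY
  have hk := kap_pos (n := n)
  have hk2 := kap_le (n := n)
  have hb := bb_pos (n := n)
  have hb1 := bb_lt (n := n)
  have hb2 := bb_ge (n := n)
  have hA' := fun i : J n => key (kap n) (bb n) (gam i) (pos i) pz q (mv i) pw r bb_sq (unit i) (hA i)
  set x := q - kap n with hx
  have hx0 : 0 < x := by linarith
  have hx1 : x * (10 * n + 9) < 1 := by nlinarith
  have hx2 : x < 1 / 9 := by nlinarith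
  let f : Option (Fin n) → ℝ := fun o => match o with
    | none => x
    | some k => r k
  set M := ‖f‖ with hM
  have hxM : x ≤ M := by
    have := norm_le_pi_norm f none
    simp only [f, Real.norm_eq_abs] at this
    exact (le_abs_self x).trans this
  have hrM : ∀ k, |r k| ≤ M := fun k => norm_le_pi_norm f (some k)
  have hM0 : 0 < M := by linarith
  have hM1 : M * (10 * n + 9) ≤ 1 := by
    have h9 : (0 : ℝ) < 10 * n + 9 := by linarith
    rw [← le_div_iff₀ h9, hM, pi_norm_le_iff_of_nonneg (by positivity)]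
    rintro (_ | k)
    · simp only [f, Real.norm_eq_abs]
      rw [abs_of_pos hx0, le_div_iff₀ h9]; exact hx1.le
    · simp only [f, Real.norm_eq_abs]
      rw [le_div_iff₀ h9]; exact (hr k).le
  have hpz : -pz < x := by
    have a1 : kap n * bb n ≤ 1 / 20 := by nlinarith
    have a2 : bb n * x ≤ 1 / 9 := by nlinarith
    nlinarith
  have hG : ∀ i : J n, 16 / 25 * (9 * x) ≤ gam i * bb n * (pz + pos i * x) := by
    intro i
    have a1 : 16 / 25 ≤ gam i * bb n := by nlinarith [gam_ge i]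
    have a2 : 9 * x ≤ pz + pos i * x := by nlinarith [pos_ge i]
    exact mul_le_mul a1 a2 (by positivity) (by linarith)
  have hgb : ∀ i : J n, 0 ≤ gam i * bb n * x ∧ gam i * bb n * x ≤ M := by
    intro i
    have a0 : 0 ≤ gam i * bb n := by nlinarith [gam_ge i]
    have a1 : gam i * bb n ≤ 1 := by nlinarith [gam_ge i, gam_le i]
    constructor
    · positivity
    · nlinarith
  have h1 : ∀ k c, pw k + pos (some (k, c)) * r k < 3 * M ^ 2 := by
    intro k c
    have a := hA' (some (k, c))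
    rw [sum_mv, sum_mv] at a
    have a2 := hG (some (k, c))
    obtain ⟨a3, a4⟩ := hgb (some (k, c))
    have a5 := abs_le.1 (hrM k)
    have a6 : (3 / 5 * r k + gam (some (k, c)) * bb n * x) ^ 2 ≤ (8 / 5 * M) ^ 2 :=
      sq_le_sq' (by linarith) (by linarith)
    nlinarith
  have hlo : ∀ k : Fin n, pos (some (k, false)) + 10 ≤ pos (none : J n) := by
    intro k; simp only [pos]; linarith [fin_lt k]
  have hhi : ∀ k : Fin n, pos (none : J n) + 10 ≤ pos (some (k, true)) := by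
    intro k; simp only [pos]
    have : (0 : ℝ) ≤ (k : ℕ) := Nat.cast_nonneg _
    linarith
  have h2 : ∀ k, pw k + pos (none : J n) * r k < 3 * M ^ 2 := by
    intro k
    rcases le_total 0 (r k) with h | h
    · nlinarith [h1 k true, hhi k]
    · nlinarith [h1 k false, hlo k]
  have h3 := hA' none
  rw [sum_mv0, sum_mv0] at h3
  have hbe := be_pos (n := n)
  have hsr : |be n * ∑ k, r k| ≤ M / 2 := by
    rw [abs_mul, abs_of_pos hbe]
    have a1 : |∑ k, r k| ≤ n * M := by
      refine (abs_sum_le_sum_abs _ _).trans ?_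
      refine (sum_le_sum fun k _ => hrM k).trans ?_
      simp
    have a2 := nbe (n := n)
    nlinarith
  have h4 : (-be n * ∑ k, r k + gam (none : J n) * bb n * x) ^ 2 ≤ (3 / 2 * M) ^ 2 := by
    have a5 := abs_le.1 hsr
    obtain ⟨a3, a4⟩ := hgb none
    exact sq_le_sq' (by linarith) (by linarith)
  have hU : ∑ k, (3 * M ^ 2 - (pw k + pos (none : J n) * r k)) =
      n * (3 * M ^ 2) - ∑ k, (pw k + pos (none : J n) * r k) := by
    rw [sum_sub_distrib]; simp
  have hU0 : 0 ≤ ∑ k, (3 * M ^ 2 - (pw k + pos (none : J n) * r k)) :=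
    sum_nonneg fun k _ => by linarith [h2 k]
  set S := ∑ k, (pw k + pos (none : J n) * r k) with hS
  have h5 := hG none
  have hM2 : 0 < M ^ 2 := by positivity
  have h6 : be n * S ≤ 3 / 2 * M ^ 2 := by
    have : S ≤ n * (3 * M ^ 2) := by linarith
    have a2 := nbe (n := n)
    nlinarith
  have hxlt : x < M := by nlinarith
  have h7 : -S < 3 * (n + 1) * M ^ 2 := by
    have a1 : be n * (-S) < 3 / 2 * M ^ 2 := by nlinarith
    have a2 := be_mul (n := n)
    have a3 : -S = (be n * (-S)) * (2 * (n + 1)) := by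
      rw [mul_right_comm, a2, one_mul]
    rw [a3]
    nlinarith
  have h8 : ∀ k, 3 * M ^ 2 - (pw k + pos (none : J n) * r k) < (6 * n + 3) * M ^ 2 := by
    intro k
    have := single_le_sum (f := fun k => 3 * M ^ 2 - (pw k + pos (none : J n) * r k))
      (fun k _ => by linarith [h2 k]) (mem_univ k)
    nlinarith
  have h9 : (6 * n + 3) * M ^ 2 ≤ M := by nlinarith
  have : M < M := by
    conv_lhs => rw [hM]
    rw [pi_norm_lt_iff hM0]
    rintro (_ | k)
    · simp only [f, Real.norm_eq_abs]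
      rw [abs_of_pos hx0]; exact hxlt
    · simp only [f, Real.norm_eq_abs]
      rcases le_total 0 (r k) with h | h
      · rw [abs_of_nonneg h]; nlinarith [h1 k true, hhi k, h8 k]
      · rw [abs_of_nonpos h]; nlinarith [h1 k false, hlo k, h8 k]
  exact lt_irrefl _ this

end Pool.Agent.H122.Danz
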