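import Mathlib
import Pool.Agent.H122.Danz

set_option autoImplicit false

namespace Pool.Agent.H122.Danz

open Finset Filter Topology

variable {n : ℕ}

abbrev I (n : ℕ) := Bool ⊕ (Bool × J n)

noncomputable def cT : I n → ℝ
  | .inl _ => 0
  | .inr (true, i) => ct i
  | .inr (false, i) => - ct i

noncomputable def cZ : I n → ℝ
  | .inl false => -(1 / bb n)
  | .inl true => 1 / bb n
  | .inr (_, i) => cz i

noncomputable def cW : I n → Fin n → ℝ
  | .inl _ => fun _ => 0
  | .inr (_, i) => fun k => - mv i k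

lemma Hit.mirror {pz q : ℝ} {pw r : Fin n → ℝ} {a c : ℝ} {w : Fin n → ℝ}
    (h : Hit pz q pw r a c w) : Hit pz (-q) pw (fun k => - r k) (-a) c w := by
  obtain ⟨t, h⟩ := h
  refine ⟨-t, ?_⟩
  have e1 : (-t - -a) ^ 2 = (t - a) ^ 2 := by ring
  have e2 : ∀ y : ℝ, -t * -y = t * y := fun y => by ring
  simp only [e1, e2]
  exact h

lemma ct_ge (i : J n) : pos i ≤ ct i := by
  have := gam_ge i
  have := kap_pos (n := n)
  have := bb_pos (n := n)
  have : 0 ≤ gam i * kap n * bb n := by positivity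
  unfold ct; linarith

lemma ct_le (i : J n) : ct i ≤ pos i + 1 := by
  have h1 := gam_ge i
  have h2 := gam_le i
  have h3 := kap_pos (n := n)
  have h4 := kap_le (n := n)
  have h5 := bb_pos (n := n)
  have h6 := bb_lt (n := n)
  have a : gam i * kap n ≤ 1 := by nlinarith
  have : gam i * kap n * bb n ≤ 1 := by nlinarith
  unfold ct; linarith

lemma noAll (pz q : ℝ) (pw r : Fin n → ℝ) : ¬ ∀ i : I n, Hit pz q pw r (cT i) (cZ i) (cW i) := by
  intro h
  have hX : Hit pz q pw r 0 (-(1 / bb n)) (fun _ => 0) := h (.inl false)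
  have hY : Hit pz q pw r 0 (1 / bb n) (fun _ => 0) := h (.inl true)
  have hA : ∀ i : J n, Hit pz q pw r (ct i) (cz i) (fun k => - mv i k) := fun i => h (.inr (true, i))
  have hB : ∀ i : J n, Hit pz q pw r (-ct i) (cz i) (fun k => - mv i k) := fun i => h (.inr (false, i))
  obtain ⟨t1, h1⟩ := hA none
  obtain ⟨t2, h2⟩ := hB none
  have hn : (0 : ℝ) ≤ n := Nat.cast_nonneg n
  have s1 : 0 ≤ ∑ j, (pw j + t1 * r j - - mv (none : J n) j) ^ 2 := sum_nonneg fun _ _ => sq_nonneg _
  have s2 : 0 ≤ ∑ j, (pw j + t2 * r j - - mv (none : J n) j) ^ 2 := sum_nonneg fun _ _ => sq_nonneg _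
  have c0 : 10 * (n + 1) ≤ ct (none : J n) := ct_ge (none : J n)
  have a1 := abs_lt.1 ((sq_lt_one_iff_abs_lt_one (t1 - ct (none : J n))).1
    (by nlinarith [sq_nonneg (pz + t1 * q - cz (none : J n))]))
  have a2 := abs_lt.1 ((sq_lt_one_iff_abs_lt_one (t2 - -ct (none : J n))).1
    (by nlinarith [sq_nonneg (pz + t2 * q - cz (none : J n))]))
  have ht : 2 * (10 * n + 9) < t1 - t2 := by linarith
  have gen : ∀ u y c : ℝ, (u + t1 * y - c) ^ 2 < 1 → (u + t2 * y - c) ^ 2 < 1 →
      |y| * (10 * n + 9) < 1 := by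
    intro u y c e1 e2
    have b1 := abs_lt.1 ((sq_lt_one_iff_abs_lt_one _).1 e1)
    have b2 := abs_lt.1 ((sq_lt_one_iff_abs_lt_one _).1 e2)
    rcases le_total 0 y with hy | hy
    · rw [abs_of_nonneg hy]; nlinarith
    · rw [abs_of_nonpos hy]; nlinarith
  have hq : |q| * (10 * n + 9) < 1 := gen pz q (cz (none : J n))
    (by nlinarith [sq_nonneg (t1 - ct (none : J n))]) (by nlinarith [sq_nonneg (t2 - -ct (none : J n))])
  have hr : ∀ k, |r k| * (10 * n + 9) < 1 := by
    intro k
    have b1 := single_le_sum (f := fun j => (pw j + t1 * r j - - mv (none : J n) j) ^ 2)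
      (fun _ _ => sq_nonneg _) (mem_univ k)
    have b2 := single_le_sum (f := fun j => (pw j + t2 * r j - - mv (none : J n) j) ^ 2)
      (fun _ _ => sq_nonneg _) (mem_univ k)
    exact gen (pw k) (r k) (- mv (none : J n) k)
      (by nlinarith [sq_nonneg (t1 - ct (none : J n)), sq_nonneg (pz + t1 * q - cz (none : J n))])
      (by nlinarith [sq_nonneg (t2 - -ct (none : J n)), sq_nonneg (pz + t2 * q - cz (none : J n))])
  obtain ⟨x1, x2⟩ := xy pz q pw r hX hY
  have hb := bb_pos (n := n)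
  have hk := kap_pos (n := n)
  have x3 : 0 < bb n * ((q - kap n) * (q + kap n)) := by nlinarith
  have x4 : 0 < (q - kap n) * (q + kap n) := pos_of_mul_pos_left' hb x3
  have h9 : (0 : ℝ) < 10 * n + 9 := by linarith
  rcases lt_or_ge (kap n) q with hc | hc
  · exact core pz q pw r hX hY hA (by nlinarith [le_abs_self q]) hr hc
  · have hc2 : kap n < -q := by
      by_contra hh
      push Not at hh
      nlinarith
    refine core pz (-q) pw (fun k => - r k) (by simpa using hX.mirror) (by simpa using hY.mirror)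
      (fun i => by simpa using (hB i).mirror) (by nlinarith [neg_le_abs q]) (fun k => by
        rw [abs_neg]; exact hr k) hc2
where pos_of_mul_pos_left' {a b : ℝ} (ha : 0 < a) (h : 0 < a * b) : 0 < b :=
  (pos_iff_pos_of_mul_pos h).1 ha

lemma near (pz x : ℝ) (pw r : Fin n → ℝ) (i0 : I n)
    (hX : i0 ≠ .inl false → pz - kap n * bb n * x < 0)
    (hY : i0 ≠ .inl true → -pz - kap n * bb n * x < 0)
    (hA : ∀ i : J n, i0 ≠ .inr (true, i) →
      ∑ j, mv i j * (pw j + pos i * r j) + gam i * bb n * (pz + pos i * x) < 0) :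
    ∃ (pz q : ℝ) (pw r : Fin n → ℝ), ∀ i ≠ i0, Hit pz q pw r (cT i) (cZ i) (cW i) := by
  have hb := bb_sq (n := n)
  have hp := bb_pos (n := n)
  have e : 1 / bb n = bb n * (1 + kap n ^ 2) := by
    rw [div_eq_iff hp.ne']; linarith
  have : ∀ᶠ ε in 𝓝[>] (0 : ℝ), ∀ i : I n, i ≠ i0 → Hit (ε * pz) (kap n + ε * x)
      (fun j => ε * pw j) (fun j => ε * r j) (cT i) (cZ i) (cW i) := by
    rw [eventually_all]
    intro i
    by_cases hi : i = i0
    · exact Eventually.of_forall fun _ h => absurd hi h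
    rcases i with (_ | _) | ⟨_ | _, i⟩
    · filter_upwards [pert (kap n) (bb n) 1 (-(kap n * bb n)) pz x (fun _ => 0) pw r hb (by simp)
        (by have := hX (Ne.symm hi); simp only [zero_mul, sum_const_zero]; nlinarith)] with ε h _
      convert h using 1
      · simp [cT]
      · simp only [cZ]; rw [e]; ring
      · simp [cW]
    · filter_upwards [pert (kap n) (bb n) (-1) (kap n * bb n) pz x (fun _ => 0) pw r hb (by simp)
        (by have := hY (Ne.symm hi); simp only [zero_mul, sum_const_zero]; nlinarith)] with ε h _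
      convert h using 1
      · simp [cT]
      · simp only [cZ]; rw [e]; ring
      · simp [cW]
    · have hk := kap_pos (n := n)
      have h1 : kap n * pos i ≤ 1 / 2 := by
        have := kap_mul (n := n)
        nlinarith [pos_le i]
      have h2 : 16 / 25 ≤ gam i * bb n := by nlinarith [gam_ge i, bb_ge (n := n)]
      filter_upwards [robust (kap n) (bb n) (gam i) (pos i) pz x (mv i) pw r hb (unit i)
        (mul_pos hk (by linarith [pos_ge i])) (by linarith)] with ε h _
      exact h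
    · filter_upwards [pert (kap n) (bb n) (gam i) (pos i) pz x (mv i) pw r hb (unit i)
        (hA i (Ne.symm hi))] with ε h _
      exact h
  obtain ⟨ε, h⟩ := this.exists
  exact ⟨_, _, _, _, h⟩

lemma dropA (i0 : J n) : ∃ (pz q : ℝ) (pw r : Fin n → ℝ),
    ∀ i ≠ (.inr (true, i0) : I n), Hit pz q pw r (cT i) (cZ i) (cW i) := by
  have hb := bb_pos (n := n)
  have hb1 := bb_lt (n := n)
  have hk := kap_pos (n := n)
  have hkb : 0 < kap n * bb n := mul_pos hk hb
  have hn : (0 : ℝ) ≤ n := Nat.cast_nonneg n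
  set N : ℝ := 40 * n + 40 with hN
  have hz : ∀ i : J n, gam i * bb n * (0 + pos i * 1) ≤ 20 * n + 10 := by
    intro i
    have a0 : 0 ≤ gam i * bb n := by nlinarith [gam_ge i]
    have a1 : gam i * bb n ≤ 1 := by nlinarith [gam_ge i, gam_le i]
    nlinarith [pos_le i, pos_ge i]
  rcases i0 with _ | ⟨j, c⟩
  · refine near 0 1 (fun _ => -N) (fun _ => 0) _ (fun _ => by linarith) (fun _ => by linarith) ?_
    rintro (_ | ⟨k, d⟩) hi
    · exact absurd rfl hi
    · rw [sum_mv]
      have := hz (some (k, d))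
      linarith
  · -- affine function on coordinate `j` equal to `-N` at the remaining ball, huge at the middle ball
    set s1 := pos (some (j, !c) : J n) with hs1
    set s0 := pos (none : J n) with hs0
    have hne : s0 - s1 ≠ 0 := by
      have := pos_sep (none : J n) (some (j, !c)) (by simp)
      intro h
      rw [← hs0, ← hs1, h] at this
      norm_num at this
    set K : ℝ := (n * N + 2 * (n + 1) * N) / (s0 - s1) with hK
    refine near 0 1 (fun k => -N - if k = j then K * s1 else 0) (fun k => if k = j then K else 0) _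
      (fun _ => by linarith) (fun _ => by linarith) ?_
    rintro (_ | ⟨k, d⟩) hi
    · rw [sum_mv0]
      have e : ∑ k : Fin n, (-N - (if k = j then K * s1 else 0) + s0 * if k = j then K else 0) =
          2 * (n + 1) * N := by
        rw [sum_add_distrib, sum_sub_distrib, ← mul_sum]
        simp only [sum_ite_eq', mem_univ, if_true, sum_const, card_univ, Fintype.card_fin,
          nsmul_eq_mul]
        have : K * (s0 - s1) = n * N + 2 * (n + 1) * N := by rw [hK]; field_simp
        linarith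
      rw [e]
      have := hz none
      have h2 := be_mul (n := n)
      have : -be n * (2 * (n + 1) * N) = -N := by
        rw [← mul_assoc, neg_mul, h2]; ring
      linarith
    · rw [sum_mv]
      have h1 := hz (some (k, d))
      by_cases hkj : k = j
      · subst hkj
        have hd : d = !c := by
          cases c <;> cases d <;> simp_all
        subst hd
        simp only [if_true]
        rw [← hs1]
        linarith
      · simp only [hkj, if_false]
        linarith

lemma drop (i0 : I n) : ∃ (pz q : ℝ) (pw r : Fin n → ℝ),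
    ∀ i ≠ i0, Hit pz q pw r (cT i) (cZ i) (cW i) := by
  have hb := bb_pos (n := n)
  have hb1 := bb_lt (n := n)
  have hk := kap_pos (n := n)
  have hk1 := kap_le (n := n)
  have hkb : kap n * bb n < 1 := by nlinarith
  have hg : ∀ i : J n, 0 < gam i * bb n := fun i => mul_pos (by linarith [gam_ge i]) hb
  rcases i0 with (_ | _) | ⟨_ | _, i0⟩
  · refine near 1 (-1) (fun _ => 0) (fun _ => 0) _ (fun h => absurd rfl h) (fun _ => by linarith) ?_
    intro i _
    simp only [mul_zero, add_zero, sum_const_zero, zero_add]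
    exact mul_neg_of_pos_of_neg (hg i) (by linarith [pos_ge i])
  · refine near (-1) 0 (fun _ => 0) (fun _ => 0) _ (fun _ => by linarith) (fun h => absurd rfl h) ?_
    intro i _
    simp only [mul_zero, add_zero, sum_const_zero, zero_add]
    exact mul_neg_of_pos_of_neg (hg i) (by linarith)
  · obtain ⟨pz, q, pw, r, h⟩ := dropA i0
    refine ⟨pz, -q, pw, fun k => - r k, ?_⟩
    rintro ((_ | _) | ⟨_ | _, i⟩) hi
    · simpa [cT, cZ, cW] using (h (.inl false) (by simp)).mirror
    · simpa [cT, cZ, cW] using (h (.inl true) (by simp)).mirror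
    · simpa [cT, cZ, cW] using (h (.inr (true, i)) (by simpa using hi)).mirror
    · simpa [cT, cZ, cW] using (h (.inr (false, i)) (by simp)).mirror
  · exact dropA i0

lemma sep (i k : I n) (h : i ≠ k) : 4 < (cT i - cT k) ^ 2 + (cZ i - cZ k) ^ 2 := by
  have hb := bb_pos (n := n)
  have hb1 := bb_lt (n := n)
  have h1 : 1 < 1 / bb n := by rw [lt_div_iff₀ hb]; linarith
  have far : ∀ a c : ℝ, 9 ≤ |a| → 4 < a ^ 2 + c ^ 2 := by
    intro a c ha
    have := sq_abs a
    nlinarith [sq_nonneg c]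
  have hc : ∀ i : J n, 10 ≤ ct i := fun i => (pos_ge i).trans (ct_ge i)
  have hd : ∀ i k : J n, i ≠ k → 9 ≤ |ct i - ct k| := by
    intro i k hik
    have := pos_sep i k hik
    have a1 := ct_ge i
    have a2 := ct_le i
    have a3 := ct_ge k
    have a4 := ct_le k
    rcases le_total 0 (pos i - pos k) with h | h
    · rw [abs_of_nonneg h] at this
      exact le_trans (by linarith) (le_abs_self _)
    · rw [abs_of_nonpos h] at this
      exact le_trans (by linarith) (neg_le_abs _)
  rcases i with (_ | _) | ⟨_ | _, i⟩ <;> rcases k with (_ | _) | ⟨_ | _, k⟩ <;> simp only [cT, cZ] <;>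
    first
    | exact absurd rfl h
    | exact far _ _ (le_trans (by linarith [hc k]) (le_abs_self _))
    | exact far _ _ (le_trans (by linarith [hc k]) (neg_le_abs _))
    | exact far _ _ (le_trans (by linarith [hc i]) (le_abs_self _))
    | exact far _ _ (le_trans (by linarith [hc i]) (neg_le_abs _))
    | exact far _ _ (le_trans (by linarith [hc i, hc k]) (le_abs_self _))
    | exact far _ _ (le_trans (by linarith [hc i, hc k]) (neg_le_abs _))
    | exact far _ _ (hd i k (by simpa using h))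
    | exact far _ _ (by
        have := hd k i (by intro e; subst e; exact h rfl)
        convert this using 2; ring)
    | nlinarith

abbrev E (n : ℕ) := EuclideanSpace ℝ (Fin (n + 2))

noncomputable def mk (t z : ℝ) (w : Fin n → ℝ) : E n :=
  WithLp.toLp 2 (Fin.cons t (Fin.cons z w) : Fin (n + 2) → ℝ)

lemma dist_sq (x y : E n) : dist x y ^ 2 =
    (x 0 - y 0) ^ 2 + (x 1 - y 1) ^ 2 + ∑ j : Fin n, (x j.succ.succ - y j.succ.succ) ^ 2 := by
  rw [EuclideanSpace.dist_sq_eq, Fin.sum_univ_succ, Fin.sum_univ_succ]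
  simp only [Real.dist_eq, sq_abs, Fin.succ_zero_eq_one]
  ring

noncomputable def cen (i : I n) : E n := mk (cT i) (cZ i) (cW i)

@[simp] lemma mk0 (t z : ℝ) (w : Fin n → ℝ) : mk t z w 0 = t := rfl
@[simp] lemma mk1 (t z : ℝ) (w : Fin n → ℝ) : mk t z w 1 = z := rfl
@[simp] lemma mk2 (t z : ℝ) (w : Fin n → ℝ) (j : Fin n) : mk t z w j.succ.succ = w j := rfl

lemma cen_sep (i k : I n) (h : i ≠ k) : 2 < dist (cen i) (cen k) := by
  have h1 := dist_sq (cen i) (cen k)
  have h2 := sep i k h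
  have h3 : 0 ≤ ∑ j : Fin n, (cen i j.succ.succ - cen k j.succ.succ) ^ 2 :=
    sum_nonneg fun _ _ => sq_nonneg _
  simp only [cen, mk0, mk1] at h1 h3 ⊢
  exact lt_of_pow_lt_pow_left₀ 2 dist_nonneg (by linarith)

lemma cen_drop (i0 : I n) : ∃ p v : E n, v ≠ 0 ∧ ∀ i ≠ i0, ∃ t : ℝ, dist (p + t • v) (cen i) < 1 := by
  obtain ⟨pz, q, pw, r, h⟩ := drop i0
  refine ⟨mk 0 pz pw, mk 1 q r, ?_, fun i hi => ?_⟩
  · intro e
    have := congrArg (fun x : E n => x 0) e
    simp at this
  · obtain ⟨t, ht⟩ := h i hi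
    refine ⟨t, lt_of_pow_lt_pow_left₀ 2 zero_le_one ?_⟩
    rw [dist_sq]
    simpa [cen] using ht

lemma cen_none (p v : E n) : ¬ ∀ i : I n, ∃ t : ℝ, dist (p + t • v) (cen i) < 1 := by
  intro h
  have h' : ∀ i : I n, ∃ t : ℝ, (p 0 + t * v 0 - cT i) ^ 2 + (p 1 + t * v 1 - cZ i) ^ 2 +
      ∑ j : Fin n, (p j.succ.succ + t * v j.succ.succ - cW i j) ^ 2 < 1 := by
    intro i
    obtain ⟨t, ht⟩ := h i
    refine ⟨t, ?_⟩
    have := pow_lt_pow_left₀ ht dist_nonneg two_ne_zero
    rw [dist_sq] at this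
    simpa [cen] using this
  have hv : v 0 ≠ 0 := by
    intro e
    obtain ⟨t1, h1⟩ := h' (.inr (true, none))
    obtain ⟨t2, h2⟩ := h' (.inr (false, none))
    have s1 : 0 ≤ ∑ j : Fin n, (p j.succ.succ + t1 * v j.succ.succ -
      cW (.inr (true, none) : I n) j) ^ 2 := sum_nonneg fun _ _ => sq_nonneg _
    have s2 : 0 ≤ ∑ j : Fin n, (p j.succ.succ + t2 * v j.succ.succ -
      cW (.inr (false, none) : I n) j) ^ 2 := sum_nonneg fun _ _ => sq_nonneg _
    have c0 : 10 ≤ ct (none : J n) := (pos_ge _).trans (ct_ge _)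
    simp only [e, mul_zero, add_zero, cT] at h1 h2
    nlinarith [sq_nonneg (p 1 + t1 * v 1 - cZ (.inr (true, none) : I n)),
      sq_nonneg (p 1 + t2 * v 1 - cZ (.inr (false, none) : I n)), sq_nonneg (p 0)]
  apply noAll (p 1 - p 0 * (v 1 / v 0)) (v 1 / v 0)
    (fun j => p j.succ.succ - p 0 * (v j.succ.succ / v 0)) (fun j => v j.succ.succ / v 0)
  intro i
  obtain ⟨t, ht⟩ := h' i
  refine ⟨p 0 + t * v 0, ?_⟩
  have e : ∀ a c : ℝ, a - p 0 * (c / v 0) + (p 0 + t * v 0) * (c / v 0) = a + t * c := by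
    intro a c; field_simp; ring
  simp only [e]
  exact ht

theorem main (n : ℕ) : ∃ S : Finset (E n), S.card = 4 * n + 4 ∧
    (∀ x ∈ S, ∀ y ∈ S, x ≠ y → 2 < dist x y) ∧
    (∀ T ⊆ S, T.card < S.card → ∃ p v : E n, v ≠ 0 ∧ ∀ c ∈ T, ∃ t : ℝ, dist (p + t • v) c ≤ 1) ∧
    ¬ ∃ p v : E n, v ≠ 0 ∧ ∀ c ∈ S, ∃ t : ℝ, dist (p + t • v) c ≤ 1 := by
  classical
  choose p v hv hd using cen_drop (n := n)
  have : ∀ᶠ ρ in 𝓝[<] (1 : ℝ), 0 < ρ ∧ ∀ i0 i : I n, i ≠ i0 →
      ∃ t : ℝ, dist (p i0 + t • v i0) (cen i) ≤ ρ := by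
    refine Eventually.and (nhdsWithin_le_nhds (lt_mem_nhds one_pos)) ?_
    rw [eventually_all]; intro i0
    rw [eventually_all]; intro i
    by_cases hi : i = i0
    · exact Eventually.of_forall fun _ h => absurd hi h
    obtain ⟨t, ht⟩ := hd i0 i hi
    filter_upwards [nhdsWithin_le_nhds (lt_mem_nhds ht)] with ρ h _
    exact ⟨t, h.le⟩
  obtain ⟨ρ, ⟨h0, hρ⟩, h1⟩ := (this.and self_mem_nhdsWithin).exists
  have h1 : ρ < 1 := h1
  have hi : 1 < ρ⁻¹ := (one_lt_inv₀ h0).2 h1
  have hds : ∀ x y : E n, dist (ρ⁻¹ • x) (ρ⁻¹ • y) = ρ⁻¹ * dist x y := by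
    intro x y; rw [dist_smul₀, Real.norm_eq_abs, abs_of_pos (by positivity)]
  have hsep : ∀ i k : I n, i ≠ k → 2 < dist (ρ⁻¹ • cen i) (ρ⁻¹ • cen k) := by
    intro i k h
    rw [hds]
    nlinarith [cen_sep i k h]
  have hinj : Function.Injective fun i : I n => ρ⁻¹ • cen i := by
    intro i k e
    by_contra h
    have := hsep i k h
    simp only at e
    rw [e, dist_self] at this
    norm_num at this
  have hcard : (univ.image fun i : I n => ρ⁻¹ • cen i).card = 4 * n + 4 := by
    rw [card_image_of_injective _ hinj]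
    simp [Fintype.card_sum, Fintype.card_prod, Fintype.card_option]
    ring
  refine ⟨univ.image fun i : I n => ρ⁻¹ • cen i, hcard, ?_, ?_, ?_⟩
  · intro x hx y hy hxy
    obtain ⟨i, -, rfl⟩ := mem_image.1 hx
    obtain ⟨k, -, rfl⟩ := mem_image.1 hy
    exact hsep i k fun e => hxy (by rw [e])
  · intro T hT hc
    obtain ⟨x, hx, hxT⟩ := exists_mem_notMem_of_card_lt_card hc
    obtain ⟨i0, -, rfl⟩ := mem_image.1 hx
    refine ⟨ρ⁻¹ • p i0, v i0, hv i0, fun c hc => ?_⟩
    obtain ⟨i, -, rfl⟩ := mem_image.1 (hT hc)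
    obtain ⟨t, ht⟩ := hρ i0 i (fun e => hxT (e ▸ hc))
    refine ⟨ρ⁻¹ * t, ?_⟩
    rw [mul_smul, ← smul_add, hds]
    calc ρ⁻¹ * dist _ _ ≤ ρ⁻¹ * ρ := by gcongr
      _ = 1 := inv_mul_cancel₀ h0.ne'
  · rintro ⟨P, V, -, h⟩
    apply cen_none (ρ • P) V
    intro i
    obtain ⟨t, ht⟩ := h _ (mem_image_of_mem _ (mem_univ i))
    refine ⟨ρ * t, ?_⟩
    have e : ρ⁻¹ • (ρ • P + (ρ * t) • V) = P + t • V := by
      rw [mul_smul, ← smul_add, smul_smul, inv_mul_cancel₀ h0.ne', one_smul]
    rw [← e, hds] at ht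
    have := mul_le_mul_of_nonneg_left ht h0.le
    rw [← mul_assoc, mul_inv_cancel₀ h0.ne', one_mul] at this
    linarith

end Pool.Agent.H122.Danz
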