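import Pool.Agent.H676.LC.Stm

/-!
# Project LC: the main induction over the gates (helper122 for helper676)

Compare `SC/TGen.lean` (helper401), from which `value_eq` and `sum_count` are taken.
-/

set_option autoImplicit false

namespace Pool.Agent.H122.LC

open Finset Pool.Agent.H676.SC Pool.Agent.H676.ED Pool.Agent.H676.LC

theorem value_eq {V D L : Type} (C : Circuit V D L) (G : SimpleGraph V) (g : C.Gate) :
    C.value G g = C.fn g ((C.read g).map (bit G))
      ((C.wires g).map fun e => (e.1, C.value G e.2)) := by
  rw [Circuit.value]
  have h : ((C.wires g).attach.map fun e => (e.1.1, C.value G e.1.2)) =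
      (C.wires g).map fun e => (e.1, C.value G e.2) :=
    Multiset.attach_map_val' (C.wires g) fun e => (e.1, C.value G e.2)
  simp only [h]

open Classical in
/-- double counting -/
theorem sum_count {ι α β : Type} [DecidableEq β] (X : Finset ι) (f : ι → α → β) (c : β)
    (W : Multiset α) :
    ∑ x ∈ X, (W.map (f x)).count c =
      (W.map fun e => (X.filter fun x => f x e = c).card).sum := by
  induction W using Multiset.induction_on with
  | empty => simp
  | cons a W ih =>
    rw [Multiset.map_cons, Multiset.sum_cons, ← ih, Finset.card_filter,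
      ← Finset.sum_add_distrib]
    refine Finset.sum_congr rfl fun x _ => ?_
    rw [Multiset.map_cons, Multiset.count_cons, add_comm]
    simp only [eq_comm]

theorem shf_apply {X : Type} (p : X → Fd 2) (u : X × Fd 2) : shf p u = (u.1, u.2 + p u.1) := rfl

theorem comap_shf {X : Type} (G : SimpleGraph (X × Fd 2)) (p p' : X → Fd 2) :
    (G.comap (shf p)).comap (shf (p' - p)) = G.comap (shf p') := by
  ext a b
  have h : ∀ a : X × Fd 2, shf p (shf (p' - p) a) = shf p' a := by
    intro a
    rw [shf_apply, shf_apply, shf_apply]
    refine Prod.ext rfl ?_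
    show a.2 + (p' a.1 - p a.1) + p a.1 = a.2 + p' a.1
    rw [add_assoc, sub_add_cancel]
  show G.Adj (shf p (shf (p' - p) a)) (shf p (shf (p' - p) b)) ↔ G.Adj (shf p' a) (shf p' b)
  rw [h, h]

/-- the second component of the input depends on the values on the support only -/
theorem inv {X D L : Type} (C : Circuit (X × Fd 2) D L) (g : C.Gate) (I : Finset X)
    (hI : ∀ p : X → Fd 2, (∀ x ∈ I, p x = 0) → C.wiring g (shf p) = C.wiring g 1)
    (G : SimpleGraph (X × Fd 2)) (p p' : X → Fd 2) (h : ∀ x ∈ I, p' x = p x) :
    ((C.wires g).map fun e => (e.1, C.value (G.comap (shf p')) e.2)) =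
      (C.wires g).map fun e => (e.1, C.value (G.comap (shf p)) e.2) := by
  have h1 := congrArg Prod.snd (hI (p' - p) fun x hx => by
    show p' x - p x = 0
    rw [h x hx, sub_self])
  have h2 := congrArg (Multiset.map (Prod.map id
    (fun F : SimpleGraph (X × Fd 2) → D => F (G.comap (shf p))))) h1
  have h3 : Multiset.map (Prod.map id (fun F : SimpleGraph (X × Fd 2) → D => F (G.comap (shf p))))
      ((C.wires g).map fun e => (e.1, fun G => C.value (G.comap (shf (p' - p))) e.2)) =
      Multiset.map (Prod.map id (fun F : SimpleGraph (X × Fd 2) → D => F (G.comap (shf p))))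
      ((C.wires g).map fun e => (e.1, fun G => C.value (G.comap (1 : Equiv.Perm (X × Fd 2))) e.2)) :=
    h2
  rw [Multiset.map_map, Multiset.map_map] at h3
  have e1 : (C.wires g).map (Prod.map id (fun F : SimpleGraph (X × Fd 2) → D => F (G.comap (shf p))) ∘
      fun e => (e.1, fun G => C.value (G.comap (shf (p' - p))) e.2)) =
      (C.wires g).map fun e => (e.1, C.value (G.comap (shf p')) e.2) := by
    refine Multiset.map_congr rfl fun e _ => ?_
    show (e.1, C.value ((G.comap (shf p)).comap (shf (p' - p))) e.2) = _
    rw [comap_shf]
  have e2 : (C.wires g).map (Prod.map id (fun F : SimpleGraph (X × Fd 2) → D => F (G.comap (shf p))) ∘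
      fun e => (e.1, fun G => C.value (G.comap (1 : Equiv.Perm (X × Fd 2))) e.2)) =
      (C.wires g).map fun e => (e.1, C.value (G.comap (shf p)) e.2) := by
    refine Multiset.map_congr rfl fun e _ => ?_
    rfl
  rw [e1, e2] at h3
  exact h3

/-- repeated extension -/
theorem extend {X : Type} [DecidableEq X] {K : ℕ} {good : (X → Fd 2) → Finset X → Prop}
    (hext : ∀ t A z, good t A → A.card < K → ∃ t' : X → Fd 2, (∀ x ∈ A, t' x = t x) ∧
      good t' (insert z A)) (t : X → Fd 2) (A : Finset X) (ht : good t A) (J : Finset X) :
    (A ∪ J).card ≤ K → ∃ t' : X → Fd 2, (∀ x ∈ A, t' x = t x) ∧ good t' (A ∪ J) := by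
  induction J using Finset.induction_on with
  | empty =>
    intro _
    exact ⟨t, fun _ _ => rfl, by rwa [Finset.union_empty]⟩
  | insert z J hz ih =>
    intro hc
    obtain ⟨t', h1, h2⟩ := ih ((Finset.card_le_card
      (Finset.union_subset_union_right (Finset.subset_insert z J))).trans hc)
    rw [Finset.union_insert] at hc ⊢
    by_cases hzA : z ∈ A ∪ J
    · rw [Finset.insert_eq_of_mem hzA]
      exact ⟨t', h1, h2⟩
    · rw [Finset.card_insert_of_notMem hzA] at hc
      obtain ⟨t'', h3, h4⟩ := hext t' (A ∪ J) z h2 (by omega)
      exact ⟨t'', fun x hx => (h3 x (Finset.mem_union_left _ hx)).trans (h1 x hx), h4⟩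

theorem t_LOC (h : Pool.Agent.H676.LC.S_READ2) : Pool.Agent.H676.LC.S_LOC := by
  classical
  intro X D L _ _ C K G H good hmono _ hext hadj I hI
  have key : ∀ (n : ℕ) (g : C.Gate), C.rank g < n → ∀ p q t : X → Fd 2, good t (I g) →
      (∀ x ∈ I g, q x = p x + t x) →
      C.value (G.comap (shf p)) g = C.value (H.comap (shf q)) g := by
    intro n
    induction n with
    | zero => intro g hg; omega
    | succ n ih =>
      intro g hg p q t ht hq
      have hcg := (hI g).1
      rw [value_eq C (G.comap (shf p)) g, value_eq C (H.comap (shf q)) g]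
      have first : (C.read g).map (bit (G.comap (shf p))) =
          (C.read g).map (bit (H.comap (shf q))) := by
        cases hr : C.read g with
        | none => rfl
        | some c =>
          obtain ⟨u, v⟩ := c
          show some _ = some _
          have hk : (G.comap (shf p)).Adj u v ↔ (H.comap (shf q)).Adj u v := by
            by_cases huv : u = v
            · subst huv
              exact ⟨fun h => absurd rfl h.ne, fun h => absurd rfl h.ne⟩
            · obtain ⟨hu, hv⟩ := h X D L C g (I g) (hI g).2 u v hr huv
              have hs : ∀ w : X × Fd 2, w.1 ∈ I g → shf t (shf p w) = shf q w := by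
                intro w hw
                rw [shf_apply, shf_apply, shf_apply]
                refine Prod.ext rfl ?_
                show w.2 + p w.1 + t w.1 = w.2 + q w.1
                rw [hq w.1 hw, add_assoc]
              have h1 := hadj t (I g) ht (by omega) (shf p u) (shf p v) hu hv
              rw [hs u hu, hs v hv] at h1
              exact h1
          exact congrArg some (decide_eq_decide.2 hk)
      have second : ((C.wires g).map fun e => (e.1, C.value (G.comap (shf p)) e.2)) =
          (C.wires g).map fun e => (e.1, C.value (H.comap (shf q)) e.2) := by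
        refine Multiset.ext.2 fun c => ?_
        obtain ⟨X', hX'⟩ : ∃ X' : Finset (X → Fd 2),
          X' = univ.filter fun p' => ∀ x ∈ I g, p' x = p x := ⟨_, rfl⟩
        obtain ⟨Y', hY'⟩ : ∃ Y' : Finset (X → Fd 2),
          Y' = univ.filter fun q' => ∀ x ∈ I g, q' x = q x := ⟨_, rfl⟩
        have hXm : ∀ p', p' ∈ X' ↔ ∀ x ∈ I g, p' x = p x := by
          intro p'
          rw [hX', Finset.mem_filter]
          exact ⟨fun h => h.2, fun h => ⟨Finset.mem_univ _, h⟩⟩
        have hYm : ∀ q', q' ∈ Y' ↔ ∀ x ∈ I g, q' x = q x := by
          intro q'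
          rw [hY', Finset.mem_filter]
          exact ⟨fun h => h.2, fun h => ⟨Finset.mem_univ _, h⟩⟩
        clear hX' hY'
        -- translations by `t'`
        have hbij : ∀ t' : X → Fd 2, (∀ x ∈ I g, t' x = t x) → ∀ (P Q : (X → Fd 2) → Prop)
            [DecidablePred P] [DecidablePred Q], (∀ p' ∈ X', P p' ↔ Q (p' + t')) →
            (X'.filter P).card = (Y'.filter Q).card := by
          intro t' ht' P Q _ _ hPQ
          refine Finset.card_bij (fun p' _ => p' + t') ?_ ?_ ?_
          · intro p' hp'
            rw [Finset.mem_filter] at hp' ⊢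
            refine ⟨(hYm _).2 fun x hx => ?_, (hPQ p' hp'.1).1 hp'.2⟩
            show p' x + t' x = q x
            rw [(hXm p').1 hp'.1 x hx, ht' x hx, hq x hx]
          · intro p₁ _ p₂ _ he
            exact add_right_cancel he
          · intro q' hq'
            rw [Finset.mem_filter] at hq'
            have h1 : q' - t' ∈ X' := by
              refine (hXm _).2 fun x hx => ?_
              show q' x - t' x = p x
              rw [(hYm q').1 hq'.1 x hx, ht' x hx, hq x hx, add_sub_cancel_right]
            refine ⟨q' - t', ?_, sub_add_cancel q' t'⟩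
            rw [Finset.mem_filter]
            refine ⟨h1, (hPQ _ h1).2 ?_⟩
            rw [sub_add_cancel]
            exact hq'.2
        have hXY : X'.card = Y'.card := by
          have h1 := hbij t (fun _ _ => rfl) (fun _ => True) (fun _ => True)
            (fun _ _ => Iff.rfl)
          rw [Finset.filter_true_of_mem (fun _ _ => trivial),
            Finset.filter_true_of_mem (fun _ _ => trivial)] at h1
          exact h1
        have hX0 : 0 < X'.card := Finset.card_pos.2 ⟨p, (hXm p).2 fun _ _ => rfl⟩
        have e1 : ∑ p' ∈ X', ((C.wires g).map fun e =>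
            (e.1, C.value (G.comap (shf p')) e.2)).count c =
            X'.card * ((C.wires g).map fun e =>
              (e.1, C.value (G.comap (shf p)) e.2)).count c := by
          rw [Finset.sum_const_nat]
          intro p' hp'
          rw [inv C g (I g) (hI g).2 G p p' ((hXm p').1 hp')]
        have e2 : ∑ q' ∈ Y', ((C.wires g).map fun e =>
            (e.1, C.value (H.comap (shf q')) e.2)).count c =
            Y'.card * ((C.wires g).map fun e =>
              (e.1, C.value (H.comap (shf q)) e.2)).count c := by
          rw [Finset.sum_const_nat]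
          intro q' hq'
          rw [inv C g (I g) (hI g).2 H q q' ((hYm q').1 hq')]
        have e3 : ∑ p' ∈ X', ((C.wires g).map fun e =>
            (e.1, C.value (G.comap (shf p')) e.2)).count c =
            ∑ q' ∈ Y', ((C.wires g).map fun e =>
            (e.1, C.value (H.comap (shf q')) e.2)).count c := by
          rw [sum_count X' (fun (p' : X → Fd 2) (e : L × C.Gate) =>
              (e.1, C.value (G.comap (shf p')) e.2)) c,
            sum_count Y' (fun (q' : X → Fd 2) (e : L × C.Gate) =>
              (e.1, C.value (H.comap (shf q')) e.2)) c]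
          refine congrArg Multiset.sum (Multiset.map_congr rfl fun e he => ?_)
          have hrk := C.rank_lt g e he
          have hce := (hI e.2).1
          obtain ⟨t', ht', hgd⟩ := extend hext t (I g) ht (I e.2)
            ((Finset.card_union_le _ _).trans (by omega))
          have hgd' := hmono t' _ _ (Finset.subset_union_right (s₁ := I g)) hgd
          refine hbij t' ht' _ _ fun p' _ => ?_
          have hi := ih e.2 (by omega) p' (p' + t') t' hgd' (fun _ _ => rfl)
          show (e.1, C.value (G.comap (shf p')) e.2) = c ↔
            (e.1, C.value (H.comap (shf (p' + t'))) e.2) = c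
          rw [hi]
        rw [e1, e2, ← hXY] at e3
        exact Nat.eq_of_mul_eq_mul_left hX0 e3
      rw [first, second]
  intro g p q t ht hq
  exact key (C.rank g + 1) g (Nat.lt_succ_self _) p q t ht hq

end Pool.Agent.H122.LC
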