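import Pool.Agent.H416.LG.Tasks3

set_option autoImplicit false

/-!
# The bordered Pfaffian is invariant under shifts
-/

namespace Pool.Agent.H122.LG21

open Pool.Agent.H416.LG

universe u v

section mm

variable {F : Type u} {E : Type v} [Field F] [AddCommGroup E] [Module F E] {ι : Type}

theorem upd0 (B : E →ₗ[F] E →ₗ[F] F) {k : ℕ} (s : Fin k × Fin 2 ≃ ι) [DecidableEq ι] (w : ι → E)
    (l₀ : Fin k) (z : E) :
    ∏ l : Fin k, B (Function.update w (s (l₀, 0)) z (s (l, 0)))
      (Function.update w (s (l₀, 0)) z (s (l, 1))) =
    B z (w (s (l₀, 1))) * ∏ l ∈ Finset.univ.erase l₀, B (w (s (l, 0))) (w (s (l, 1))) := by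
  rw [← Finset.mul_prod_erase _ _ (Finset.mem_univ l₀)]
  have h1 : s (l₀, (1 : Fin 2)) ≠ s (l₀, (0 : Fin 2)) := fun h => by
    have := s.injective h
    simp at this
  rw [Function.update_self, Function.update_of_ne h1]
  congr 1
  refine Finset.prod_congr rfl fun l hl => ?_
  have hl' := Finset.ne_of_mem_erase hl
  have h2 : ∀ b : Fin 2, s (l, b) ≠ s (l₀, (0 : Fin 2)) := fun b h => by
    have := s.injective h
    exact hl' (congrArg Prod.fst this)
  rw [Function.update_of_ne (h2 0), Function.update_of_ne (h2 1)]

theorem upd1 (B : E →ₗ[F] E →ₗ[F] F) {k : ℕ} (s : Fin k × Fin 2 ≃ ι) [DecidableEq ι] (w : ι → E)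
    (l₀ : Fin k) (z : E) :
    ∏ l : Fin k, B (Function.update w (s (l₀, 1)) z (s (l, 0)))
      (Function.update w (s (l₀, 1)) z (s (l, 1))) =
    B (w (s (l₀, 0))) z * ∏ l ∈ Finset.univ.erase l₀, B (w (s (l, 0))) (w (s (l, 1))) := by
  rw [← Finset.mul_prod_erase _ _ (Finset.mem_univ l₀)]
  have h1 : s (l₀, (0 : Fin 2)) ≠ s (l₀, (1 : Fin 2)) := fun h => by
    have := s.injective h
    simp at this
  rw [Function.update_self, Function.update_of_ne h1]
  congr 1
  refine Finset.prod_congr rfl fun l hl => ?_
  have hl' := Finset.ne_of_mem_erase hl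
  have h2 : ∀ b : Fin 2, s (l, b) ≠ s (l₀, (1 : Fin 2)) := fun b h => by
    have := s.injective h
    exact hl' (congrArg Prod.fst this)
  rw [Function.update_of_ne (h2 0), Function.update_of_ne (h2 1)]

/-- the product of the values of the form as a multilinear map -/
noncomputable def mmS (B : E →ₗ[F] E →ₗ[F] F) {k : ℕ} (s : Fin k × Fin 2 ≃ ι) :
    MultilinearMap F (fun _ : ι => E) F where
  toFun w := ∏ l : Fin k, B (w (s (l, 0))) (w (s (l, 1)))
  map_update_add' := by
    intro _ w i x y
    obtain ⟨⟨l₀, b⟩, rfl⟩ := s.surjective i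
    have hb : b = 0 ∨ b = 1 := by
      revert b
      decide
    rcases hb with rfl | rfl
    · rw [upd0, upd0, upd0, map_add, LinearMap.add_apply, add_mul]
    · rw [upd1, upd1, upd1, map_add, add_mul]
  map_update_smul' := by
    intro _ w i c x
    obtain ⟨⟨l₀, b⟩, rfl⟩ := s.surjective i
    have hb : b = 0 ∨ b = 1 := by
      revert b
      decide
    rcases hb with rfl | rfl
    · rw [upd0, upd0, map_smul, LinearMap.smul_apply, smul_mul_assoc]
    · rw [upd1, upd1, map_smul, smul_mul_assoc]

end mm

section bord

variable {X : Type v} {F : Type u} [Field F]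

theorem bord_zero_zero (b : X → X → F) {m : ℕ} (y : Fin m → X) : bord b y 0 0 = 0 := rfl

theorem bord_zero_succ (b : X → X → F) {m : ℕ} (y : Fin m → X) (j : Fin m) :
    bord b y 0 j.succ = 1 := rfl

theorem bord_succ_zero (b : X → X → F) {m : ℕ} (y : Fin m → X) (i : Fin m) :
    bord b y i.succ 0 = -1 := rfl

theorem bord_succ_succ (b : X → X → F) {m : ℕ} (y : Fin m → X) (i j : Fin m) :
    bord b y i.succ j.succ = b (y i) (y j) := rfl

/-- `psi` as the value of an alternating map -/
theorem psi_eq {E : Type u} [AddCommGroup E] [Module F E] (B : E →ₗ[F] E →ₗ[F] F)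
    (b : X → X → F) {k m : ℕ} (s : Fin k × Fin 2 ≃ Fin (m + 1)) (y : Fin m → X)
    (w : Fin (m + 1) → E) (h : ∀ i j, bord b y i j = B (w i) (w j)) :
    psi b s y = MultilinearMap.alternatization (mmS B s) w := by
  rw [MultilinearMap.alternatization_apply]
  unfold psi
  refine Finset.sum_congr rfl fun σ _ => ?_
  have h1 : ∏ l : Fin k, bord b y (σ (s (l, 0))) (σ (s (l, 1))) =
      (mmS B s).domDomCongr σ w := by
    refine Finset.prod_congr rfl fun l _ => ?_
    exact h _ _
  rw [h1]
  rfl

end bord

theorem LG21_holds : S_LG21.{u, v} := by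
  intro X F _ _ b hb k m s y y' i₀ κ hy hk
  have hbb : ∀ x, b x x = 0 := fun x => by
    have h1 := hb x x
    have h2 : (2 : F) * b x x = 0 := by linear_combination h1
    rcases mul_eq_zero.1 h2 with h3 | h3
    · exact absurd h3 two_ne_zero
    · exact h3
  set B : (Fin (m + 1) → F) →ₗ[F] (Fin (m + 1) → F) →ₗ[F] F :=
    Matrix.toBilin' (Matrix.of (bord b y)) with hB
  set e : Fin (m + 1) → (Fin (m + 1) → F) := fun i => Pi.single i 1 with he
  have hBe : ∀ i j, B (e i) (e j) = bord b y i j := fun i j => by
    rw [hB, he]
    simp only [Matrix.toBilin'_single, Matrix.of_apply]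
  have h0 := psi_eq B b s y e fun i j => (hBe i j).symm
  have h1 := psi_eq B b s y' (Function.update e i₀.succ (e i₀.succ - κ • e 0)) (by
    intro i j
    by_cases hi : i = i₀.succ
    · subst hi
      rw [Function.update_self]
      by_cases hj : j = i₀.succ
      · subst hj
        rw [Function.update_self]
        simp only [map_sub, map_smul, LinearMap.sub_apply, LinearMap.smul_apply, smul_eq_mul, hBe,
          bord_zero_zero, bord_zero_succ, bord_succ_zero, bord_succ_succ, hbb]
        ring
      · rw [Function.update_of_ne hj]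
        simp only [map_sub, map_smul, LinearMap.sub_apply, LinearMap.smul_apply, smul_eq_mul, hBe]
        induction j using Fin.cases with
        | zero => simp only [bord_succ_zero, bord_zero_zero]; ring
        | succ j =>
          have hj' : j ≠ i₀ := fun h => hj (by rw [h])
          simp only [bord_succ_succ, bord_zero_succ]
          rw [hy j hj', hk j hj']
          ring
    · rw [Function.update_of_ne hi]
      by_cases hj : j = i₀.succ
      · subst hj
        rw [Function.update_self]
        simp only [map_sub, map_smul, smul_eq_mul, hBe]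
        induction i using Fin.cases with
        | zero => simp only [bord_zero_succ, bord_zero_zero]; ring
        | succ i =>
          have hi' : i ≠ i₀ := fun h => hi (by rw [h])
          simp only [bord_succ_succ, bord_succ_zero]
          rw [hy i hi', hb, hk i hi', hb (y i) (y i₀)]
          ring
      · rw [Function.update_of_ne hj, hBe]
        induction i using Fin.cases with
        | zero =>
          induction j using Fin.cases with
          | zero => rfl
          | succ j => rfl
        | succ i =>
          induction j using Fin.cases with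
          | zero => rfl
          | succ j =>
            have hi' : i ≠ i₀ := fun h => hi (by rw [h])
            have hj' : j ≠ i₀ := fun h => hj (by rw [h])
            simp only [bord_succ_succ]
            rw [hy i hi', hy j hj'])
  rw [h0, h1, AlternatingMap.map_update_sub, AlternatingMap.map_update_smul,
    Function.update_eq_self,
    AlternatingMap.map_update_self _ _ (Fin.succ_ne_zero i₀), smul_zero, sub_zero]

end Pool.Agent.H122.LG21
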