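import Mathlib

set_option autoImplicit false

namespace Pool.Agent.H122.LT

open Real Set

/-- The cross product inequality behind the concavity. -/
lemma cross_ineq (B r1 r2 Y1 Y2 : ℝ) (hB : 0 < B) (h1 : 0 < r1) (h2 : 0 < r2) :
    B * (r1 * r2 * (r1 + r2) * (Y1 * r2 + Y2 * r1) ^ 2) ≤
      ((B * r1 ^ 2 + Y1 ^ 2) * r2 ^ 3 + (B * r2 ^ 2 + Y2 ^ 2) * r1 ^ 3) *
        (B * (r1 - r2) ^ 2 + (Y1 + Y2) ^ 2) := by
  set D := B * (r1 - r2) ^ 2 + (Y1 + Y2) ^ 2 with hD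
  set c := (Y1 * r2 + Y2 * r1) ^ 2 with hc
  have hD0 : 0 ≤ D := by positivity
  have a1 : B * c ≤ (B * r1 ^ 2 + Y1 ^ 2) * D := by
    have : (B * r1 ^ 2 + Y1 ^ 2) * D - B * c = (B * r1 * (r1 - r2) + Y1 * (Y1 + Y2)) ^ 2 := by
      rw [hD, hc]; ring
    nlinarith [sq_nonneg (B * r1 * (r1 - r2) + Y1 * (Y1 + Y2))]
  have a2 : B * c ≤ (B * r2 ^ 2 + Y2 ^ 2) * D := by
    have : (B * r2 ^ 2 + Y2 ^ 2) * D - B * c = (B * r2 * (r2 - r1) + Y2 * (Y1 + Y2)) ^ 2 := by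
      rw [hD, hc]; ring
    nlinarith [sq_nonneg (B * r2 * (r2 - r1) + Y2 * (Y1 + Y2))]
  have a3 : r1 * r2 * (r1 + r2) ≤ r2 ^ 3 + r1 ^ 3 := by
    have : r2 ^ 3 + r1 ^ 3 - r1 * r2 * (r1 + r2) = (r1 + r2) * (r1 - r2) ^ 2 := by ring
    nlinarith [mul_nonneg (add_pos h1 h2).le (sq_nonneg (r1 - r2))]
  have hc0 : 0 ≤ B * c := by positivity
  calc B * (r1 * r2 * (r1 + r2) * c) = (r1 * r2 * (r1 + r2)) * (B * c) := by ring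
    _ ≤ (r2 ^ 3 + r1 ^ 3) * (B * c) := mul_le_mul_of_nonneg_right a3 hc0
    _ = r2 ^ 3 * (B * c) + r1 ^ 3 * (B * c) := by ring
    _ ≤ r2 ^ 3 * ((B * r1 ^ 2 + Y1 ^ 2) * D) + r1 ^ 3 * ((B * r2 ^ 2 + Y2 ^ 2) * D) := by
        gcongr
    _ = _ := by ring

end Pool.Agent.H122.LT
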