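import Mathlib
import Pool.Agent.H122.LT1

set_option autoImplicit false

namespace Pool.Agent.H122.LT

open Real Set

/-- the squared radius of a slice -/
def Q (a s B x : ℝ) : ℝ := a + 2 * s * x - B * x ^ 2

lemma hasDerivAt_Q (a s B x : ℝ) : HasDerivAt (Q a s B) (2 * (s - B * x)) x := by
  have h1 : HasDerivAt (fun x : ℝ => a + 2 * s * x - B * x ^ 2)
      (0 + 2 * s * 1 - B * ((2 : ℕ) * x ^ (2 - 1) * 1)) x := by
    exact (((hasDerivAt_const x a).add ((hasDerivAt_id x).const_mul (2 * s))).sub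
      (((hasDerivAt_id x).pow 2).const_mul B))
  have h2 : Q a s B = fun x : ℝ => a + 2 * s * x - B * x ^ 2 := rfl
  rw [h2]
  refine h1.congr_deriv ?_
  norm_num
  ring

lemma hasDerivAt_rho (a s B x : ℝ) (h : 0 < Q a s B x) :
    HasDerivAt (fun x => √(Q a s B x)) ((s - B * x) / √(Q a s B x)) x := by
  refine ((hasDerivAt_Q a s B x).sqrt h.ne').congr_deriv ?_
  rw [mul_div_mul_left _ _ two_ne_zero]

lemma hasDerivAt_rho' (a s B x : ℝ) (h : 0 < Q a s B x) :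
    HasDerivAt (fun x => (s - B * x) / √(Q a s B x))
      (-((B * Q a s B x + (s - B * x) ^ 2) / (√(Q a s B x)) ^ 3)) x := by
  have hs : 0 < √(Q a s B x) := Real.sqrt_pos.2 h
  have h1 : HasDerivAt (fun x : ℝ => s - B * x) (0 - B * 1) x :=
    (hasDerivAt_const x s).sub ((hasDerivAt_id x).const_mul B)
  refine (h1.div (hasDerivAt_rho a s B x h) hs.ne').congr_deriv ?_
  have e : Q a s B x = √(Q a s B x) ^ 2 := (Real.sq_sqrt h.le).symm
  set w := √(Q a s B x) with hw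
  have e' : (B * Q a s B x + (s - B * x) ^ 2) = (B * w ^ 2 + (s - B * x) ^ 2) := by rw [← e]
  rw [e']
  field_simp
  ring

lemma Q_pos (a s B x : ℝ) (ha : 0 < a) (hB : 0 ≤ B) (h1 : 0 ≤ Q a s B 1) (hx0 : 0 ≤ x) (hx1 : x < 1) :
    0 < Q a s B x := by
  unfold Q at *
  nlinarith [mul_nonneg hx0 (sub_pos.2 hx1).le, mul_nonneg hx0 h1, mul_pos (sub_pos.2 hx1) ha,
    mul_nonneg hB (mul_nonneg hx0 (sub_pos.2 hx1).le)]

/-- The gap between the squared distance and the squared sum of the radii in a slice. -/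
lemma gap_pos (a1 a2 s1 s2 B m A2 x : ℝ) (hB : 0 < B) (hm : (s1 + s2) ^ 2 ≤ m * B)
    (hA : 2 * a1 + 2 * a2 + m < A2) (q1 : 0 ≤ Q a1 s1 B x) (q2 : 0 ≤ Q a2 s2 B x) :
    (B * (√(Q a1 s1 B x) - √(Q a2 s2 B x)) ^ 2 + ((s1 - B * x) + (s2 - B * x)) ^ 2) <
      B * (A2 - (√(Q a1 s1 B x) + √(Q a2 s2 B x)) ^ 2) := by
  have e1 : √(Q a1 s1 B x) ^ 2 = Q a1 s1 B x := Real.sq_sqrt q1
  have e2 : √(Q a2 s2 B x) ^ 2 = Q a2 s2 B x := Real.sq_sqrt q2
  set w1 := √(Q a1 s1 B x)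
  set w2 := √(Q a2 s2 B x)
  have e3 : 2 * w1 ^ 2 + 2 * w2 ^ 2 = 2 * a1 + 2 * a2 + 4 * (s1 + s2) * x - 4 * B * x ^ 2 := by
    rw [e1, e2]; unfold Q; ring
  have h4 : B * (2 * a1 + 2 * a2 + m) < B * A2 := mul_lt_mul_of_pos_left hA hB
  have e5 : B * (2 * w1 ^ 2 + 2 * w2 ^ 2) = B * (2 * a1 + 2 * a2 + 4 * (s1 + s2) * x - 4 * B * x ^ 2) := by
    rw [e3]
  nlinarith

end Pool.Agent.H122.LT
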