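import Mathlib
import Pool.Agent.H122.LT2

set_option autoImplicit false

namespace Pool.Agent.H122.LT

open Real Set

/-- derivative of `arcsin ((w1 + w2) / A)` -/
noncomputable def G (a1 a2 s1 s2 B A2 x : ℝ) : ℝ :=
  ((s1 - B * x) / √(Q a1 s1 B x) + (s2 - B * x) / √(Q a2 s2 B x)) /
    √(A2 - (√(Q a1 s1 B x) + √(Q a2 s2 B x)) ^ 2)

lemma G_deriv_neg (a1 a2 s1 s2 B m A2 x : ℝ) (hB : 0 < B) (hm : (s1 + s2) ^ 2 ≤ m * B)
    (hA : 2 * a1 + 2 * a2 + m < A2) (q1 : 0 < Q a1 s1 B x) (q2 : 0 < Q a2 s2 B x) :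
    ∃ y, HasDerivAt (G a1 a2 s1 s2 B A2) y x ∧ y < 0 := by
  have hgap := gap_pos a1 a2 s1 s2 B m A2 x hB hm hA q1.le q2.le
  have w1p : 0 < √(Q a1 s1 B x) := Real.sqrt_pos.2 q1
  have w2p : 0 < √(Q a2 s2 B x) := Real.sqrt_pos.2 q2
  have e1 : √(Q a1 s1 B x) ^ 2 = Q a1 s1 B x := Real.sq_sqrt q1.le
  have e2 : √(Q a2 s2 B x) ^ 2 = Q a2 s2 B x := Real.sq_sqrt q2.le
  have hsum := (hasDerivAt_rho a1 s1 B x q1).add (hasDerivAt_rho a2 s2 B x q2)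
  have hsum' := (hasDerivAt_rho' a1 s1 B x q1).add (hasDerivAt_rho' a2 s2 B x q2)
  have hΔ : 0 < A2 - (√(Q a1 s1 B x) + √(Q a2 s2 B x)) ^ 2 := by
    have : 0 ≤ (B * (√(Q a1 s1 B x) - √(Q a2 s2 B x)) ^ 2 +
      ((s1 - B * x) + (s2 - B * x)) ^ 2) := by positivity
    exact (pos_iff_pos_of_mul_pos (lt_of_le_of_lt this hgap)).1 hB
  have hden := ((hasDerivAt_const x A2).sub (hsum.pow 2)).sqrt (by
    simpa using hΔ.ne')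
  have hdp : 0 < √(A2 - (√(Q a1 s1 B x) + √(Q a2 s2 B x)) ^ 2) := Real.sqrt_pos.2 hΔ
  have hG := hsum'.div hden (by simpa using hdp.ne')
  refine ⟨_, hG, ?_⟩
  have ed : √(A2 - (√(Q a1 s1 B x) + √(Q a2 s2 B x)) ^ 2) ^ 2 =
    A2 - (√(Q a1 s1 B x) + √(Q a2 s2 B x)) ^ 2 := Real.sq_sqrt hΔ.le
  simp only [Pi.add_apply, Pi.sub_apply, Pi.pow_apply]
  rw [← e1, ← e2]
  simp only [e1, e2]
  set w1 := √(Q a1 s1 B x) with hw1
  set w2 := √(Q a2 s2 B x) with hw2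
  set D := √(A2 - (w1 + w2) ^ 2) with hD
  set Y1 := s1 - B * x with hY1
  set Y2 := s2 - B * x with hY2
  have key := cross_ineq B w1 w2 Y1 Y2 hB w1p w2p
  set N1 := B * w1 ^ 2 + Y1 ^ 2 with hN1
  set N2 := B * w2 ^ 2 + Y2 ^ 2 with hN2
  have n1 : 0 < N1 := by positivity
  have n2 : 0 < N2 := by positivity
  -- main inequality
  have main : w1 * w2 * (w1 + w2) * (Y1 * w2 + Y2 * w1) ^ 2 < (N1 * w2 ^ 3 + N2 * w1 ^ 3) * D ^ 2 := by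
    have hN : 0 < N1 * w2 ^ 3 + N2 * w1 ^ 3 := by positivity
    have h1 : (N1 * w2 ^ 3 + N2 * w1 ^ 3) * (B * (w1 - w2) ^ 2 + (Y1 + Y2) ^ 2) <
        (N1 * w2 ^ 3 + N2 * w1 ^ 3) * (B * D ^ 2) := by
      rw [ed]
      exact mul_lt_mul_of_pos_left hgap hN
    have h2 : B * (w1 * w2 * (w1 + w2) * (Y1 * w2 + Y2 * w1) ^ 2) <
        B * ((N1 * w2 ^ 3 + N2 * w1 ^ 3) * D ^ 2) := by
      calc _ ≤ _ := key
        _ < _ := h1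
        _ = _ := by ring
    exact lt_of_mul_lt_mul_left h2 hB.le
  have e : (-((B * w1 ^ 2 + Y1 ^ 2) / w1 ^ 3) + -((B * w2 ^ 2 + Y2 ^ 2) / w2 ^ 3)) * D ^ 2 +
      (w1 + w2) * (Y1 / w1 + Y2 / w2) ^ 2 < 0 := by
    rw [← hN1, ← hN2]
    have : (-(N1 / w1 ^ 3) + -(N2 / w2 ^ 3)) * D ^ 2 + (w1 + w2) * (Y1 / w1 + Y2 / w2) ^ 2 =
        (w1 * w2 * (w1 + w2) * (Y1 * w2 + Y2 * w1) ^ 2 - (N1 * w2 ^ 3 + N2 * w1 ^ 3) * D ^ 2) /
          (w1 ^ 3 * w2 ^ 3) := by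
      field_simp
      ring
    rw [this]
    exact div_neg_of_neg_of_pos (by linarith) (by positivity)
  rw [e1, e2] at e
  have hDp : 0 < D := hdp
  have e5 : (-((B * Q a1 s1 B x + Y1 ^ 2) / w1 ^ 3) + -((B * Q a2 s2 B x + Y2 ^ 2) / w2 ^ 3)) * D -
        (Y1 / w1 + Y2 / w2) * ((0 - ((2 : ℕ) : ℝ) * (w1 + w2) ^ (2 - 1) * (Y1 / w1 + Y2 / w2)) /
          (2 * D)) =
      ((-((B * Q a1 s1 B x + Y1 ^ 2) / w1 ^ 3) + -((B * Q a2 s2 B x + Y2 ^ 2) / w2 ^ 3)) * D ^ 2 +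
        (w1 + w2) * (Y1 / w1 + Y2 / w2) ^ 2) / D := by
    rw [eq_div_iff hDp.ne']
    have : (0 - ((2 : ℕ) : ℝ) * (w1 + w2) ^ (2 - 1) * (Y1 / w1 + Y2 / w2)) / (2 * D) * D =
      - ((w1 + w2) * (Y1 / w1 + Y2 / w2)) := by
      field_simp
      norm_num
      ring
    rw [sub_mul, mul_assoc, mul_assoc (Y1 / w1 + Y2 / w2), this]
    ring
  rw [e5]
  exact div_neg_of_neg_of_pos (div_neg_of_neg_of_pos e hDp) (by positivity)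

/-- Strict concavity at the left end point, for the angular radius. -/
lemma slope_lt (r1 r2 s1 s2 B m A2 : ℝ) (hr1 : 0 < r1) (hr2 : 0 < r2) (hB : 0 < B)
    (hm : (s1 + s2) ^ 2 ≤ m * B) (hA : 2 * r1 ^ 2 + 2 * r2 ^ 2 + m < A2)
    (q1 : 0 ≤ Q (r1 ^ 2) s1 B 1) (q2 : 0 ≤ Q (r2 ^ 2) s2 B 1) :
    arcsin ((√(Q (r1 ^ 2) s1 B 1) + √(Q (r2 ^ 2) s2 B 1)) / √A2) - arcsin ((r1 + r2) / √A2) <
      (s1 / r1 + s2 / r2) / √(A2 - (r1 + r2) ^ 2) := by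
  have hm0 : 0 ≤ m := by
    by_contra h
    push Not at h
    nlinarith [sq_nonneg (s1 + s2), mul_pos_of_neg_of_neg h (neg_neg_of_pos hB)]
  have hA2 : 0 < A2 := by nlinarith [sq_nonneg r1, sq_nonneg r2]
  have hsA : 0 < √A2 := Real.sqrt_pos.2 hA2
  have hp1 : ∀ x, 0 ≤ x → x < 1 → 0 < Q (r1 ^ 2) s1 B x := fun x h0 h1 =>
    Q_pos _ _ _ _ (by positivity) hB.le q1 h0 h1
  have hp2 : ∀ x, 0 ≤ x → x < 1 → 0 < Q (r2 ^ 2) s2 B x := fun x h0 h1 =>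
    Q_pos _ _ _ _ (by positivity) hB.le q2 h0 h1
  have hlt : ∀ x, 0 ≤ x → x < 1 →
      (√(Q (r1 ^ 2) s1 B x) + √(Q (r2 ^ 2) s2 B x)) ^ 2 < A2 := by
    intro x h0 h1
    have := gap_pos _ _ s1 s2 B m A2 x hB hm hA (hp1 x h0 h1).le (hp2 x h0 h1).le
    have h2 : 0 ≤ (B * (√(Q (r1 ^ 2) s1 B x) - √(Q (r2 ^ 2) s2 B x)) ^ 2 +
      ((s1 - B * x) + (s2 - B * x)) ^ 2) := by positivity
    have := (pos_iff_pos_of_mul_pos (lt_of_le_of_lt h2 this)).1 hB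
    linarith
  set f : ℝ → ℝ := fun x => arcsin ((√(Q (r1 ^ 2) s1 B x) + √(Q (r2 ^ 2) s2 B x)) / √A2) with hf
  have hQc : ∀ a s, Continuous (Q a s B) := fun a s => by unfold Q; fun_prop
  have hfc : Continuous f := by
    refine continuous_arcsin.comp ?_
    exact (((hQc _ _).sqrt).add ((hQc _ _).sqrt)).div_const _
  have hfd : ∀ x ∈ Ioo (0 : ℝ) 1, HasDerivAt f (G (r1 ^ 2) (r2 ^ 2) s1 s2 B A2 x) x := by
    intro x hx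
    have hsum := ((hasDerivAt_rho (r1 ^ 2) s1 B x (hp1 x hx.1.le hx.2)).add
      (hasDerivAt_rho (r2 ^ 2) s2 B x (hp2 x hx.1.le hx.2))).div_const (√A2)
    have h1 := hlt x hx.1.le hx.2
    set R := √(Q (r1 ^ 2) s1 B x) + √(Q (r2 ^ 2) s2 B x) with hR
    have hR0 : 0 ≤ R := by positivity
    have hRA : R < √A2 := Real.lt_sqrt_of_sq_lt h1
    have h3 : R / √A2 < 1 := (div_lt_one hsA).2 hRA
    have h4 : (0 : ℝ) ≤ R / √A2 := by positivity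
    have := (hasDerivAt_arcsin (x := R / √A2) (by linarith) h3.ne).comp x hsum
    refine this.congr_deriv ?_
    unfold G
    rw [← hR]
    have e1 : √(1 - (R / √A2) ^ 2) = √(A2 - R ^ 2) / √A2 := by
      rw [← Real.sqrt_div (by linarith), div_pow, Real.sq_sqrt hA2.le]
      congr 1
      field_simp
    rw [e1]
    have e2 : 0 < √(A2 - R ^ 2) := Real.sqrt_pos.2 (by linarith)
    field_simp
  obtain ⟨ξ, hξ, h⟩ := exists_hasDerivAt_eq_slope f (G (r1 ^ 2) (r2 ^ 2) s1 s2 B A2) zero_lt_one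
    hfc.continuousOn hfd
  have h0 : f 0 = arcsin ((r1 + r2) / √A2) := by
    simp only [hf, Q, mul_zero, add_zero, ne_eq, OfNat.ofNat_ne_zero, not_false_eq_true, zero_pow,
      sub_zero, Real.sqrt_sq hr1.le, Real.sqrt_sq hr2.le]
  have hG0 : G (r1 ^ 2) (r2 ^ 2) s1 s2 B A2 0 = (s1 / r1 + s2 / r2) / √(A2 - (r1 + r2) ^ 2) := by
    simp only [G, Q, mul_zero, add_zero, ne_eq, OfNat.ofNat_ne_zero, not_false_eq_true, zero_pow,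
      sub_zero, Real.sqrt_sq hr1.le, Real.sqrt_sq hr2.le]
  have hanti : StrictAntiOn (G (r1 ^ 2) (r2 ^ 2) s1 s2 B A2) (Icc 0 ξ) := by
    refine strictAntiOn_of_deriv_neg (convex_Icc _ _) ?_ ?_
    · intro x hx
      obtain ⟨y, hy, -⟩ := G_deriv_neg (r1 ^ 2) (r2 ^ 2) s1 s2 B m A2 x hB hm hA
        (hp1 x hx.1 (lt_of_le_of_lt hx.2 hξ.2)) (hp2 x hx.1 (lt_of_le_of_lt hx.2 hξ.2))
      exact hy.continuousAt.continuousWithinAt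
    · intro x hx
      rw [interior_Icc] at hx
      obtain ⟨y, hy, hy'⟩ := G_deriv_neg (r1 ^ 2) (r2 ^ 2) s1 s2 B m A2 x hB hm hA
        (hp1 x hx.1.le (hx.2.trans hξ.2)) (hp2 x hx.1.le (hx.2.trans hξ.2))
      rw [hy.deriv]
      exact hy'
  have h5 : G (r1 ^ 2) (r2 ^ 2) s1 s2 B A2 ξ < G (r1 ^ 2) (r2 ^ 2) s1 s2 B A2 0 :=
    hanti ⟨le_rfl, hξ.1.le⟩ ⟨hξ.1.le, le_rfl⟩ hξ.1
  rw [h, hG0, h0, sub_zero, div_one] at h5
  exact h5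

end Pool.Agent.H122.LT
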