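import Mathlib
import Pool.Agent.H122.LT3

set_option autoImplicit false

namespace Pool.Agent.H122.LT

open Real Set

lemma pair_lemma (r1 r2 s1 s2 B m τ θ : ℝ) (hr1 : 0 < r1) (hr2 : 0 < r2) (hB : 0 ≤ B)
    (hm : (s1 + s2) ^ 2 ≤ m * B) (hs : B = 0 → s1 = 0 ∧ s2 = 0)
    (hτ : (r1 - r2) ^ 2 + m < τ ^ 2)
    (q1 : 0 ≤ Q (r1 ^ 2) s1 B 1) (q2 : 0 ≤ Q (r2 ^ 2) s2 B 1)
    (hθ0 : 0 < θ) (hθπ : θ < π)
    (hl : cos θ * (r1 + r2) + sin θ * τ ≤ √(Q (r1 ^ 2) s1 B 1) + √(Q (r2 ^ 2) s2 B 1))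
    (ho : 0 < τ * (cos θ * τ - sin θ * (r1 + r2))) :
    θ * τ < s1 / r1 + s2 / r2 := by
  set A2 := τ ^ 2 + (r1 + r2) ^ 2 with hA2
  have hA : 2 * r1 ^ 2 + 2 * r2 ^ 2 + m < A2 := by rw [hA2]; nlinarith
  have hA2p : 0 < A2 := by positivity
  have hsA : 0 < √A2 := Real.sqrt_pos.2 hA2p
  have hsq : √A2 ^ 2 = A2 := Real.sq_sqrt hA2p.le
  have hτ0 : τ ≠ 0 := by
    rintro rfl
    simp at ho
  have hsτ : √(A2 - (r1 + r2) ^ 2) = |τ| := by
    rw [hA2, add_sub_cancel_right, Real.sqrt_sq_eq_abs]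
  set H0 := arcsin ((r1 + r2) / √A2) with hH0
  have hRlt : (r1 + r2) / √A2 < 1 := by
    rw [div_lt_one hsA]
    refine Real.lt_sqrt_of_sq_lt ?_
    rw [hA2]
    have : 0 < τ ^ 2 := by positivity
    linarith
  have hRpos : 0 < (r1 + r2) / √A2 := by positivity
  have hsin : sin H0 = (r1 + r2) / √A2 := Real.sin_arcsin (by linarith) hRlt.le
  have hcos : cos H0 = |τ| / √A2 := by
    rw [hH0, Real.cos_arcsin, div_pow, hsq, ← hsτ, ← Real.sqrt_div (by rw [hA2]; nlinarith [sq_nonneg τ])]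
    congr 1
    field_simp
  have hH0p : 0 < H0 := Real.arcsin_pos.2 hRpos
  have hH0l : H0 < π / 2 := by
    rw [hH0]
    exact Real.arcsin_lt_pi_div_two.2 hRlt
  have hR1 : 0 ≤ √(Q (r1 ^ 2) s1 B 1) + √(Q (r2 ^ 2) s2 B 1) := by positivity
  set R1 := √(Q (r1 ^ 2) s1 B 1) + √(Q (r2 ^ 2) s2 B 1) with hR1d
  rcases lt_or_gt_of_ne hτ0 with hneg | hpos
  · have habs : |τ| = -τ := abs_of_neg hneg
    have ho' : cos θ * τ - sin θ * (r1 + r2) < 0 := by
      by_contra h
      push Not at h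
      nlinarith
    have hc : 0 < cos (H0 - θ) := by
      rw [Real.cos_sub, hcos, hsin, habs]
      have : -τ / √A2 * cos θ + (r1 + r2) / √A2 * sin θ =
        -(cos θ * τ - sin θ * (r1 + r2)) / √A2 := by field_simp; ring
      rw [this]
      exact div_pos (by linarith) hsA
    have hge : -(π / 2) < H0 - θ := by
      by_contra h
      push Not at h
      have : cos (H0 - θ) ≤ 0 := by
        rw [← Real.cos_neg]
        exact Real.cos_nonpos_of_pi_div_two_le_of_le (by linarith) (by linarith)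
      linarith
    have hle : H0 - θ ≤ arcsin (R1 / √A2) := by
      refine (Real.le_arcsin_iff_sin_le' ⟨hge, by linarith⟩).2 ?_
      rw [Real.sin_sub, hcos, hsin, habs]
      have : (r1 + r2) / √A2 * cos θ - -τ / √A2 * sin θ =
        (cos θ * (r1 + r2) + sin θ * τ) / √A2 := by field_simp; ring
      rw [this]
      gcongr
    rcases hB.eq_or_lt with hB0 | hB0
    · obtain ⟨rfl, rfl⟩ := hs hB0.symm
      simp only [zero_div, add_zero]
      exact mul_neg_of_pos_of_neg hθ0 hneg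
    · have := slope_lt r1 r2 s1 s2 B m A2 hr1 hr2 hB0 hm hA q1 q2
      rw [hsτ, habs, ← hR1d, ← hH0, lt_div_iff₀ (by linarith)] at this
      have h2 : -θ * -τ ≤ (arcsin (R1 / √A2) - H0) * -τ :=
        mul_le_mul_of_nonneg_right (by linarith) (by linarith)
      linarith
  · have habs : |τ| = τ := abs_of_pos hpos
    have ho' : 0 < cos θ * τ - sin θ * (r1 + r2) := by
      by_contra h
      push Not at h
      nlinarith
    have hc : 0 < cos (H0 + θ) := by
      rw [Real.cos_add, hcos, hsin, habs]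
      have : τ / √A2 * cos θ - (r1 + r2) / √A2 * sin θ =
        (cos θ * τ - sin θ * (r1 + r2)) / √A2 := by field_simp
      rw [this]
      exact div_pos (by linarith) hsA
    have hlt : H0 + θ < π / 2 := by
      by_contra h
      push Not at h
      have : cos (H0 + θ) ≤ 0 :=
        Real.cos_nonpos_of_pi_div_two_le_of_le (by linarith) (by linarith)
      linarith
    have hle : H0 + θ ≤ arcsin (R1 / √A2) := by
      refine (Real.le_arcsin_iff_sin_le' ⟨by linarith [Real.pi_pos], hlt.le⟩).2 ?_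
      rw [Real.sin_add, hcos, hsin, habs]
      have : (r1 + r2) / √A2 * cos θ + τ / √A2 * sin θ =
        (cos θ * (r1 + r2) + sin θ * τ) / √A2 := by field_simp
      rw [this]
      gcongr
    rcases hB.eq_or_lt with hB0 | hB0
    · exfalso
      obtain ⟨rfl, rfl⟩ := hs hB0.symm
      have e : R1 = r1 + r2 := by
        rw [hR1d, ← hB0]
        simp [Q, Real.sqrt_sq hr1.le, Real.sqrt_sq hr2.le]
      rw [e, ← hH0] at hle
      linarith
    · have := slope_lt r1 r2 s1 s2 B m A2 hr1 hr2 hB0 hm hA q1 q2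
      rw [hsτ, habs, ← hR1d, ← hH0, lt_div_iff₀ (by linarith)] at this
      refine lt_of_le_of_lt ?_ this
      exact mul_le_mul_of_nonneg_right (by linarith) hpos.le

end Pool.Agent.H122.LT
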