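import Mathlib
import Pool.Agent.H122.LT4

set_option autoImplicit false

namespace Pool.Agent.H122.LT

open Real Set
open scoped RealInnerProductSpace

variable {E : Type*} [NormedAddCommGroup E] [InnerProductSpace ℝ E]

/-- position of `c` along the line `p + ℝ u` -/
noncomputable def tt (p u c : E) : ℝ := ⟪u, c - p⟫

/-- displacement of `c` from the line `p + ℝ u` -/
noncomputable def xx (p u c : E) : E := (c - p) - ⟪u, c - p⟫ • u

lemma inner_xx (p u c : E) (hu : ‖u‖ = 1) : ⟪u, xx p u c⟫ = 0 := by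
  simp [xx, inner_sub_right, inner_smul_right, hu]

lemma norm_sub_sq (p u c : E) (hu : ‖u‖ = 1) : ‖c - p‖ ^ 2 = tt p u c ^ 2 + ‖xx p u c‖ ^ 2 := by
  have h : c - p = tt p u c • u + xx p u c := by simp [tt, xx]
  conv_lhs => rw [h]
  rw [norm_add_sq_real, norm_smul, hu, inner_smul_left, inner_xx p u c hu]
  simp

lemma xx_sub (p u c d : E) : xx p u c - xx p u d = (c - d) - ⟪u, c - d⟫ • u := by
  simp only [xx, inner_sub_right, sub_smul]
  abel

lemma dist_sq_eq (p u c d : E) (hu : ‖u‖ = 1) :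
    dist c d ^ 2 = ⟪u, c - d⟫ ^ 2 + ‖xx p u c - xx p u d‖ ^ 2 := by
  rw [dist_eq_norm, xx_sub]
  have h := norm_sub_sq d u c hu
  rw [h]
  rfl

/-- For two balls met by a line: displacement sum versus position difference. -/
lemma add_lt (p u c d : E) (hu : ‖u‖ = 1) (r : ℝ) (hr : r ≤ 1) (hc : ‖xx p u c‖ ≤ r)
    (hd : ‖xx p u d‖ ≤ r) (h : 2 < dist c d) :
    ‖xx p u c + xx p u d‖ ^ 2 < ⟪u, d - c⟫ ^ 2 := by
  have h1 := dist_sq_eq p u c d hu
  have h2 := parallelogram_law_with_norm ℝ (xx p u c) (xx p u d)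
  have h3 : ⟪u, d - c⟫ ^ 2 = ⟪u, c - d⟫ ^ 2 := by
    rw [← neg_sub, inner_neg_right, neg_sq]
  have h4 : 4 < dist c d ^ 2 := by nlinarith
  have h5 : ‖xx p u c‖ ^ 2 ≤ 1 := by nlinarith [norm_nonneg (xx p u c)]
  have h6 : ‖xx p u d‖ ^ 2 ≤ 1 := by nlinarith [norm_nonneg (xx p u d)]
  rw [h3]
  nlinarith

lemma exists_beta {ι : Type*} (S : Finset ι) (P N : ι → Prop) (L U : ι → ℝ)
    (h : ∀ c ∈ S, P c → ∀ d ∈ S, N d → L c < U d) :
    ∃ β, (∀ c ∈ S, P c → L c < β) ∧ ∀ d ∈ S, N d → β < U d := by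
  classical
  by_cases hP : (S.filter P).Nonempty
  · by_cases hN : (S.filter N).Nonempty
    · obtain ⟨c, hc, hc'⟩ := Finset.exists_max_image (S.filter P) L hP
      obtain ⟨d, hd, hd'⟩ := Finset.exists_min_image (S.filter N) U hN
      rw [Finset.mem_filter] at hc hd
      have := h c hc.1 hc.2 d hd.1 hd.2
      refine ⟨(L c + U d) / 2, fun e he hPe => ?_, fun e he hNe => ?_⟩
      · have := hc' e (Finset.mem_filter.2 ⟨he, hPe⟩)
        linarith
      · have := hd' e (Finset.mem_filter.2 ⟨he, hNe⟩)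
        linarith
    · obtain ⟨c, hc, hc'⟩ := Finset.exists_max_image (S.filter P) L hP
      refine ⟨L c + 1, fun e he hPe => ?_, fun e he hNe => ?_⟩
      · have := hc' e (Finset.mem_filter.2 ⟨he, hPe⟩)
        linarith
      · exact absurd ⟨e, Finset.mem_filter.2 ⟨he, hNe⟩⟩ hN
  · by_cases hN : (S.filter N).Nonempty
    · obtain ⟨d, hd, hd'⟩ := Finset.exists_min_image (S.filter N) U hN
      refine ⟨U d - 1, fun e he hPe => ?_, fun e he hNe => ?_⟩
      · exact absurd ⟨e, Finset.mem_filter.2 ⟨he, hPe⟩⟩ hP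
      · have := hd' e (Finset.mem_filter.2 ⟨he, hNe⟩)
        linarith
    · refine ⟨0, fun e he hPe => ?_, fun e he hNe => ?_⟩
      · exact absurd ⟨e, Finset.mem_filter.2 ⟨he, hPe⟩⟩ hP
      · exact absurd ⟨e, Finset.mem_filter.2 ⟨he, hNe⟩⟩ hN

lemma exists_eps {ι : Type*} (S : Finset ι) (f g : ι → ℝ) (h : ∀ c ∈ S, 0 < f c) :
    ∃ ε > 0, ∀ c ∈ S, 0 < f c + ε * g c := by
  classical
  induction S using Finset.induction_on with
  | empty => exact ⟨1, one_pos, by simp⟩
  | insert a S ha ih =>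
    obtain ⟨ε, hε, h1⟩ := ih fun c hc => h c (Finset.mem_insert_of_mem hc)
    have hfa := h a (Finset.mem_insert_self _ _)
    set δ := min ε (f a / (2 * (|g a| + 1))) with hδ
    have hδ0 : 0 < δ := lt_min hε (by positivity)
    refine ⟨δ, hδ0, fun c hc => ?_⟩
    rcases Finset.mem_insert.1 hc with rfl | hc
    · have h2 : δ ≤ f c / (2 * (|g c| + 1)) := min_le_right _ _
      have h3 : δ * |g c| ≤ f c / 2 := by
        calc δ * |g c| ≤ f c / (2 * (|g c| + 1)) * |g c| := by gcongr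
          _ ≤ f c / (2 * (|g c| + 1)) * (|g c| + 1) := by gcongr; linarith
          _ = f c / 2 := by field_simp
      have h4 : -(δ * |g c|) ≤ δ * g c := by
        have := neg_abs_le (g c)
        nlinarith
      linarith
    · have h2 : δ ≤ ε := min_le_left _ _
      have h3 := h1 c hc
      have h4 := h c (Finset.mem_insert_of_mem hc)
      -- convexity in the parameter
      have h5 : f c + δ * g c = (1 - δ / ε) * f c + δ / ε * (f c + ε * g c) := by
        field_simp
        ring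
      have h6 : δ / ε ≤ 1 := (div_le_one hε).2 h2
      have h7 : 0 < δ / ε := by positivity
      rw [h5]
      have := mul_pos h7 h3
      have := mul_nonneg (sub_nonneg.2 h6) h4.le
      linarith

end Pool.Agent.H122.LT
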