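import Mathlib
import Pool.Agent.H122.LT5

set_option autoImplicit false

namespace Pool.Agent.H122.LT

open Real Set
open scoped RealInnerProductSpace

variable {E : Type*} [NormedAddCommGroup E] [InnerProductSpace ℝ E]

/-- The first order improvement lemma, for lines whose base points are the ends of the common
perpendicular; `u' = cos θ u + sin θ e`. -/
lemma core_aligned (S : Finset E) (p u e b : E) (r θ : ℝ) (hr : 0 < r) (hr1 : r ≤ 1)
    (hu : ‖u‖ = 1) (he : ‖e‖ = 1) (hue : ⟪u, e⟫ = 0) (hub : ⟪u, b⟫ = 0) (heb : ⟪e, b⟫ = 0)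
    (hθ0 : 0 < θ) (hθπ : θ < π)
    (hS : ∀ c ∈ S, ∀ d ∈ S, c ≠ d → 2 < dist c d)
    (h1 : ∀ c ∈ S, ‖xx p u c‖ = r)
    (h2 : ∀ c ∈ S, ‖xx (p + b) (cos θ • u + sin θ • e) c‖ ≤ r)
    (ho : ∀ c ∈ S, ∀ d ∈ S, c ≠ d → 0 < ⟪u, d - c⟫ * ⟪cos θ • u + sin θ • e, d - c⟫) :
    ∃ q w : E, ∀ c ∈ S, 0 < ⟪xx p u c, q + tt p u c • w⟫ := by
  classical
  have hsin : 0 < sin θ := Real.sin_pos_of_pos_of_lt_pi hθ0 hθπ
  have huu : ⟪u, u⟫ = 1 := by rw [real_inner_self_eq_norm_sq, hu]; norm_num
  have hee : ⟪e, e⟫ = 1 := by rw [real_inner_self_eq_norm_sq, he]; norm_num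
  set B := ‖b‖ ^ 2 with hB
  let t : E → ℝ := fun c => tt p u c
  let α : E → ℝ := fun c => ⟪e, xx p u c⟫
  let s : E → ℝ := fun c => ⟪b, xx p u c⟫
  have hα : ∀ c, ⟪e, c - p⟫ = α c := by
    intro c
    simp only [α, xx, inner_sub_right, inner_smul_right, real_inner_comm u e, hue]
    rw [real_inner_comm] at hue
    simp [hue]
  have hsb : ∀ c, ⟪b, c - p⟫ = s c := by
    intro c
    rw [real_inner_comm] at hub
    simp only [s, xx, inner_sub_right, inner_smul_right, hub]
    ring
  -- the condition at the second line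
  have hQ : ∀ c ∈ S, (cos θ * α c - sin θ * t c) ^ 2 ≤ Q ((α c) ^ 2) (s c) B 1 := by
    intro c hc
    have h3 := h2 c hc
    have hu' : ‖cos θ • u + sin θ • e‖ = 1 := by
      have : ‖cos θ • u + sin θ • e‖ ^ 2 = 1 := by
        rw [norm_add_sq_real, norm_smul, norm_smul, hu, he, inner_smul_left, inner_smul_right, hue]
        simp
      nlinarith [norm_nonneg (cos θ • u + sin θ • e)]
    have h4 := norm_sub_sq (p + b) (cos θ • u + sin θ • e) c hu'
    have h5 : c - (p + b) = (c - p) - b := by abel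
    have h6 : ‖c - (p + b)‖ ^ 2 = t c ^ 2 + r ^ 2 - 2 * s c + B := by
      rw [h5, norm_sub_sq_real, norm_sub_sq p u c hu, h1 c hc, real_inner_comm, hsb]
    have h7 : tt (p + b) (cos θ • u + sin θ • e) c = cos θ * t c + sin θ * α c := by
      simp only [tt, h5, inner_add_left, inner_smul_left, inner_sub_right (𝕜 := ℝ) _ (c - p) b]
      rw [hub, heb, hα]
      simp [t, tt]
    rw [h6, h7] at h4
    have h8 : ‖xx (p + b) (cos θ • u + sin θ • e) c‖ ^ 2 ≤ r ^ 2 := by
      gcongr
    have h9 := Real.sin_sq_add_cos_sq θ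
    unfold Q
    have h10 : (cos θ * α c - sin θ * t c) ^ 2 + (cos θ * t c + sin θ * α c) ^ 2 =
        t c ^ 2 + α c ^ 2 := by
      have : (cos θ * α c - sin θ * t c) ^ 2 + (cos θ * t c + sin θ * α c) ^ 2 =
        (sin θ ^ 2 + cos θ ^ 2) * (t c ^ 2 + α c ^ 2) := by ring
      rw [this, h9, one_mul]
    nlinarith
  have hQ0 : ∀ c ∈ S, 0 ≤ Q ((α c) ^ 2) (s c) B 1 := fun c hc =>
    (sq_nonneg _).trans (hQ c hc)
  have hQabs : ∀ c ∈ S, |cos θ * α c - sin θ * t c| ≤ √(Q ((α c) ^ 2) (s c) B 1) := fun c hc =>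
    Real.abs_le_sqrt (hQ c hc)
  have htd : ∀ c d : E, ⟪u, d - c⟫ = t d - t c := by
    intro c d
    simp only [t, tt, inner_sub_right]
    ring
  have hαd : ∀ c d : E, ⟪e, d - c⟫ = α d - α c := by
    intro c d
    rw [← hα, ← hα, inner_sub_right, inner_sub_right, inner_sub_right]
    ring
  -- pairs on different sides
  have hpair : ∀ c ∈ S, 0 < α c → ∀ d ∈ S, α d < 0 →
      -(s c / α c) - t c * θ < s d / (-α d) - t d * θ := by
    intro c hc hcα d hd hdα
    have hcd : c ≠ d := by
      rintro rfl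
      linarith
    have hB0 : 0 ≤ B := by positivity
    set m : ℝ := ‖(xx p u c - α c • e) + (xx p u d - α d • e)‖ ^ 2 with hm
    have hm1 : (s c + s d) ^ 2 ≤ m * B := by
      have h3 : s c + s d = ⟪b, (xx p u c - α c • e) + (xx p u d - α d • e)⟫ := by
        rw [real_inner_comm] at heb
        simp only [inner_add_right, inner_sub_right, inner_smul_right, heb, s]
        ring
      rw [h3]
      have h4 := abs_real_inner_le_norm b ((xx p u c - α c • e) + (xx p u d - α d • e))
      rw [hm, hB, ← mul_pow]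
      rw [← sq_abs]
      have := mul_comm ‖b‖ ‖(xx p u c - α c • e) + (xx p u d - α d • e)‖
      rw [← this]
      gcongr
    have hm2 : m = ‖xx p u c + xx p u d‖ ^ 2 - (α c + α d) ^ 2 := by
      have h3 : (xx p u c - α c • e) + (xx p u d - α d • e) =
          (xx p u c + xx p u d) - (α c + α d) • e := by
        rw [add_smul]; abel
      rw [hm, h3, norm_sub_sq_real, norm_smul, he, inner_smul_right, real_inner_comm,
        inner_add_right]
      have : ⟪e, xx p u c⟫ + ⟪e, xx p u d⟫ = α c + α d := rfl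
      rw [this, mul_one, Real.norm_eq_abs, sq_abs]
      ring
    have hτ : (α c - -α d) ^ 2 + m < (t d - t c) ^ 2 := by
      have := add_lt p u c d hu r hr1 (h1 c hc).le (h1 d hd).le (hS c hc d hd hcd)
      rw [htd] at this
      rw [hm2]
      nlinarith
    have hl : cos θ * (α c + -α d) + sin θ * (t d - t c) ≤
        √(Q ((α c) ^ 2) (s c) B 1) + √(Q ((-α d) ^ 2) (s d) B 1) := by
      have h3 := abs_le.1 (hQabs c hc)
      have h4 := abs_le.1 (hQabs d hd)
      rw [neg_sq]
      linarith [h3.2, h4.1]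
    have ho' : 0 < (t d - t c) * (cos θ * (t d - t c) - sin θ * (α c + -α d)) := by
      have := ho c hc d hd hcd
      rw [inner_add_left, inner_smul_left, inner_smul_left, htd, hαd] at this
      simp only [conj_trivial] at this
      convert this using 2
      ring
    have := pair_lemma (α c) (-α d) (s c) (s d) B m (t d - t c) θ hcα (by linarith) hB0 hm1
      (by
        intro h
        have hb0 : b = 0 := by
          have : ‖b‖ = 0 := by simpa [hB] using h
          exact norm_eq_zero.1 this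
        simp [s, hb0]) hτ (hQ0 c hc) (by rw [neg_sq]; exact hQ0 d hd) hθ0 hθπ hl ho'
    linarith
  obtain ⟨β, hβ1, hβ2⟩ := exists_beta S (fun c => 0 < α c) (fun c => α c < 0)
    (fun c => -(s c / α c) - t c * θ) (fun d => s d / (-α d) - t d * θ) hpair
  have hval : ∀ c, ⟪xx p u c, (b + β • e) + t c • (θ • e)⟫ = s c + α c * (β + t c * θ) := by
    intro c
    simp only [inner_add_right, inner_smul_right]
    rw [real_inner_comm e (xx p u c), real_inner_comm b (xx p u c)]
    simp only [s, α]
    ring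
  have hgood : ∀ c ∈ S, α c ≠ 0 → 0 < s c + α c * (β + t c * θ) := by
    intro c hc hα0
    rcases lt_or_gt_of_ne hα0 with h | h
    · have := hβ2 c hc h
      have h3 : β + t c * θ < s c / (-α c) := by linarith
      rw [lt_div_iff₀ (by linarith)] at h3
      linarith
    · have := hβ1 c hc h
      have h3 : -(s c / α c) < β + t c * θ := by linarith
      have h4 : -(s c / α c) * α c < (β + t c * θ) * α c := mul_lt_mul_of_pos_right h3 h
      have h5 : -(s c / α c) * α c = - s c := by field_simp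
      linarith
  by_cases hb : b = 0
  · -- both lines meet
    have hB0 : B = 0 := by simp [hB, hb]
    have hs0 : ∀ c, s c = 0 := fun c => by simp [s, hb]
    have hZ : ∀ c ∈ S, α c = 0 → t c = 0 := by
      intro c hc h0
      have := hQ c hc
      rw [h0, hs0, hB0] at this
      simp only [Q] at this
      have h3 : (sin θ * t c) ^ 2 ≤ 0 := by nlinarith
      have h4 : sin θ * t c = 0 := by nlinarith [sq_nonneg (sin θ * t c)]
      rcases mul_eq_zero.1 h4 with h | h
      · exact absurd h hsin.ne'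
      · exact h
    by_cases hex : ∃ c0 ∈ S, α c0 = 0
    · obtain ⟨c0, hc0, hα0⟩ := hex
      have huniq : ∀ c ∈ S, c ≠ c0 → α c ≠ 0 := by
        intro c hc hne h0
        have h3 := ho c hc c0 hc0 hne
        rw [htd, hZ c hc h0, hZ c0 hc0 hα0] at h3
        simp at h3
      obtain ⟨ε, hε, hε'⟩ := exists_eps (S.erase c0) (fun c => s c + α c * (β + t c * θ))
        (fun c => ⟪xx p u c, xx p u c0⟫) (fun c hc => hgood c (Finset.mem_of_mem_erase hc)
          (huniq c (Finset.mem_of_mem_erase hc) (Finset.ne_of_mem_erase hc)))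
      refine ⟨(b + β • e) + ε • xx p u c0, θ • e, fun c hc => ?_⟩
      have h3 : ⟪xx p u c, (b + β • e) + ε • xx p u c0 + t c • (θ • e)⟫ =
          (s c + α c * (β + t c * θ)) + ε * ⟪xx p u c, xx p u c0⟫ := by
        rw [← hval c]
        simp only [inner_add_right, inner_smul_right]
        ring
      change 0 < ⟪xx p u c, (b + β • e) + ε • xx p u c0 + t c • (θ • e)⟫
      rw [h3]
      by_cases hcc : c = c0
      · subst hcc
        rw [hs0, hα0, real_inner_self_eq_norm_sq, h1 c hc]
        have := mul_pos hε (pow_pos hr 2)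
        linarith
      · exact hε' c (Finset.mem_erase.2 ⟨hcc, hc⟩)
    · push Not at hex
      refine ⟨b + β • e, θ • e, fun c hc => ?_⟩
      change 0 < ⟪xx p u c, (b + β • e) + t c • (θ • e)⟫
      rw [hval]
      exact hgood c hc (hex c hc)
  · have hBp : 0 < B := by
      have : 0 < ‖b‖ := norm_pos_iff.2 hb
      positivity
    refine ⟨b + β • e, θ • e, fun c hc => ?_⟩
    change 0 < ⟪xx p u c, (b + β • e) + t c • (θ • e)⟫
    rw [hval]
    by_cases h0 : α c = 0
    · have := hQ0 c hc
      rw [h0] at this ⊢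
      simp only [Q] at this
      nlinarith
    · exact hgood c hc h0

end Pool.Agent.H122.LT
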