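import Mathlib
import Pool.Agent.H122.LT6

set_option autoImplicit false

namespace Pool.Agent.H122.LT

open Real Set
open scoped RealInnerProductSpace

variable {E : Type*} [NormedAddCommGroup E] [InnerProductSpace ℝ E]

lemma xx_shift (p u c : E) (a : ℝ) (hu : ‖u‖ = 1) : xx (p + a • u) u c = xx p u c := by
  have huu : ⟪u, u⟫ = 1 := by rw [real_inner_self_eq_norm_sq, hu]; norm_num
  have h : c - (p + a • u) = (c - p) - a • u := by abel
  simp only [xx]
  rw [h, inner_sub_right, inner_smul_right, huu, mul_one, sub_smul]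
  abel

lemma tt_shift (p u c : E) (a : ℝ) (hu : ‖u‖ = 1) : tt (p + a • u) u c = tt p u c - a := by
  have huu : ⟪u, u⟫ = 1 := by rw [real_inner_self_eq_norm_sq, hu]; norm_num
  have h : c - (p + a • u) = (c - p) - a • u := by abel
  simp only [tt]
  rw [h, inner_sub_right, inner_smul_right, huu, mul_one]

/-- The first order improvement lemma: if `S` has a second transversal of radius at most `r` in the
same order, then the first transversal can be improved to first order at all points of `S`. -/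
theorem core (S : Finset E) (p u p' u' : E) (r : ℝ) (hr : 0 < r) (hr1 : r ≤ 1)
    (hu : ‖u‖ = 1) (hu' : ‖u'‖ = 1)
    (hS : ∀ c ∈ S, ∀ d ∈ S, c ≠ d → 2 < dist c d)
    (h1 : ∀ c ∈ S, ‖xx p u c‖ = r)
    (h2 : ∀ c ∈ S, ‖xx p' u' c‖ ≤ r)
    (ho : ∀ c ∈ S, ∀ d ∈ S, c ≠ d → 0 < ⟪u, d - c⟫ * ⟪u', d - c⟫)
    (hne : ¬ (u' = u ∧ xx p u p' = 0)) :
    ∃ q w : E, ∀ c ∈ S, 0 < ⟪xx p u c, q + tt p u c • w⟫ := by
  classical
  have huu : ⟪u, u⟫ = 1 := by rw [real_inner_self_eq_norm_sq, hu]; norm_num
  have huu' : ⟪u', u'⟫ = 1 := by rw [real_inner_self_eq_norm_sq, hu']; norm_num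
  by_cases hcase : u' = u
  · -- parallel lines
    have hq : xx p u p' ≠ 0 := fun h => hne ⟨hcase, h⟩
    refine ⟨xx p u p', 0, fun c hc => ?_⟩
    rw [smul_zero, add_zero]
    have h3 : xx p' u' c = xx p u c - xx p u p' := by
      rw [hcase]
      simp only [xx]
      have h : c - p' = (c - p) - (p' - p) := by abel
      rw [h, inner_sub_right, sub_smul]
      abel
    have h4 := h2 c hc
    rw [h3] at h4
    have h5 : ‖xx p u c - xx p u p'‖ ^ 2 ≤ r ^ 2 := by
      have := norm_nonneg (xx p u c - xx p u p')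
      nlinarith
    rw [norm_sub_sq_real, h1 c hc] at h5
    have h6 : 0 < ‖xx p u p'‖ ^ 2 := by
      have := norm_pos_iff.2 hq
      positivity
    linarith
  by_cases hcase2 : u' = -u
  · -- opposite lines: at most one ball
    have hsub : ∀ c ∈ S, ∀ d ∈ S, c = d := by
      intro c hc d hd
      by_contra hcd
      have := ho c hc d hd hcd
      rw [hcase2, inner_neg_left] at this
      nlinarith [sq_nonneg ⟪u, d - c⟫]
    rcases S.eq_empty_or_nonempty with h | ⟨c0, hc0⟩
    · exact ⟨0, 0, fun c hc => by simp [h] at hc⟩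
    · refine ⟨xx p u c0, 0, fun c hc => ?_⟩
      rw [smul_zero, add_zero, hsub c hc c0 hc0, real_inner_self_eq_norm_sq, h1 c0 hc0]
      positivity
  -- general position
  set c0 := ⟪u, u'⟫ with hc0
  have hlt : c0 < 1 := by
    have h := real_inner_le_norm u u'
    rw [hu, hu', mul_one] at h
    refine lt_of_le_of_ne h fun h3 => hcase ?_
    have : ‖u - u'‖ ^ 2 = 0 := by
      rw [norm_sub_sq_real, hu, hu', ← hc0, h3]; norm_num
    have h4 : u - u' = 0 := norm_eq_zero.1 (by simpa using this)
    exact (sub_eq_zero.1 h4).symm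
  have hgt : -1 < c0 := by
    have h := neg_le_of_abs_le (abs_real_inner_le_norm u u')
    rw [hu, hu', mul_one] at h
    refine lt_of_le_of_ne h fun h3 => hcase2 ?_
    have : ‖u + u'‖ ^ 2 = 0 := by
      rw [norm_add_sq_real, hu, hu', ← hc0, ← h3]; norm_num
    have h4 : u + u' = 0 := norm_eq_zero.1 (by simpa using this)
    exact (neg_eq_of_add_eq_zero_right h4).symm
  set θ := Real.arccos c0 with hθ
  have hcos : cos θ = c0 := Real.cos_arccos hgt.le hlt.le
  have hθ0 : 0 < θ := Real.arccos_pos.2 hlt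
  have hθπ : θ < π := by
    rcases lt_or_eq_of_le (Real.arccos_le_pi c0) with h | h
    · exact h
    · exact absurd (Real.arccos_eq_pi.1 h) (by linarith)
  have hsin : 0 < sin θ := Real.sin_pos_of_pos_of_lt_pi hθ0 hθπ
  have hsc : sin θ ^ 2 = 1 - c0 ^ 2 := by
    have := Real.sin_sq_add_cos_sq θ
    rw [hcos] at this
    linarith
  have hsc0 : 1 - c0 ^ 2 ≠ 0 := by rw [← hsc]; positivity
  set e := (sin θ)⁻¹ • (u' - c0 • u) with he
  have heu : cos θ • u + sin θ • e = u' := by
    rw [he, smul_smul, mul_inv_cancel₀ hsin.ne', one_smul, hcos]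
    abel
  have hue : ⟪u, e⟫ = 0 := by
    rw [he, inner_smul_right, inner_sub_right, inner_smul_right, huu, ← hc0]
    ring
  have hen : ‖e‖ = 1 := by
    have h3 : ‖e‖ ^ 2 = 1 := by
      rw [he, norm_smul, mul_pow, norm_sub_sq_real, norm_smul, hu', hu, inner_smul_right,
        real_inner_comm, ← hc0, mul_pow, norm_inv, Real.norm_eq_abs, Real.norm_eq_abs, inv_pow,
        sq_abs, sq_abs, hsc]
      field_simp
      ring
    have := norm_nonneg e
    nlinarith
  set D := p' - p with hD
  set a := (⟪u, D⟫ - c0 * ⟪u', D⟫) / (1 - c0 ^ 2) with ha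
  set a' := (c0 * ⟪u, D⟫ - ⟪u', D⟫) / (1 - c0 ^ 2) with ha'
  set b := D + a' • u' - a • u with hb
  have hub : ⟪u, b⟫ = 0 := by
    rw [hb, inner_sub_right, inner_add_right, inner_smul_right, inner_smul_right, huu, ← hc0, ha,
      ha']
    field_simp
    ring
  have hub' : ⟪u', b⟫ = 0 := by
    rw [hb, inner_sub_right, inner_add_right, inner_smul_right, inner_smul_right, huu',
      real_inner_comm u u', ← hc0, ha, ha']
    field_simp
    ring
  have heb : ⟪e, b⟫ = 0 := by
    rw [he, inner_smul_left, inner_sub_left, inner_smul_left, hub, hub']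
    simp
  have hbase : p + a • u + b = p' + a' • u' := by
    rw [hb, hD]
    abel
  obtain ⟨q, w, hqw⟩ := core_aligned S (p + a • u) u e b r θ hr hr1 hu hen hue hub heb hθ0 hθπ hS
    (fun c hc => by rw [xx_shift p u c a hu]; exact h1 c hc)
    (fun c hc => by rw [heu, hbase, xx_shift p' u' c a' hu']; exact h2 c hc)
    (fun c hc d hd hcd => by rw [heu]; exact ho c hc d hd hcd)
  refine ⟨q - a • w, w, fun c hc => ?_⟩
  have h3 := hqw c hc
  rw [xx_shift p u c a hu, tt_shift p u c a hu] at h3
  have h4 : q - a • w + tt p u c • w = q + (tt p u c - a) • w := by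
    rw [sub_smul]; abel
  rw [h4]
  exact h3

end Pool.Agent.H122.LT
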