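import Mathlib
import Pool.Agent.H122.LT7

set_option autoImplicit false

namespace Pool.Agent.H122.LT

open Real Set
open scoped RealInnerProductSpace

variable {E : Type*} [NormedAddCommGroup E] [InnerProductSpace ℝ E]

/-- The direction `u` respects the order `R` on the centres `A`. -/
def Resp (R : E → E → Prop) (A : Finset E) (u : E) : Prop :=
  ∀ c ∈ A, ∀ d ∈ A, R c d → 0 < ⟪u, d - c⟫

/-- `(p,u)` is a line of least radius `r ≤ 1` respecting `R`. -/
def IsMinLine (R : E → E → Prop) (A : Finset E) (p u : E) (r : ℝ) : Prop :=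
  ‖u‖ = 1 ∧ Resp R A u ∧ (∀ c ∈ A, ‖xx p u c‖ ≤ r) ∧ r ≤ 1 ∧
    ∀ p' u' : E, ‖u'‖ = 1 → Resp R A u' → ∀ ρ ≤ (1 : ℝ), (∀ c ∈ A, ‖xx p' u' c‖ ≤ ρ) → r ≤ ρ

lemma continuous_xx (c : E) : Continuous fun x : E × E => xx x.1 x.2 c := by
  unfold xx
  fun_prop

lemma norm_xx_le (p u c : E) (hu : ‖u‖ = 1) : ‖xx p u c‖ ≤ ‖c - p‖ := by
  have h := norm_sub_sq p u c hu
  have h1 := norm_nonneg (xx p u c)
  have h2 := norm_nonneg (c - p)
  nlinarith [sq_nonneg (tt p u c)]

theorem exists_min [FiniteDimensional ℝ E] (A : Finset E) (hA : A.Nonempty) (R : E → E → Prop)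
    (hR : ∀ c ∈ A, ¬ R c c) (hS : ∀ c ∈ A, ∀ d ∈ A, c ≠ d → 2 < dist c d)
    (hex : ∃ p u : E, ‖u‖ = 1 ∧ Resp R A u ∧ ∀ c ∈ A, ‖xx p u c‖ ≤ 1) :
    ∃ p u r, IsMinLine R A p u r := by
  classical
  obtain ⟨c0, hc0⟩ := hA
  have hA : A.Nonempty := ⟨c0, hc0⟩
  -- normalise a line so that its base point is close to `c0`
  have hnorm : ∀ p u : E, ‖u‖ = 1 → ‖xx p u c0‖ ≤ 1 → ∃ q, dist q c0 ≤ 1 ∧
      ∀ c, xx q u c = xx p u c := by
    intro p u hu h
    refine ⟨p + tt p u c0 • u, ?_, fun c => xx_shift p u c _ hu⟩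
    rw [dist_comm, dist_eq_norm]
    have : c0 - (p + tt p u c0 • u) = xx p u c0 := by
      simp only [xx, tt]; abel
    rw [this]; exact h
  let K : Set (E × E) := {x | dist x.1 c0 ≤ 1 ∧ ‖x.2‖ = 1 ∧ (∀ c ∈ A, ‖xx x.1 x.2 c‖ ≤ 1) ∧
    ∀ c ∈ A, ∀ d ∈ A, R c d → 0 ≤ ⟪x.2, d - c⟫}
  have hKc : IsCompact K := by
    have hK1 : IsClosed K := by
      have e : K = {x | dist x.1 c0 ≤ 1} ∩ ({x | ‖x.2‖ = 1} ∩ ((⋂ c ∈ A, {x | ‖xx x.1 x.2 c‖ ≤ 1}) ∩
          ⋂ c ∈ A, ⋂ d ∈ A, ⋂ _ : R c d, {x : E × E | 0 ≤ ⟪x.2, d - c⟫})) := by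
        ext x
        simp [K]
      rw [e]
      refine (isClosed_le (by fun_prop) continuous_const).inter
        ((isClosed_eq (by fun_prop) continuous_const).inter (IsClosed.inter ?_ ?_))
      · exact isClosed_biInter fun c _ => isClosed_le (continuous_xx c).norm continuous_const
      · exact isClosed_biInter fun c _ => isClosed_biInter fun d _ => isClosed_iInter fun _ =>
          isClosed_le continuous_const (by fun_prop)
    refine ((isCompact_closedBall c0 1).prod (isCompact_closedBall (0 : E) 1)).of_isClosed_subset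
      hK1 ?_
    rintro ⟨x, y⟩ ⟨h1, h2, -⟩
    refine ⟨h1, ?_⟩
    simp at h2 ⊢
    exact h2.le
  have hKR : ∀ x ∈ K, Resp R A x.2 := by
    rintro ⟨p, u⟩ ⟨-, hu, h3, h4⟩ c hc d hd hcd
    have hne : c ≠ d := fun h => hR c hc (by rw [← h] at hcd; exact hcd)
    have h5 := add_lt p u c d hu 1 le_rfl (h3 c hc) (h3 d hd) (hS c hc d hd hne)
    have h6 := h4 c hc d hd hcd
    rcases lt_or_eq_of_le h6 with h | h
    · exact h
    · simp only at h h5
      rw [← h] at h5
      have : (0 : ℝ) ≤ ‖xx p u c + xx p u d‖ ^ 2 := by positivity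
      linarith
  have hKne : K.Nonempty := by
    obtain ⟨p, u, hu, hru, h1⟩ := hex
    obtain ⟨q, hq, hq'⟩ := hnorm p u hu (h1 c0 hc0)
    exact ⟨(q, u), hq, hu, fun c hc => by simp only [hq']; exact h1 c hc,
      fun c hc d hd hcd => (hru c hc d hd hcd).le⟩
  have hf : Continuous fun x : E × E => A.sup' hA fun c => ‖xx x.1 x.2 c‖ :=
    Continuous.finset_sup'_apply hA fun c _ => (continuous_xx c).norm
  obtain ⟨⟨p, u⟩, hx, hmin⟩ := hKc.exists_isMinOn hKne hf.continuousOn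
  refine ⟨p, u, A.sup' hA fun c => ‖xx p u c‖, hx.2.1, hKR _ hx, fun c hc => ?_, ?_, ?_⟩
  · exact Finset.le_sup' (fun c => ‖xx p u c‖) hc
  · exact Finset.sup'_le _ _ fun c hc => hx.2.2.1 c hc
  · intro p' u' hu' hru' ρ hρ h1
    obtain ⟨q, hq, hq'⟩ := hnorm p' u' hu' ((h1 c0 hc0).trans hρ)
    have hmem : (q, u') ∈ K := ⟨hq, hu', fun c hc => by simp only [hq']; exact (h1 c hc).trans hρ,
      fun c hc d hd hcd => (hru' c hc d hd hcd).le⟩
    have := hmin hmem
    refine le_trans this (Finset.sup'_le _ _ fun c hc => ?_)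
    simp only [hq']
    exact h1 c hc

/-- No first order improvement at the tight centres. -/
theorem no_improve (A : Finset E) (hA : A.Nonempty) (R : E → E → Prop) (p u : E) (r : ℝ)
    (hmin : IsMinLine R A p u r) (hr : 0 < r) (q w : E)
    (h : ∀ c ∈ A, ‖xx p u c‖ = r → 0 < ⟪xx p u c, q + tt p u c • w⟫) : False := by
  classical
  obtain ⟨hu, hRu, h1, hr1, hm⟩ := hmin
  let v : ℝ → E := fun ε => u + ε • w
  have hvc : Continuous v := by fun_prop
  have hv0 : v 0 = u := by simp [v]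
  have e1 : ∀ᶠ ε in nhdsWithin (0 : ℝ) (Ioi 0), 0 < ‖v ε‖ := by
    have : Filter.Tendsto (fun ε => ‖v ε‖) (nhdsWithin (0 : ℝ) (Ioi 0)) (nhds ‖v 0‖) :=
      (hvc.norm.tendsto 0).mono_left nhdsWithin_le_nhds
    exact this.eventually_const_lt (by rw [hv0, hu]; norm_num)
  have e2 : ∀ᶠ ε in nhdsWithin (0 : ℝ) (Ioi 0), ∀ c ∈ A, ∀ d ∈ A, R c d → 0 < ⟪v ε, d - c⟫ := by
    rw [Filter.eventually_all_finset]
    intro c hc
    rw [Filter.eventually_all_finset]
    intro d hd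
    by_cases hcd : R c d
    · have : Filter.Tendsto (fun ε => ⟪v ε, d - c⟫) (nhdsWithin (0 : ℝ) (Ioi 0))
          (nhds ⟪v 0, d - c⟫) :=
        ((by fun_prop : Continuous fun ε => ⟪v ε, d - c⟫).tendsto 0).mono_left nhdsWithin_le_nhds
      filter_upwards [this.eventually_const_lt (by rw [hv0]; exact hRu c hc d hd hcd)] with ε hε _
      exact hε
    · exact Filter.Eventually.of_forall fun ε h => absurd h hcd
  have e3 : ∀ᶠ ε in nhdsWithin (0 : ℝ) (Ioi 0), ∀ c ∈ A,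
      ‖xx p u c - ε • (q + tt p u c • w)‖ < r := by
    rw [Filter.eventually_all_finset]
    intro c hc
    rcases lt_or_eq_of_le (h1 c hc) with hlt | heq
    · have : Filter.Tendsto (fun ε : ℝ => ‖xx p u c - ε • (q + tt p u c • w)‖)
          (nhdsWithin (0 : ℝ) (Ioi 0)) (nhds ‖xx p u c - (0 : ℝ) • (q + tt p u c • w)‖) :=
        ((by fun_prop : Continuous fun ε : ℝ =>
          ‖xx p u c - ε • (q + tt p u c • w)‖).tendsto 0).mono_left nhdsWithin_le_nhds
      exact this.eventually_lt_const (by rw [zero_smul, sub_zero]; exact hlt)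
    · have hpos := h c hc heq
      set a := ⟪xx p u c, q + tt p u c • w⟫ with ha
      set N := ‖q + tt p u c • w‖ ^ 2 with hN
      have hN0 : 0 ≤ N := by positivity
      have hev : ∀ᶠ ε in nhdsWithin (0 : ℝ) (Ioi 0), ε ∈ Ioo (0 : ℝ) (a / (N + 1)) :=
        Ioo_mem_nhdsGT (by positivity)
      filter_upwards [hev] with ε hε
      have h5 : ‖xx p u c - ε • (q + tt p u c • w)‖ ^ 2 = r ^ 2 - 2 * (ε * a) + ε ^ 2 * N := by
        rw [norm_sub_sq_real, heq, inner_smul_right, norm_smul, mul_pow, Real.norm_eq_abs, sq_abs]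
      have h6 : ε * (N + 1) < a := by
        have := hε.2
        rwa [lt_div_iff₀ (by linarith)] at this
      have h7 : ‖xx p u c - ε • (q + tt p u c • w)‖ ^ 2 < r ^ 2 := by
        rw [h5]
        have h8 : ε * (ε * (N + 1)) < ε * a := mul_lt_mul_of_pos_left h6 hε.1
        have h9 : 0 < ε * a := mul_pos hε.1 hpos
        nlinarith [hε.1]
      exact lt_of_pow_lt_pow_left₀ 2 hr.le h7
  obtain ⟨ε, hε1, hε2, hε3⟩ := (e1.and (e2.and e3)).exists
  set N := ‖v ε‖ with hN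
  let u' := N⁻¹ • v ε
  have hu' : ‖u'‖ = 1 := by
    simp only [u']
    rw [norm_smul, norm_inv, Real.norm_eq_abs, abs_of_pos hε1, ← hN, inv_mul_cancel₀ hε1.ne']
  have hle : ∀ c, ‖xx (p + ε • q) u' c‖ ≤ ‖xx p u c - ε • (q + tt p u c • w)‖ := by
    intro c
    have hsh := xx_shift (p + ε • q) u' c (tt p u c * N) hu'
    rw [← hsh]
    refine (norm_xx_le _ u' c hu').trans (le_of_eq ?_)
    congr 1
    have : (tt p u c * N) • u' = tt p u c • v ε := by
      simp only [u']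
      rw [smul_smul, mul_assoc, mul_inv_cancel₀ hε1.ne', mul_one]
    rw [this]
    simp only [v, xx, tt, smul_add, smul_smul]
    rw [mul_comm ε]
    abel
  have hru' : Resp R A u' := by
    intro c hc d hd hcd
    simp only [u']
    rw [inner_smul_left]
    simp only [conj_trivial]
    exact mul_pos (by positivity) (hε2 c hc d hd hcd)
  have hlt : (A.sup' hA fun c => ‖xx (p + ε • q) u' c‖) < r :=
    (Finset.sup'_lt_iff hA).2 fun c hc => (hle c).trans_lt (hε3 c hc)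
  have := hm (p + ε • q) u' hu' hru' _ (hlt.le.trans hr1)
    (fun c hc => Finset.le_sup' (fun c => ‖xx (p + ε • q) u' c‖) hc)
  linarith

end Pool.Agent.H122.LT
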