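import Mathlib
import Pool.Agent.H122.LT8

set_option autoImplicit false

namespace Pool.Agent.H122.LT

open Real Set
open scoped RealInnerProductSpace

variable {E : Type*} [NormedAddCommGroup E] [InnerProductSpace ℝ E]

/-- the first order vector of a centre -/
noncomputable def xi (p u c : E) : E × E := (xx p u c, tt p u c • xx p u c)

/-- Caratheodory part of the pinning theorem. -/
theorem pin_aux [FiniteDimensional ℝ E] (n : ℕ) (hn : Module.finrank ℝ E = n + 1)
    (I : Finset E) (p u : E) (hu : ‖u‖ = 1)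
    (h : ∀ q w : E, ¬ ∀ c ∈ I, 0 < ⟪xx p u c, q + tt p u c • w⟫) :
    ∃ A' ⊆ I, A'.card ≤ 2 * n + 1 ∧ ∀ q w : E, ¬ ∀ c ∈ A', 0 < ⟪xx p u c, q + tt p u c • w⟫ := by
  classical
  have hconv : (0 : E × E) ∈ convexHull ℝ (xi p u '' (I : Set E)) := by
    by_contra hcon
    have hfin : (xi p u '' (I : Set E)).Finite := I.finite_toSet.image _
    obtain ⟨f, s, hs1, hs2⟩ := geometric_hahn_banach_point_closed (convex_convexHull ℝ _)
      (Set.Finite.isClosed_convexHull (𝕜 := ℝ) hfin) hcon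
    rw [map_zero] at hs1
    let f1 : StrongDual ℝ E := f.comp (ContinuousLinearMap.inl ℝ E E)
    let f2 : StrongDual ℝ E := f.comp (ContinuousLinearMap.inr ℝ E E)
    have : CompleteSpace E := FiniteDimensional.complete ℝ E
    refine h ((InnerProductSpace.toDual ℝ E).symm f1) ((InnerProductSpace.toDual ℝ E).symm f2) ?_
    intro c hc
    have h3 := hs2 (xi p u c) (subset_convexHull ℝ _ ⟨c, hc, rfl⟩)
    have h4 : f (xi p u c) = f1 (xx p u c) + f2 (tt p u c • xx p u c) := by
      simp only [f1, f2, ContinuousLinearMap.comp_apply, ContinuousLinearMap.inl_apply,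
        ContinuousLinearMap.inr_apply]
      rw [← map_add]
      simp [xi]
    rw [inner_add_right, inner_smul_right, real_inner_comm, InnerProductSpace.toDual_symm_apply,
      real_inner_comm ((InnerProductSpace.toDual ℝ E).symm f2),
      InnerProductSpace.toDual_symm_apply]
    rw [h4, map_smul, smul_eq_mul] at h3
    linarith
  obtain ⟨ι, hι, z, wt, hz, hai, hw, hw1, hsum⟩ := eq_pos_convex_span_of_mem_convexHull hconv
  choose g hg1 hg2 using fun i => hz (Set.mem_range_self i)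
  refine ⟨Finset.univ.image g, ?_, ?_, ?_⟩
  · intro c hc
    obtain ⟨i, -, rfl⟩ := Finset.mem_image.1 hc
    exact hg1 i
  · refine Finset.card_image_le.trans ?_
    rw [Finset.card_univ]
    refine hai.card_le_finrank_succ.trans ?_
    have hu0 : u ≠ 0 := by
      intro h0; rw [h0, norm_zero] at hu; norm_num at hu
    have : Fact (Module.finrank ℝ E = n + 1) := ⟨hn⟩
    have hfr : Module.finrank ℝ ((ℝ ∙ u)ᗮ : Submodule ℝ E) = n :=
      Submodule.finrank_orthogonal_span_singleton hu0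
    let L : ((ℝ ∙ u)ᗮ : Submodule ℝ E) × ((ℝ ∙ u)ᗮ : Submodule ℝ E) →ₗ[ℝ] E × E :=
      LinearMap.prodMap (Submodule.subtype _) (Submodule.subtype _)
    have hL : Module.finrank ℝ (LinearMap.range L) ≤ 2 * n := by
      refine (LinearMap.finrank_range_le L).trans ?_
      rw [Module.finrank_prod, hfr]; omega
    have hmem : ∀ c, xi p u c ∈ LinearMap.range L := by
      intro c
      have hx : xx p u c ∈ ((ℝ ∙ u)ᗮ : Submodule ℝ E) := by
        rw [Submodule.mem_orthogonal_singleton_iff_inner_right]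
        exact inner_xx p u c hu
      exact ⟨(⟨_, hx⟩, ⟨_, Submodule.smul_mem _ (tt p u c) hx⟩), rfl⟩
    have hsub : vectorSpan ℝ (Set.range z) ≤ LinearMap.range L := by
      rw [vectorSpan_def, Submodule.span_le]
      rintro _ ⟨a, ⟨i, rfl⟩, b, ⟨j, rfl⟩, rfl⟩
      have h1 := hmem (g i)
      have h2 := hmem (g j)
      rw [hg2] at h1 h2
      exact Submodule.sub_mem _ h1 h2
    have := Submodule.finrank_mono hsub
    omega
  · intro q w hcon
    have h3 : ∑ i, wt i * ⟪xx p u (g i), q + tt p u (g i) • w⟫ = 0 := by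
      have h4 : ∀ i, wt i * ⟪xx p u (g i), q + tt p u (g i) • w⟫ =
          ⟪(wt i • z i).1, q⟫ + ⟪(wt i • z i).2, w⟫ := by
        intro i
        rw [← hg2 i]
        simp only [xi, Prod.smul_mk, inner_add_right, inner_smul_right, inner_smul_left,
          conj_trivial]
        ring
      rw [Finset.sum_congr rfl fun i _ => h4 i, Finset.sum_add_distrib, ← sum_inner, ← sum_inner]
      have h5 := congrArg Prod.fst hsum
      have h6 := congrArg Prod.snd hsum
      rw [Prod.fst_sum] at h5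
      rw [Prod.snd_sum] at h6
      rw [h5, h6]
      simp
    have hne : Nonempty ι := by
      by_contra hemp
      rw [not_nonempty_iff] at hemp
      simp at hw1
    have h7 : 0 < ∑ i, wt i * ⟪xx p u (g i), q + tt p u (g i) • w⟫ :=
      Finset.sum_pos (fun i _ => mul_pos (hw i)
        (hcon (g i) (Finset.mem_image_of_mem g (Finset.mem_univ i)))) Finset.univ_nonempty
    linarith

/-- Pinning: the least line is pinned by at most `2n+1` balls (`dim E = n+1`). -/
theorem pin [FiniteDimensional ℝ E] (n : ℕ) (hn : Module.finrank ℝ E = n + 1)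
    (A : Finset E) (hA : A.Nonempty) (R : E → E → Prop)
    (hR : ∀ c ∈ A, ∀ d ∈ A, c ≠ d → R c d ∨ R d c)
    (hS : ∀ c ∈ A, ∀ d ∈ A, c ≠ d → 2 < dist c d)
    (p u : E) (r : ℝ)
    (hmin : IsMinLine R A p u r) (hr : 0 < r) :
    ∃ A' ⊆ A, A'.card ≤ 2 * n + 1 ∧ ∀ p' u' : E, ‖u'‖ = 1 → Resp R A' u' →
      (∀ c ∈ A', ‖xx p' u' c‖ ≤ r) → u' = u ∧ xx p u p' = 0 := by
  classical
  obtain ⟨A', hA'1, hA'2, hA'3⟩ := pin_aux n hn (A.filter fun c => ‖xx p u c‖ = r) p u hmin.1
    (fun q w hcon => no_improve A hA R p u r hmin hr q w fun c hc h =>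
      hcon c (Finset.mem_filter.2 ⟨hc, h⟩))
  have hsub : A' ⊆ A := hA'1.trans (Finset.filter_subset _ _)
  refine ⟨A', hsub, hA'2, fun p' u' hu' hru' h1 => ?_⟩
  by_contra hne
  obtain ⟨q, w, hqw⟩ := core A' p u p' u' r hr hmin.2.2.2.1 hmin.1 hu'
    (fun c hc d hd hcd => hS c (hsub hc) d (hsub hd) hcd)
    (fun c hc => (Finset.mem_filter.1 (hA'1 hc)).2) h1
    (fun c hc d hd hcd => by
      rcases hR c (hsub hc) d (hsub hd) hcd with h | h
      · exact mul_pos (hmin.2.1 c (hsub hc) d (hsub hd) h) (hru' c hc d hd h)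
      · have h3 := hmin.2.1 d (hsub hd) c (hsub hc) h
        have h4 := hru' d hd c hc h
        rw [← neg_sub c d, inner_neg_right, inner_neg_right, neg_mul_neg]
        exact mul_pos h3 h4)
    hne
  exact hA'3 q w hqw

/-- Helly theorem for a fixed order. -/
theorem fixed_order [FiniteDimensional ℝ E] (n : ℕ) (hn : Module.finrank ℝ E = n + 1) (hn1 : 1 ≤ n)
    (F : Finset E) (R : E → E → Prop)
    (hRirr : ∀ c ∈ F, ¬ R c c)
    (hR : ∀ c ∈ F, ∀ d ∈ F, c ≠ d → R c d ∨ R d c)
    (hS : ∀ c ∈ F, ∀ d ∈ F, c ≠ d → 2 < dist c d)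
    (hT : ∀ A ⊆ F, A.card ≤ 2 * n + 2 → ∃ p u : E, ‖u‖ = 1 ∧ Resp R A u ∧ ∀ c ∈ A, ‖xx p u c‖ ≤ 1) :
    ∃ p u : E, ‖u‖ = 1 ∧ ∀ c ∈ F, ‖xx p u c‖ ≤ 1 := by
  classical
  rcases F.eq_empty_or_nonempty with rfl | hF
  · obtain ⟨p, u, hu, -⟩ := hT ∅ (by simp) (by simp)
    exact ⟨p, u, hu, by simp⟩
  obtain ⟨c1, hc1⟩ := hF
  have hex : ∀ A : Finset E, A ⊆ F → A.Nonempty → A.card ≤ 2 * n + 2 →
      ∃ x : E × E × ℝ, IsMinLine R A x.1 x.2.1 x.2.2 := by
    intro A hAF hA hcard
    obtain ⟨p, u, r, h⟩ := exists_min A hA R (fun c hc => hRirr c (hAF hc))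
      (fun c hc d hd hcd => hS c (hAF hc) d (hAF hd) hcd) (hT A hAF hcard)
    exact ⟨(p, u, r), h⟩
  let P : Finset (Finset E) := F.powerset.filter fun A => A.Nonempty ∧ A.card ≤ 2 * n + 2
  have hP : ∀ A, A ∈ P ↔ A ⊆ F ∧ A.Nonempty ∧ A.card ≤ 2 * n + 2 := by
    intro A; simp [P]
  have hex' : ∀ A : Finset E, ∃ x : E × E × ℝ, A ∈ P → IsMinLine R A x.1 x.2.1 x.2.2 := by
    intro A
    by_cases hA : A ∈ P
    · obtain ⟨h1, h2, h3⟩ := (hP A).1 hA
      obtain ⟨x, hx⟩ := hex A h1 h2 h3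
      exact ⟨x, fun _ => hx⟩
    · exact ⟨0, fun h => absurd h hA⟩
  choose g hg using hex'
  have hPne : P.Nonempty := ⟨{c1}, (hP _).2 ⟨by simpa using hc1, by simp, by simp⟩⟩
  obtain ⟨A, hAP, hAmax⟩ := P.exists_max_image (fun A => (g A).2.2) hPne
  obtain ⟨hAF, hAne, hAcard⟩ := (hP A).1 hAP
  have hAmin := hg A hAP
  set p := (g A).1 with hp
  set u := (g A).2.1 with hu
  set r := (g A).2.2 with hr
  have hr0 : 0 ≤ r := by
    obtain ⟨c, hc⟩ := hAne
    exact (norm_nonneg _).trans (hAmin.2.2.1 c hc)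
  rcases lt_or_eq_of_le hr0 with hrpos | hr0
  · obtain ⟨A', hA'A, hA'card, hpin⟩ := pin n hn A hAne R
      (fun c hc d hd hcd => hR c (hAF hc) d (hAF hd) hcd)
      (fun c hc d hd hcd => hS c (hAF hc) d (hAF hd) hcd) p u r hAmin hrpos
    refine ⟨p, u, hAmin.1, fun B hB => ?_⟩
    have hmem : insert B A' ∈ P := by
      refine (hP _).2 ⟨Finset.insert_subset hB (hA'A.trans hAF), Finset.insert_nonempty _ _, ?_⟩
      exact (Finset.card_insert_le _ _).trans (by omega)
    have h1 := hg _ hmem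
    have h2 := hAmax _ hmem
    obtain ⟨h3, h4⟩ := hpin _ _ h1.1
      (fun c hc d hd hcd => h1.2.1 c (Finset.mem_insert_of_mem hc) d
        (Finset.mem_insert_of_mem hd) hcd)
      (fun c hc => (h1.2.2.1 c (Finset.mem_insert_of_mem hc)).trans h2)
    have h5 : ‖xx (g (insert B A')).1 (g (insert B A')).2.1 B‖ ≤ r :=
      (h1.2.2.1 B (Finset.mem_insert_self _ _)).trans h2
    rw [h3] at h5
    -- the two lines coincide
    have h6 : (g (insert B A')).1 = p + tt p u (g (insert B A')).1 • u := by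
      have : xx p u (g (insert B A')).1 = 0 := h4
      simp only [xx] at this
      simp only [tt]
      rw [sub_eq_zero] at this
      rw [← this]; abel
    rw [h6, xx_shift p u B _ hAmin.1] at h5
    exact h5.trans hAmin.2.2.2.1
  · -- all centres collinear
    by_cases hall : ∀ c ∈ F, c = c1
    · refine ⟨c1, u, hAmin.1, fun c hc => ?_⟩
      rw [hall c hc]
      simp [xx]
    push Not at hall
    obtain ⟨c2, hc2, hne⟩ := hall
    have hne' : c2 - c1 ≠ 0 := sub_ne_zero.2 hne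
    have hnpos : 0 < ‖c2 - c1‖ := norm_pos_iff.2 hne'
    have huu : ‖‖c2 - c1‖⁻¹ • (c2 - c1)‖ = 1 := by
      rw [norm_smul, norm_inv, norm_norm, inv_mul_cancel₀ hnpos.ne']
    refine ⟨c1, ‖c2 - c1‖⁻¹ • (c2 - c1), huu, fun B hB => ?_⟩
    have hmem : ({c1, c2, B} : Finset E) ∈ P := by
      refine (hP _).2 ⟨?_, ⟨c1, by simp⟩, Finset.card_le_three.trans (by omega)⟩
      intro x hx
      simp only [Finset.mem_insert, Finset.mem_singleton] at hx
      rcases hx with rfl | rfl | rfl <;> assumption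
    have h1 := hg _ hmem
    have h2 := hAmax _ hmem
    set G := g {c1, c2, B}
    have hz : ∀ c ∈ ({c1, c2, B} : Finset E), c = G.1 + tt G.1 G.2.1 c • G.2.1 := by
      intro c hc
      have h3 := (h1.2.2.1 c hc).trans h2
      have h4 : ‖xx G.1 G.2.1 c‖ = 0 := le_antisymm (by linarith)
        (norm_nonneg _)
      have h5 : xx G.1 G.2.1 c = 0 := norm_eq_zero.1 h4
      simp only [xx] at h5
      simp only [tt]
      rw [sub_eq_zero] at h5
      rw [← h5]; abel
    have e1 := hz c1 (by simp)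
    have e2 := hz c2 (by simp)
    have e3 := hz B (by simp)
    set t1 := tt G.1 G.2.1 c1
    set t2 := tt G.1 G.2.1 c2
    set t3 := tt G.1 G.2.1 B
    have e4 : c2 - c1 = (t2 - t1) • G.2.1 := by
      rw [e1, e2, sub_smul]; abel
    have e5 : B - c1 = (t3 - t1) • G.2.1 := by
      rw [e1, e3, sub_smul]; abel
    have ht : t2 - t1 ≠ 0 := by
      intro h; rw [h, zero_smul] at e4; exact hne' e4
    have e6 : B - c1 = ((t3 - t1) / (t2 - t1)) • (c2 - c1) := by
      rw [e4, e5, smul_smul, div_mul_cancel₀ _ ht]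
    have e7 : xx c1 (‖c2 - c1‖⁻¹ • (c2 - c1)) B = 0 := by
      simp only [xx]
      rw [e6, inner_smul_left, inner_smul_right, real_inner_self_eq_norm_sq, smul_smul]
      simp only [conj_trivial]
      rw [sub_eq_zero]
      congr 1
      field_simp
    rw [e7, norm_zero]
    norm_num

end Pool.Agent.H122.LT
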