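import Mathlib
import Pool.Agent.H122.LT9

set_option autoImplicit false

namespace Pool.Agent.H122.LT

open Real Set
open scoped RealInnerProductSpace

variable {E : Type*} [NormedAddCommGroup E] [InnerProductSpace ℝ E]

/-- Adapted coordinates for two lines that are not parallel. -/
theorem coords (p u p' u' : E) (hu : ‖u‖ = 1) (hu' : ‖u'‖ = 1)
    (hlt : ⟪u, u'⟫ < 1) (hgt : -1 < ⟪u, u'⟫) :
    ∃ (C S : ℝ) (X Y : E → ℝ) (Z : E → E) (β : E), 0 < C ∧ 0 < S ∧ C ^ 2 + S ^ 2 = 1 ∧
      ⟪u, u'⟫ = C ^ 2 - S ^ 2 ∧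
      (∀ c, ‖xx p u c‖ ^ 2 = (C * Y c - S * X c) ^ 2 + ‖Z c + β‖ ^ 2) ∧
      (∀ c, ‖xx p' u' c‖ ^ 2 = (C * Y c + S * X c) ^ 2 + ‖Z c - β‖ ^ 2) ∧
      (∀ c d, dist c d ^ 2 = (X c - X d) ^ 2 + (Y c - Y d) ^ 2 + ‖Z c - Z d‖ ^ 2) ∧
      (∀ c d, ⟪u, d - c⟫ = C * (X d - X c) + S * (Y d - Y c)) ∧
      (∀ c d, ⟪u', d - c⟫ = C * (X d - X c) - S * (Y d - Y c)) ∧
      (Module.finrank ℝ E = 2 → β = 0 ∧ ∀ c, Z c = 0) := by
  classical
  have huu : ⟪u, u⟫ = 1 := by rw [real_inner_self_eq_norm_sq, hu]; norm_num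
  have huu' : ⟪u', u'⟫ = 1 := by rw [real_inner_self_eq_norm_sq, hu']; norm_num
  set c0 := ⟪u, u'⟫ with hc0
  have hc0' : ⟪u', u⟫ = c0 := by rw [real_inner_comm]
  set C := √((1 + c0) / 2) with hC
  set S := √((1 - c0) / 2) with hS
  have hCpos : 0 < C := Real.sqrt_pos.2 (by linarith)
  have hSpos : 0 < S := Real.sqrt_pos.2 (by linarith)
  have hC2 : C ^ 2 = (1 + c0) / 2 := Real.sq_sqrt (by linarith)
  have hS2 : S ^ 2 = (1 - c0) / 2 := Real.sq_sqrt (by linarith)
  set f1 := (2 * C)⁻¹ • (u + u') with hf1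
  set f2 := (2 * S)⁻¹ • (u - u') with hf2
  have hf11 : ⟪f1, f1⟫ = 1 := by
    rw [hf1, inner_smul_left, inner_smul_right, inner_add_left, inner_add_right, inner_add_right,
      huu, huu', ← hc0, hc0']
    simp only [conj_trivial]
    have : (1 + c0 + (c0 + 1)) = 4 * C ^ 2 := by rw [hC2]; ring
    rw [this]
    field_simp
    norm_num
  have hf22 : ⟪f2, f2⟫ = 1 := by
    rw [hf2, inner_smul_left, inner_smul_right, inner_sub_left, inner_sub_right, inner_sub_right,
      huu, huu', ← hc0, hc0']
    simp only [conj_trivial]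
    have : (1 - c0 - (c0 - 1)) = 4 * S ^ 2 := by rw [hS2]; ring
    rw [this]
    field_simp
    norm_num
  have hf12 : ⟪f1, f2⟫ = 0 := by
    rw [hf1, hf2, inner_smul_left, inner_smul_right, inner_add_left, inner_sub_right,
      inner_sub_right, huu, huu', ← hc0, hc0']
    simp only [conj_trivial]
    ring
  have hf21 : ⟪f2, f1⟫ = 0 := by rw [real_inner_comm]; exact hf12
  have hu1 : u = C • f1 + S • f2 := by
    rw [hf1, hf2, smul_smul, smul_smul]
    have e1 : C * (2 * C)⁻¹ = 1 / 2 := by field_simp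
    have e2 : S * (2 * S)⁻¹ = 1 / 2 := by field_simp
    rw [e1, e2]
    module
  have hu2 : u' = C • f1 - S • f2 := by
    rw [hf1, hf2, smul_smul, smul_smul]
    have e1 : C * (2 * C)⁻¹ = 1 / 2 := by field_simp
    have e2 : S * (2 * S)⁻¹ = 1 / 2 := by field_simp
    rw [e1, e2]
    module
  have hcs : C ^ 2 + S ^ 2 = 1 := by rw [hC2, hS2]; ring
  -- base points
  have hsc0 : 1 - c0 ^ 2 ≠ 0 := by nlinarith
  set D := p' - p with hD
  set a := (⟪u, D⟫ - c0 * ⟪u', D⟫) / (1 - c0 ^ 2) with ha
  set a' := (c0 * ⟪u, D⟫ - ⟪u', D⟫) / (1 - c0 ^ 2) with ha'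
  set b := D + a' • u' - a • u with hb
  have hub : ⟪u, b⟫ = 0 := by
    rw [hb, inner_sub_right, inner_add_right, inner_smul_right, inner_smul_right, huu, ← hc0, ha,
      ha']
    field_simp
    ring
  have hub' : ⟪u', b⟫ = 0 := by
    rw [hb, inner_sub_right, inner_add_right, inner_smul_right, inner_smul_right, huu',
      hc0', ha, ha']
    field_simp
    ring
  have hbase : p + a • u + b = p' + a' • u' := by
    rw [hb, hD]
    abel
  set β := (1 / 2 : ℝ) • b with hβ
  have hf1b : ⟪f1, β⟫ = 0 := by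
    rw [hf1, hβ, inner_smul_left, inner_smul_right, inner_add_left, hub, hub']; simp
  have hf2b : ⟪f2, β⟫ = 0 := by
    rw [hf2, hβ, inner_smul_left, inner_smul_right, inner_sub_left, hub, hub']; simp
  set o := p + a • u + β with ho
  clear_value f1 f2 β o
  have hop : ∀ c, c - (p + a • u) = (c - o) + β := by intro c; rw [ho]; abel
  have hop' : ∀ c, c - (p' + a' • u') = (c - o) - β := by
    intro c; rw [← hbase, ho, hβ]; module
  let X : E → ℝ := fun c => ⟪f1, c - o⟫
  let Y : E → ℝ := fun c => ⟪f2, c - o⟫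
  let Z : E → E := fun c => c - o - X c • f1 - Y c • f2
  have hdec : ∀ c, c - o = X c • f1 + Y c • f2 + Z c := by intro c; simp only [Z]; abel
  have hf1Z : ∀ c, ⟪f1, Z c⟫ = 0 := by
    intro c
    simp only [Z, inner_sub_right, inner_smul_right, hf11, hf12]
    simp only [X, inner_sub_right]; ring
  have hf2Z : ∀ c, ⟪f2, Z c⟫ = 0 := by
    intro c
    simp only [Z, inner_sub_right, inner_smul_right, hf22, hf21]
    simp only [Y, inner_sub_right]; ring
  have hnorm : ∀ (x y : ℝ) (w : E), ⟪f1, w⟫ = 0 → ⟪f2, w⟫ = 0 →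
      ‖x • f1 + y • f2 + w‖ ^ 2 = x ^ 2 + y ^ 2 + ‖w‖ ^ 2 := by
    intro x y w h1 h2
    rw [← real_inner_self_eq_norm_sq, ← real_inner_self_eq_norm_sq]
    simp only [inner_add_left, inner_add_right, inner_smul_left, inner_smul_right, hf11, hf22, hf12,
      hf21, h1, h2, real_inner_comm f1 w, real_inner_comm f2 w, conj_trivial]
    ring
  have huc : ∀ c, ⟪u, (c - o) + β⟫ = C * X c + S * Y c := by
    intro c
    rw [hu1, inner_add_right, inner_add_left, inner_add_left, inner_smul_left, inner_smul_left,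
      inner_smul_left, inner_smul_left, hf1b, hf2b]
    simp [X, Y]
  have huc' : ∀ c, ⟪u', (c - o) - β⟫ = C * X c - S * Y c := by
    intro c
    rw [hu2, inner_sub_right, inner_sub_left, inner_sub_left, inner_smul_left, inner_smul_left,
      inner_smul_left, inner_smul_left, hf1b, hf2b]
    simp [X, Y]
  refine ⟨C, S, X, Y, Z, β, hCpos, hSpos, hcs, by rw [hC2, hS2]; ring, ?_, ?_, ?_, ?_, ?_, ?_⟩
  · intro c
    rw [← xx_shift p u c a hu]
    have : xx (p + a • u) u c = (-(S * (C * Y c - S * X c))) • f1 +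
        (C * (C * Y c - S * X c)) • f2 + (Z c + β) := by
      simp only [xx]
      rw [hop, huc, hdec c]
      conv_lhs => rw [hu1]
      have e1 : X c - (C * X c + S * Y c) * C = -(S * (C * Y c - S * X c)) := by
        linear_combination (-X c) * hcs
      have e2 : Y c - (C * X c + S * Y c) * S = C * (C * Y c - S * X c) := by
        linear_combination (-Y c) * hcs
      rw [← e1, ← e2]
      module
    rw [this, hnorm _ _ _ (by rw [inner_add_right, hf1Z, hf1b, add_zero])
      (by rw [inner_add_right, hf2Z, hf2b, add_zero])]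
    linear_combination (C * Y c - S * X c) ^ 2 * hcs
  · intro c
    rw [← xx_shift p' u' c a' hu']
    have : xx (p' + a' • u') u' c = (S * (C * Y c + S * X c)) • f1 +
        (C * (C * Y c + S * X c)) • f2 + (Z c - β) := by
      simp only [xx]
      rw [hop', huc', hdec c]
      conv_lhs => rw [hu2]
      have e1 : X c - (C * X c - S * Y c) * C = (S * (C * Y c + S * X c)) := by
        linear_combination (-X c) * hcs
      have e2 : Y c + (C * X c - S * Y c) * S = C * (C * Y c + S * X c) := by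
        linear_combination (-Y c) * hcs
      rw [← e1, ← e2]
      module
    rw [this, hnorm _ _ _ (by rw [inner_sub_right, hf1Z, hf1b, sub_zero])
      (by rw [inner_sub_right, hf2Z, hf2b, sub_zero])]
    linear_combination (C * Y c + S * X c) ^ 2 * hcs
  · intro c d
    rw [dist_eq_norm]
    have : c - d = (X c - X d) • f1 + (Y c - Y d) • f2 + (Z c - Z d) := by
      have h1 := hdec c
      have h2 := hdec d
      have : c - d = (c - o) - (d - o) := by abel
      rw [this, h1, h2]
      module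
    rw [this, hnorm _ _ _ (by rw [inner_sub_right, hf1Z, hf1Z, sub_zero])
      (by rw [inner_sub_right, hf2Z, hf2Z, sub_zero])]
  · intro c d
    have : d - c = ((d - o) + β) - ((c - o) + β) := by abel
    rw [this, inner_sub_right, huc, huc]
    ring
  · intro c d
    have : d - c = ((d - o) - β) - ((c - o) - β) := by abel
    rw [this, inner_sub_right, huc', huc']
    ring
  · intro hdim
    have hzero : ∀ w : E, ⟪f1, w⟫ = 0 → ⟪f2, w⟫ = 0 → w = 0 := by
      intro w h1 h2
      have : FiniteDimensional ℝ E := FiniteDimensional.of_finrank_pos (by omega)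
      by_contra hw
      -- three orthogonal nonzero vectors
      have hli : LinearIndependent ℝ ![f1, f2, w] := by
        rw [Fintype.linearIndependent_iff]
        intro g hg
        simp only [Fin.sum_univ_three, Matrix.cons_val_zero, Matrix.cons_val_one,
          Matrix.cons_val_two, Matrix.head_cons, Matrix.tail_cons] at hg
        have hg' : g 0 • f1 + g 1 • f2 + g 2 • w = 0 := by simpa using hg
        have := hnorm (g 0) (g 1) (g 2 • w) (by rw [inner_smul_right, h1, mul_zero])
          (by rw [inner_smul_right, h2, mul_zero])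
        rw [hg', norm_zero, norm_smul, mul_pow, Real.norm_eq_abs, sq_abs] at this
        have hw2 : 0 < ‖w‖ ^ 2 := by
          have := norm_pos_iff.2 hw
          positivity
        have h3 : g 0 ^ 2 = 0 := by
          nlinarith [sq_nonneg (g 0), sq_nonneg (g 1), mul_nonneg (sq_nonneg (g 2)) hw2.le]
        have h4 : g 1 ^ 2 = 0 := by
          nlinarith [sq_nonneg (g 0), sq_nonneg (g 1), mul_nonneg (sq_nonneg (g 2)) hw2.le]
        have h5 : g 2 ^ 2 * ‖w‖ ^ 2 = 0 := by
          nlinarith [sq_nonneg (g 0), sq_nonneg (g 1), mul_nonneg (sq_nonneg (g 2)) hw2.le]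
        intro i
        fin_cases i
        · simpa using h3
        · simpa using h4
        · rcases mul_eq_zero.1 h5 with h | h
          · simpa using h
          · exact absurd h hw2.ne'
      have := hli.fintype_card_le_finrank
      simp at this
      omega
    exact ⟨hzero β hf1b hf2b, fun c => hzero _ (hf1Z c) (hf2Z c)⟩

end Pool.Agent.H122.LT
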