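import Mathlib
import Pool.Agent.H122.LT10

set_option autoImplicit false

namespace Pool.Agent.H122.LT

open Real Set
open scoped RealInnerProductSpace

variable {E : Type*} [NormedAddCommGroup E] [InnerProductSpace ℝ E]

/-- pigeonhole: if no three points lie in a window of length `w` then `2k+1` points spread more than
`k w`. -/
lemma spread {α : Type*} (F : Finset α) (t : α → ℝ) (w : ℝ) (hw : 0 < w) (k : ℕ)
    (hk : 1 ≤ k) (hcard : 2 * k < F.card)
    (h3 : ∀ a ∈ F, ∀ b ∈ F, ∀ c ∈ F, a ≠ b → a ≠ c → b ≠ c →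
      ¬ (|t a - t b| ≤ w ∧ |t a - t c| ≤ w ∧ |t b - t c| ≤ w)) :
    ∃ x ∈ F, ∃ y ∈ F, k * w < t x - t y := by
  classical
  by_contra hcon
  push Not at hcon
  have hne : F.Nonempty := Finset.card_pos.1 (by omega)
  obtain ⟨m, hm, hmin⟩ := F.exists_min_image t hne
  let j : α → ℕ := fun c => max 1 ⌈(t c - t m) / w⌉₊
  have hj : ∀ c ∈ F, j c ∈ Finset.Icc 1 k := by
    intro c hc
    rw [Finset.mem_Icc]
    refine ⟨le_max_left _ _, max_le hk ?_⟩
    rw [Nat.ceil_le, div_le_iff₀ hw]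
    exact hcon c hc m hm
  have hcard' : (Finset.Icc 1 k).card * 2 < F.card := by
    rw [Nat.card_Icc]; omega
  obtain ⟨y, hy, hfib⟩ := Finset.exists_lt_card_fiber_of_mul_lt_card_of_maps_to hj hcard'
  obtain ⟨a, b, c, ha, hb, hc, hab, hac, hbc⟩ := Finset.two_lt_card_iff.1 hfib
  rw [Finset.mem_filter] at ha hb hc
  have hint : ∀ c ∈ F, j c = y → ((y : ℝ) - 1) * w ≤ t c - t m ∧ t c - t m ≤ y * w := by
    intro c hc hcy
    have h1 : 0 ≤ (t c - t m) / w := div_nonneg (sub_nonneg.2 (hmin c hc)) hw.le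
    constructor
    · by_cases h : ⌈(t c - t m) / w⌉₊ ≤ 1
      · have : y = 1 := by rw [← hcy]; exact max_eq_left h
        rw [this]
        simp only [Nat.cast_one, sub_self, zero_mul]
        exact sub_nonneg.2 (hmin c hc)
      · have h2 : y = ⌈(t c - t m) / w⌉₊ := by
          rw [← hcy]; exact max_eq_right (by omega)
        have h4 := Nat.ceil_lt_add_one h1
        rw [← h2] at h4
        have h5 : (y : ℝ) - 1 < (t c - t m) / w := by linarith
        rw [lt_div_iff₀ hw] at h5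
        exact h5.le
    · have h2 : (t c - t m) / w ≤ ⌈(t c - t m) / w⌉₊ := Nat.le_ceil _
      have h3 : ((⌈(t c - t m) / w⌉₊ : ℕ) : ℝ) ≤ y := by
        rw [← hcy]; exact_mod_cast le_max_right _ _
      rw [← div_le_iff₀ hw]
      exact h2.trans h3
  obtain ⟨a1, a2⟩ := hint a ha.1 ha.2
  obtain ⟨b1, b2⟩ := hint b hb.1 hb.2
  obtain ⟨c1, c2⟩ := hint c hc.1 hc.2
  refine h3 a ha.1 b hb.1 c hc.1 hab hac hbc ⟨?_, ?_, ?_⟩ <;>
  · rw [abs_le]; constructor <;> nlinarith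

/-- three unit balls on a line -/
lemma gap2 (p u a b c : E) (hu : ‖u‖ = 1)
    (ha : ‖xx p u a‖ ≤ 1) (hb : ‖xx p u b‖ ≤ 1) (hc : ‖xx p u c‖ ≤ 1)
    (hab : 2 < dist a b) (hbc : 2 < dist b c) (hac : 2 < dist a c)
    (h : |tt p u a - tt p u c| = |tt p u a - tt p u b| + |tt p u b - tt p u c|) :
    2 < |tt p u a - tt p u c| ^ 2 := by
  have htt : ∀ x y, ⟪u, y - x⟫ = tt p u y - tt p u x := by
    intro x y
    simp only [tt]
    rw [← inner_sub_right]; congr 1; abel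
  have h1 := add_lt p u a b hu 1 le_rfl ha hb hab
  have h2 := add_lt p u b c hu 1 le_rfl hb hc hbc
  have h3 := dist_sq_eq p u a c hu
  rw [htt] at h1 h2 h3
  have h1' : ‖xx p u a + xx p u b‖ < |tt p u a - tt p u b| := by
    have : ‖xx p u a + xx p u b‖ ^ 2 < |tt p u a - tt p u b| ^ 2 := by
      rw [sq_abs]; linarith [h1, sq_abs (tt p u b - tt p u a),
        (by ring : (tt p u b - tt p u a) ^ 2 = (tt p u a - tt p u b) ^ 2)]
    exact lt_of_pow_lt_pow_left₀ 2 (abs_nonneg _) this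
  have h2' : ‖xx p u b + xx p u c‖ < |tt p u b - tt p u c| := by
    have : ‖xx p u b + xx p u c‖ ^ 2 < |tt p u b - tt p u c| ^ 2 := by
      rw [sq_abs]; linarith [h2,
        (by ring : (tt p u c - tt p u b) ^ 2 = (tt p u b - tt p u c) ^ 2)]
    exact lt_of_pow_lt_pow_left₀ 2 (abs_nonneg _) this
  have h4 : ‖xx p u a - xx p u c‖ ≤ ‖xx p u a + xx p u b‖ + ‖xx p u b + xx p u c‖ := by
    have : xx p u a - xx p u c = (xx p u a + xx p u b) - (xx p u b + xx p u c) := by abel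
    rw [this]
    exact norm_sub_le _ _
  have h5 : ‖xx p u a - xx p u c‖ < |tt p u a - tt p u c| := by rw [h]; linarith
  have h6 : 4 < dist a c ^ 2 := by nlinarith
  have h7 : ‖xx p u a - xx p u c‖ ^ 2 < |tt p u a - tt p u c| ^ 2 := by
    have := norm_nonneg (xx p u a - xx p u c)
    nlinarith
  have h8 : (tt p u a - tt p u c) ^ 2 = |tt p u a - tt p u c| ^ 2 := (sq_abs _).symm
  rw [h3, h8] at h6
  linarith

lemma abs_between (x y z : ℝ) : |x - z| = |x - y| + |y - z| ∨ |x - y| = |x - z| + |z - y| ∨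
    |y - z| = |y - x| + |x - z| := by
  rcases abs_cases (x - z) with h1 | h1 <;> rcases abs_cases (x - y) with h2 | h2 <;>
  rcases abs_cases (y - z) with h3 | h3 <;>
  rw [abs_sub_comm z y, abs_sub_comm y x, h1.1, h2.1, h3.1] <;>
  first
  | (left; linarith)
  | (right; left; linarith)
  | (right; right; linarith)

lemma spread_gen (F : Finset E) (hF : 9 ≤ F.card) (p u : E) (hu : ‖u‖ = 1)
    (hS : ∀ c ∈ F, ∀ d ∈ F, c ≠ d → 2 < dist c d)
    (h1 : ∀ c ∈ F, ‖xx p u c‖ ≤ 1) :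
    ∃ x ∈ F, ∃ y ∈ F, 32 < ⟪u, x - y⟫ ^ 2 := by
  have htt : ∀ x y, ⟪u, y - x⟫ = tt p u y - tt p u x := by
    intro x y
    simp only [tt]
    rw [← inner_sub_right]; congr 1; abel
  obtain ⟨x, hx, y, hy, hxy⟩ := spread F (tt p u) √2 (by positivity) 4 (by norm_num) (by omega)
    (by
      intro a ha b hb c hc hab hac hbc ⟨k1, k2, k3⟩
      have hs : √2 ^ 2 = 2 := Real.sq_sqrt (by norm_num)
      have hle : ∀ z : ℝ, |z| ≤ √2 → |z| ^ 2 ≤ 2 := by
        intro z hz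
        have := abs_nonneg z
        nlinarith [Real.sqrt_nonneg 2]
      rcases abs_between (tt p u a) (tt p u b) (tt p u c) with h | h | h
      · have := gap2 p u a b c hu (h1 a ha) (h1 b hb) (h1 c hc) (hS a ha b hb hab)
          (hS b hb c hc hbc) (hS a ha c hc hac) h
        linarith [hle _ k2]
      · have := gap2 p u a c b hu (h1 a ha) (h1 c hc) (h1 b hb) (hS a ha c hc hac)
          (hS c hc b hb hbc.symm) (hS a ha b hb hab) h
        linarith [hle _ k1]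
      · have := gap2 p u b a c hu (h1 b hb) (h1 a ha) (h1 c hc) (hS b hb a ha hab.symm)
          (hS a ha c hc hac) (hS b hb c hc hbc) h
        linarith [hle _ k3])
  refine ⟨x, hx, y, hy, ?_⟩
  rw [htt]
  have hs : √2 ^ 2 = 2 := Real.sq_sqrt (by norm_num)
  have h0 : 0 < √2 := by positivity
  push_cast at hxy
  nlinarith

lemma range_bound (C S X1 X2 Y1 Y2 : ℝ) (hC : 0 < C) (hSC : S ^ 2 ≤ C ^ 2)
    (h1 : (C * Y1 - S * X1) ^ 2 ≤ 1) (h2 : (C * Y1 + S * X1) ^ 2 ≤ 1)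
    (h3 : (C * Y2 - S * X2) ^ 2 ≤ 1) (h4 : (C * Y2 + S * X2) ^ 2 ≤ 1) :
    S ^ 2 * (C * (X1 - X2) + S * (Y1 - Y2)) ^ 2 ≤ 4 * C ^ 2 := by
  have k1 := abs_le_one_iff_mul_self_le_one.2 (by nlinarith : (C * Y1 - S * X1) *
    (C * Y1 - S * X1) ≤ 1)
  have k2 := abs_le_one_iff_mul_self_le_one.2 (by nlinarith : (C * Y1 + S * X1) *
    (C * Y1 + S * X1) ≤ 1)
  have k3 := abs_le_one_iff_mul_self_le_one.2 (by nlinarith : (C * Y2 - S * X2) *
    (C * Y2 - S * X2) ≤ 1)
  have k4 := abs_le_one_iff_mul_self_le_one.2 (by nlinarith : (C * Y2 + S * X2) *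
    (C * Y2 + S * X2) ≤ 1)
  rw [abs_le] at k1 k2 k3 k4
  set A := C * (Y1 - Y2) with hA
  set B := S * (X1 - X2) with hB
  have hAB : |A| + |B| ≤ 2 := by
    rcases abs_cases A with hA' | hA' <;> rcases abs_cases B with hB' | hB' <;>
      rw [hA'.1, hB'.1] <;> rw [hA, hB] <;> linarith [k1.1, k1.2, k2.1, k2.2, k3.1, k3.2, k4.1, k4.2]
  have h5 : |C ^ 2 * B + S ^ 2 * A| ≤ 2 * C ^ 2 := by
    calc |C ^ 2 * B + S ^ 2 * A| ≤ |C ^ 2 * B| + |S ^ 2 * A| := abs_add_le _ _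
      _ = C ^ 2 * |B| + S ^ 2 * |A| := by
        rw [abs_mul (C ^ 2) B, abs_mul (S ^ 2) A, abs_of_nonneg (sq_nonneg C),
          abs_of_nonneg (sq_nonneg S)]
      _ ≤ C ^ 2 * |B| + C ^ 2 * |A| := by gcongr
      _ = C ^ 2 * (|A| + |B|) := by ring
      _ ≤ C ^ 2 * 2 := by gcongr
      _ = 2 * C ^ 2 := by ring
  have h6 : C ^ 2 * (S ^ 2 * (C * (X1 - X2) + S * (Y1 - Y2)) ^ 2) = (C ^ 2 * B + S ^ 2 * A) ^ 2 := by
    rw [hA, hB]; ring
  have h7 : (C ^ 2 * B + S ^ 2 * A) ^ 2 ≤ (2 * C ^ 2) ^ 2 := by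
    rw [← sq_abs]
    exact pow_le_pow_left₀ (abs_nonneg _) h5 2
  have hC2 : 0 < C ^ 2 := by positivity
  rw [← h6] at h7
  have h8 : C ^ 2 * (S ^ 2 * (C * (X1 - X2) + S * (Y1 - Y2)) ^ 2) ≤ C ^ 2 * (4 * C ^ 2) := by
    linarith [h7, (by ring : (2 * C ^ 2) ^ 2 = C ^ 2 * (4 * C ^ 2))]
  exact le_of_mul_le_mul_left h8 hC2

/-- planar version of the spread lemma, in coordinates -/
lemma spread_planar {α : Type*} (F : Finset α) (hF : 5 ≤ F.card) (t x : α → ℝ)
    (hx : ∀ c ∈ F, x c ^ 2 ≤ 1)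
    (hS : ∀ c ∈ F, ∀ d ∈ F, c ≠ d → 4 < (t c - t d) ^ 2 + (x c - x d) ^ 2) :
    ∃ a ∈ F, ∃ b ∈ F, 12 < (t a - t b) ^ 2 := by
  have hx' : ∀ c ∈ F, |x c| ≤ 1 := fun c hc =>
    abs_le_one_iff_mul_self_le_one.2 (by nlinarith [hx c hc])
  obtain ⟨a, ha, b, hb, hab⟩ := spread F t √3 (by positivity) 2 (by norm_num) (by omega)
    (by
      intro a ha b hb c hc hab hac hbc ⟨k1, k2, k3⟩
      have hs : √3 ^ 2 = 3 := Real.sq_sqrt (by norm_num)
      have hle : ∀ z : ℝ, |z| ≤ √3 → z ^ 2 ≤ 3 := by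
        intro z hz
        have := abs_nonneg z
        have h2 : |z| ^ 2 ≤ 3 := by nlinarith [Real.sqrt_nonneg 3]
        rwa [sq_abs] at h2
      have l1 := hle _ k1
      have l2 := hle _ k2
      have l3 := hle _ k3
      have m1 := hS a ha b hb hab
      have m2 := hS a ha c hc hac
      have m3 := hS b hb c hc hbc
      have n1 : 1 < (x a - x b) ^ 2 := by linarith
      have n2 : 1 < (x a - x c) ^ 2 := by linarith
      have n3 : 1 < (x b - x c) ^ 2 := by linarith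
      have hx1 := hx' a ha
      have hx2 := hx' b hb
      have hx3 := hx' c hc
      rw [abs_le] at hx1 hx2 hx3
      have o1 : 1 < |x a - x b| := by
        by_contra hc'; push Not at hc'
        have := abs_nonneg (x a - x b)
        have h2 : |x a - x b| ^ 2 ≤ 1 := by nlinarith
        rw [sq_abs] at h2; linarith
      have o2 : 1 < |x a - x c| := by
        by_contra hc'; push Not at hc'
        have := abs_nonneg (x a - x c)
        have h2 : |x a - x c| ^ 2 ≤ 1 := by nlinarith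
        rw [sq_abs] at h2; linarith
      have o3 : 1 < |x b - x c| := by
        by_contra hc'; push Not at hc'
        have := abs_nonneg (x b - x c)
        have h2 : |x b - x c| ^ 2 ≤ 1 := by nlinarith
        rw [sq_abs] at h2; linarith
      rcases abs_cases (x a - x b) with e1 | e1 <;> rcases abs_cases (x a - x c) with e2 | e2 <;>
        rcases abs_cases (x b - x c) with e3 | e3 <;> rw [e1.1] at o1 <;> rw [e2.1] at o2 <;>
        rw [e3.1] at o3 <;> linarith [hx1.1, hx1.2, hx2.1, hx2.2, hx3.1, hx3.2])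
  refine ⟨a, ha, b, hb, ?_⟩
  have hs : √3 ^ 2 = 3 := Real.sq_sqrt (by norm_num)
  have h0 : 0 < √3 := by positivity
  push_cast at hab
  nlinarith

end Pool.Agent.H122.LT
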