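import Mathlib
import Pool.Agent.H122.LT11

set_option autoImplicit false

namespace Pool.Agent.H122.LT

open Real Set
open scoped RealInnerProductSpace

variable {E : Type*} [NormedAddCommGroup E] [InnerProductSpace ℝ E]

lemma leSq {a b : ℝ} (h : a ^ 2 ≤ b ^ 2) (hb : 0 ≤ b) : a ≤ b :=
  (le_abs_self a).trans (abs_le_of_sq_le_sq h hb)

lemma prod_cs (a b μ ν : ℝ) (x y : E) (hμ : 0 ≤ μ) (hν : 0 ≤ ν)
    (h1 : a ^ 2 + ‖x‖ ^ 2 ≤ μ ^ 2) (h2 : b ^ 2 + ‖y‖ ^ 2 ≤ ν ^ 2) :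
    |a * b + ⟪x, y⟫| ≤ μ * ν := by
  have h3 : |a * b + ⟪x, y⟫| ≤ |a| * |b| + ‖x‖ * ‖y‖ := by
    refine (abs_add_le _ _).trans ?_
    rw [abs_mul]
    gcongr
    exact abs_real_inner_le_norm x y
  refine h3.trans ?_
  have h5 : (|a| * |b| + ‖x‖ * ‖y‖) ^ 2 ≤ (a ^ 2 + ‖x‖ ^ 2) * (b ^ 2 + ‖y‖ ^ 2) := by
    rw [← sq_abs a, ← sq_abs b]
    nlinarith [sq_nonneg (|a| * ‖y‖ - |b| * ‖x‖)]
  have h4 : (|a| * |b| + ‖x‖ * ‖y‖) ^ 2 ≤ (μ * ν) ^ 2 := by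
    calc (|a| * |b| + ‖x‖ * ‖y‖) ^ 2 ≤ (a ^ 2 + ‖x‖ ^ 2) * (b ^ 2 + ‖y‖ ^ 2) := h5
      _ ≤ μ ^ 2 * ν ^ 2 := by gcongr
      _ = (μ * ν) ^ 2 := by ring
  exact leSq h4 (by positivity)

lemma hb_A (μ μ' γ γ' δ : ℝ) (hδ : 0 ≤ δ) (hμ : 0 ≤ μ) (hμ' : 0 ≤ μ') (hγ : 0 < γ) (hγ' : 0 < γ')
    (h1 : μ ^ 2 ≤ γ ^ 2 - δ) (h2 : μ' ^ 2 ≤ γ' ^ 2 - δ) :
    (μ + μ') ^ 2 ≤ (γ + γ') ^ 2 - 4 * δ := by
  have k1 : δ ≤ γ ^ 2 := by linarith [sq_nonneg μ]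
  have k2 : δ ≤ γ' ^ 2 := by linarith [sq_nonneg μ']
  have h3 : δ ≤ γ * γ' := by
    have k3 : δ ^ 2 ≤ (γ * γ') ^ 2 := by
      calc δ ^ 2 = δ * δ := by ring
        _ ≤ γ ^ 2 * γ' ^ 2 := mul_le_mul k1 k2 hδ (by positivity)
        _ = (γ * γ') ^ 2 := by ring
    exact leSq k3 (by positivity)
  have h4 : μ * μ' ≤ γ * γ' - δ := by
    have k3 : (μ * μ') ^ 2 ≤ (γ * γ' - δ) ^ 2 := by
      calc (μ * μ') ^ 2 = μ ^ 2 * μ' ^ 2 := by ring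
        _ ≤ (γ ^ 2 - δ) * (γ' ^ 2 - δ) := mul_le_mul h1 h2 (by positivity) (by linarith)
        _ ≤ (γ * γ' - δ) ^ 2 := by
          have : 0 ≤ δ * (γ - γ') ^ 2 := mul_nonneg hδ (sq_nonneg _)
          nlinarith
    exact leSq k3 (by linarith)
  nlinarith

lemma hb_B (μ μ' γ γ' Γ i i' : ℝ) (hμ : 0 ≤ μ) (hμ' : 0 ≤ μ') (hγ : 0 < γ) (hγ' : 0 < γ')
    (hi : 0 ≤ i) (hi' : 0 ≤ i')
    (h1 : μ ^ 2 + 2 * i ≤ γ ^ 2) (h2 : μ' ^ 2 + 2 * i' ≤ γ' ^ 2) (hs : γ + γ' = 2 * Γ) :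
    i + i' ≤ 2 * Γ * (2 * Γ - (μ + μ')) := by
  have h3 : μ ≤ γ := leSq (by linarith) hγ.le
  have h4 : μ' ≤ γ' := leSq (by linarith) hγ'.le
  have h5 : (γ - μ) * (γ + μ) ≤ (γ - μ) * (4 * Γ) := by
    apply mul_le_mul_of_nonneg_left _ (by linarith)
    linarith
  have h6 : (γ' - μ') * (γ' + μ') ≤ (γ' - μ') * (4 * Γ) := by
    apply mul_le_mul_of_nonneg_left _ (by linarith)
    linarith
  have h7 : (γ - μ) * (4 * Γ) + (γ' - μ') * (4 * Γ) = 4 * Γ * (2 * Γ - (μ + μ')) := by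
    linear_combination (4 * Γ) * hs
  have h8 : (γ - μ) * (γ + μ) = γ ^ 2 - μ ^ 2 := by ring
  have h9 : (γ' - μ') * (γ' + μ') = γ' ^ 2 - μ' ^ 2 := by ring
  linarith

/-- the final scalar estimate for `|X|` -/
lemma hb_C (C S x hY N Γ ρ b w ii yy : ℝ) (hC : 0 < C) (hS : 0 < S) (hS13 : S ≤ 1 / 3)
    (hY0 : 0 < hY) (hN0 : 0 ≤ N) (hΓ : Γ = S * hY) (hρ : 0 < ρ) (hYρ : hY ≤ ρ)
    (hNΓ : N ≤ 2 * Γ)
    (hcs : 2 * (S * x) * hY + 2 * b * w ≤ N * ρ)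
    (hii : ii ≤ 2 * Γ * (2 * Γ - N))
    (hyy : C * yy ≤ S * (N * Γ))
    (hm : 2 * (S * C * x * hY) ≤ ii + yy + 2 * b * w) :
    C * ((1 + C) * x) ≤ ρ * (C + S ^ 2) := by
  have hΓ0 : 0 < Γ := by rw [hΓ]; positivity
  have hΓρ : Γ ≤ S * ρ := by rw [hΓ]; gcongr
  have h1 : C * (2 * (S * x) * hY * (1 + C)) ≤
      C * (2 * Γ * (2 * Γ - N)) + S * (N * Γ) + C * (N * ρ) := by
    have e1 := mul_le_mul_of_nonneg_left hcs hC.le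
    have e2 := mul_le_mul_of_nonneg_left hm hC.le
    have e3 := mul_le_mul_of_nonneg_left hii hC.le
    have e4 : C * (2 * (S * x) * hY * (1 + C)) = C * (2 * (S * x) * hY) +
      C * (2 * (S * C * x * hY)) := by ring
    rw [e4]
    linarith
  have h2 : C * (2 * Γ * (2 * Γ - N)) ≤ C * (2 * (S * ρ) * (2 * Γ - N)) := by
    gcongr
  have h3 : S * (N * Γ) ≤ S * (N * (S * ρ)) := by gcongr
  have h4 : C * (2 * (S * ρ) * (2 * Γ - N)) + S * (N * (S * ρ)) + C * (N * ρ) =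
      ρ * (C * (4 * S * Γ) + N * (C * (1 - 2 * S) + S ^ 2)) := by ring
  have h5 : N * (C * (1 - 2 * S) + S ^ 2) ≤ 2 * Γ * (C * (1 - 2 * S) + S ^ 2) := by
    apply mul_le_mul_of_nonneg_right hNΓ
    have : 0 ≤ C * (1 - 2 * S) := mul_nonneg hC.le (by linarith)
    positivity
  have h6 : ρ * (C * (4 * S * Γ) + N * (C * (1 - 2 * S) + S ^ 2)) ≤
      ρ * (C * (4 * S * Γ) + 2 * Γ * (C * (1 - 2 * S) + S ^ 2)) := by gcongr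
  have h7 : ρ * (C * (4 * S * Γ) + 2 * Γ * (C * (1 - 2 * S) + S ^ 2)) =
      2 * Γ * (ρ * (C + S ^ 2)) := by ring
  have h8 : C * (2 * (S * x) * hY * (1 + C)) = 2 * Γ * (C * ((1 + C) * x)) := by
    rw [hΓ]; ring
  have h9 : 2 * Γ * (C * ((1 + C) * x)) ≤ 2 * Γ * (ρ * (C + S ^ 2)) := by linarith
  exact le_of_mul_le_mul_left h9 (by positivity)

/-- the final scalar estimate -/
lemma hb_D (C S x ρ Q yz : ℝ) (hC : 0 < C) (hS : 0 < S) (hCS : C ^ 2 + S ^ 2 = 1)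
    (h8 : 8 * S ^ 2 ≤ C ^ 2) (hx : 0 ≤ x) (hρ : 0 < ρ) (hρ2 : ρ ^ 2 = Q) (hQ : 1 ≤ Q)
    (h1 : C * ((1 + C) * x) ≤ ρ * (C + S ^ 2))
    (h2 : C ^ 2 * yz ≤ 1 - C ^ 2 * Q) :
    2 * (x ^ 2 + yz) + Q ≤ 2 := by
  have hC2 : 8 / 9 ≤ C ^ 2 := by linarith
  have hS2 : S ^ 2 ≤ 1 / 9 := by linarith
  have hCb : 0.94 ≤ C := by
    by_contra hcon
    push Not at hcon
    have : C ^ 2 < 0.94 ^ 2 := by gcongr
    norm_num at this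
    linarith
  have hX2 : 2 * x ^ 2 ≤ 3 / 4 * Q := by
    have h3 : C + S ^ 2 ≤ C * 1.12 := by linarith
    have h4 : C * ((1 + C) * x) ≤ C * (ρ * 1.12) := by
      calc C * ((1 + C) * x) ≤ ρ * (C + S ^ 2) := h1
        _ ≤ ρ * (C * 1.12) := by gcongr
        _ = C * (ρ * 1.12) := by ring
    have h5 : (1 + C) * x ≤ ρ * 1.12 := le_of_mul_le_mul_left h4 hC
    have h6 : 1.94 * x ≤ ρ * 1.12 := by
      have : 1.94 * x ≤ (1 + C) * x := by gcongr; linarith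
      linarith
    have h7 : (1.94 * x) ^ 2 ≤ (ρ * 1.12) ^ 2 := by gcongr
    rw [mul_pow, mul_pow, hρ2] at h7
    norm_num at h7
    linarith
  have hfin : C ^ 2 * (2 * yz + 7 / 4 * Q) ≤ C ^ 2 * 2 := by
    have h3 : C ^ 2 * (2 * yz + 7 / 4 * Q) ≤ 2 - C ^ 2 * Q / 4 := by linarith
    have h4 : C ^ 2 * 1 ≤ C ^ 2 * Q := by gcongr
    linarith
  have hC2p : 0 < C ^ 2 := by positivity
  have := le_of_mul_le_mul_left hfin hC2p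
  linarith

lemma hb_exp (C S X Y hX hY : ℝ) (z hz β : E) (hCS : C ^ 2 + S ^ 2 = 1)
    (t1p : (C * (Y + hY) - S * (X + hX)) ^ 2 + ‖(z + hz) + β‖ ^ 2 ≤ 1)
    (t1m : (C * (Y - hY) - S * (X - hX)) ^ 2 + ‖(z - hz) + β‖ ^ 2 ≤ 1) :
    (C * Y - S * X) ^ 2 + ‖z + β‖ ^ 2 +
      2 * |(C * Y - S * X) * (C * hY - S * hX) + ⟪z + β, hz⟫| ≤
    (C * hX + S * hY) ^ 2 - (hX ^ 2 + hY ^ 2 + ‖hz‖ ^ 2 - 1) := by
  set ip := (C * Y - S * X) * (C * hY - S * hX) + ⟪z + β, hz⟫ with hip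
  have hk : (C * hY - S * hX) ^ 2 = (hX ^ 2 + hY ^ 2) - (C * hX + S * hY) ^ 2 := by
    linear_combination (hX ^ 2 + hY ^ 2) * hCS
  have e1 : ((C * Y - S * X) ^ 2 + ‖z + β‖ ^ 2) + ((C * hY - S * hX) ^ 2 + ‖hz‖ ^ 2) +
      2 * ip ≤ 1 := by
    have : z + hz + β = (z + β) + hz := by abel
    rw [this, norm_add_sq_real] at t1p
    have h3 : (C * (Y + hY) - S * (X + hX)) ^ 2 = (C * Y - S * X) ^ 2 + (C * hY - S * hX) ^ 2 +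
      2 * ((C * Y - S * X) * (C * hY - S * hX)) := by ring
    rw [h3] at t1p
    rw [hip]; linarith
  have e2 : ((C * Y - S * X) ^ 2 + ‖z + β‖ ^ 2) + ((C * hY - S * hX) ^ 2 + ‖hz‖ ^ 2) -
      2 * ip ≤ 1 := by
    have : z - hz + β = (z + β) - hz := by abel
    rw [this, norm_sub_sq_real] at t1m
    have h3 : (C * (Y - hY) - S * (X - hX)) ^ 2 = (C * Y - S * X) ^ 2 + (C * hY - S * hX) ^ 2 -
      2 * ((C * Y - S * X) * (C * hY - S * hX)) := by ring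
    rw [h3] at t1m
    rw [hip]; linarith
  rw [hk] at e1 e2
  rcases abs_cases ip with h | h <;> rw [h.1] <;> linarith

lemma half_bound (C S X Y hX hY : ℝ) (z hz β : E) (hC : 0 < C) (hS : 0 < S)
    (hCS : C ^ 2 + S ^ 2 = 1) (h8 : 8 * S ^ 2 ≤ C ^ 2)
    (t1p : (C * (Y + hY) - S * (X + hX)) ^ 2 + ‖(z + hz) + β‖ ^ 2 ≤ 1)
    (t1m : (C * (Y - hY) - S * (X - hX)) ^ 2 + ‖(z - hz) + β‖ ^ 2 ≤ 1)
    (t2p : (C * (Y + hY) + S * (X + hX)) ^ 2 + ‖(z + hz) - β‖ ^ 2 ≤ 1)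
    (t2m : (C * (Y - hY) + S * (X - hX)) ^ 2 + ‖(z - hz) - β‖ ^ 2 ≤ 1)
    (hD : 1 ≤ hX ^ 2 + hY ^ 2 + ‖hz‖ ^ 2) (hY0 : 0 < hY) (hsw : C * |hX| < S * hY) :
    2 * (X ^ 2 + (Y ^ 2 + ‖z‖ ^ 2)) + (hX ^ 2 + hY ^ 2 + ‖hz‖ ^ 2) ≤ 2 := by
  have f1 := hb_exp C S X Y hX hY z hz β hCS t1p t1m
  have f2 := hb_exp C (-S) X Y hX hY z hz (-β) (by linarith [neg_sq S])
    (by
      rw [← sub_eq_add_neg]
      convert t2p using 3; ring)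
    (by
      rw [← sub_eq_add_neg]
      convert t2m using 3; ring)
  have g1 : C * Y - -S * X = C * Y + S * X := by ring
  have g2 : C * hY - -S * hX = C * hY + S * hX := by ring
  have g3 : (C * hX + -S * hY) ^ 2 = (S * hY - C * hX) ^ 2 := by ring
  rw [g1, g2, g3, ← sub_eq_add_neg] at f2
  obtain ⟨Q, hQ⟩ : ∃ Q, Q = hX ^ 2 + hY ^ 2 + ‖hz‖ ^ 2 := ⟨_, rfl⟩
  obtain ⟨Γ, hΓ⟩ : ∃ Γ, Γ = S * hY := ⟨_, rfl⟩
  obtain ⟨ip, hip⟩ : ∃ ip, ip = (C * Y - S * X) * (C * hY - S * hX) + ⟪z + β, hz⟫ := ⟨_, rfl⟩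
  obtain ⟨ip', hip'⟩ : ∃ ip', ip' = (C * Y + S * X) * (C * hY + S * hX) + ⟪z - β, hz⟫ := ⟨_, rfl⟩
  have hsw1 : -Γ < C * hX ∧ C * hX < Γ := by
    rw [← abs_lt, abs_mul, abs_of_pos hC, hΓ]; exact hsw
  have hΓ0 : 0 < Γ := by rw [hΓ]; positivity
  obtain ⟨μ, hμ0, hμ2⟩ : ∃ μ, 0 ≤ μ ∧ (C * Y - S * X) ^ 2 + ‖z + β‖ ^ 2 = μ ^ 2 :=
    ⟨√((C * Y - S * X) ^ 2 + ‖z + β‖ ^ 2), Real.sqrt_nonneg _, (Real.sq_sqrt (by positivity)).symm⟩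
  obtain ⟨μ', hμ0', hμ2'⟩ : ∃ μ', 0 ≤ μ' ∧ (C * Y + S * X) ^ 2 + ‖z - β‖ ^ 2 = μ' ^ 2 :=
    ⟨√((C * Y + S * X) ^ 2 + ‖z - β‖ ^ 2), Real.sqrt_nonneg _, (Real.sq_sqrt (by positivity)).symm⟩
  rw [← hip, hμ2, ← hQ] at f1
  rw [← hip', hμ2', ← hQ] at f2
  rw [← hQ] at hD ⊢
  have hγ0 : 0 < C * hX + S * hY := by rw [← hΓ]; linarith [hsw1.1]
  have hγ0' : 0 < S * hY - C * hX := by rw [← hΓ]; linarith [hsw1.2]
  have hγs : (C * hX + S * hY) + (S * hY - C * hX) = 2 * Γ := by rw [hΓ]; ring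
  have hi0 := abs_nonneg ip
  have hi0' := abs_nonneg ip'
  have hN2 := hb_A μ μ' (C * hX + S * hY) (S * hY - C * hX) (Q - 1) (by linarith) hμ0 hμ0' hγ0
    hγ0' (by linarith) (by linarith)
  rw [hγs] at hN2
  have hN0 : 0 ≤ μ + μ' := by positivity
  have hNΓ : μ + μ' ≤ 2 * Γ := leSq (by linarith) (by positivity)
  have hip2 := hb_B μ μ' _ _ Γ |ip| |ip'| hμ0 hμ0' hγ0 hγ0' hi0 hi0' (by linarith) (by linarith) hγs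
  -- (ii), (iii)
  have hmm : |(C * Y - S * X) * (C * Y + S * X) + ⟪z + β, z - β⟫| ≤ μ * μ' :=
    prod_cs _ _ μ μ' _ _ hμ0 hμ0' hμ2.le hμ2'.le
  have hin : ⟪z + β, z - β⟫ = ‖z‖ ^ 2 - ‖β‖ ^ 2 := by
    rw [inner_add_left, inner_sub_right, inner_sub_right, real_inner_self_eq_norm_sq,
      real_inner_self_eq_norm_sq, real_inner_comm β z]; ring
  have hna : ‖z + β‖ ^ 2 + ‖z - β‖ ^ 2 = 2 * ‖z‖ ^ 2 + 2 * ‖β‖ ^ 2 := by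
    rw [norm_add_sq_real, norm_sub_sq_real]; ring
  rw [hin, abs_le] at hmm
  have hN5 : (μ + μ') ^ 2 = μ ^ 2 + μ' ^ 2 + 2 * (μ * μ') := by ring
  have hii : 4 * (C ^ 2 * Y ^ 2 + ‖z‖ ^ 2) ≤ (μ + μ') ^ 2 := by
    rw [hN5, ← hμ2, ← hμ2']
    have h6 : 4 * (C ^ 2 * Y ^ 2 + ‖z‖ ^ 2) = (C * Y - S * X) ^ 2 + (C * Y + S * X) ^ 2 +
        2 * ((C * Y - S * X) * (C * Y + S * X)) +
        (‖z + β‖ ^ 2 + ‖z - β‖ ^ 2) + 2 * (‖z‖ ^ 2 - ‖β‖ ^ 2) := by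
      rw [hna]; ring
    rw [h6]
    linarith [hmm.2]
  have hiii : (2 * (S * |X|)) ^ 2 + (2 * ‖β‖) ^ 2 ≤ (μ + μ') ^ 2 := by
    rw [hN5, ← hμ2, ← hμ2']
    have h6 : (2 * (S * |X|)) ^ 2 + (2 * ‖β‖) ^ 2 = (C * Y - S * X) ^ 2 + (C * Y + S * X) ^ 2 -
        2 * ((C * Y - S * X) * (C * Y + S * X)) +
        (‖z + β‖ ^ 2 + ‖z - β‖ ^ 2) - 2 * (‖z‖ ^ 2 - ‖β‖ ^ 2) := by
      rw [hna, mul_pow, mul_pow, sq_abs]; ring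
    rw [h6]
    linarith [hmm.1]
  -- (iv)
  have hdiff : 2 * (S * C * X * hY) = (ip' - ip) - 2 * (C * S * Y * hX) + 2 * ⟪β, hz⟫ := by
    rw [hip, hip', inner_add_left, inner_sub_left]; ring
  obtain ⟨ρ, hρ0, hρ2⟩ : ∃ ρ, 0 < ρ ∧ ρ ^ 2 = Q :=
    ⟨√Q, Real.sqrt_pos.2 (by linarith), Real.sq_sqrt (by linarith)⟩
  have hYρ : hY ≤ ρ := by
    refine leSq ?_ hρ0.le
    rw [hρ2, hQ]; linarith [sq_nonneg hX, sq_nonneg ‖hz‖]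
  have hb0 := norm_nonneg β
  have hz0 := norm_nonneg hz
  have hX0 := abs_nonneg X
  have hcs2 : 2 * (S * |X|) * hY + 2 * ‖β‖ * ‖hz‖ ≤ (μ + μ') * ρ := by
    refine leSq ?_ (by positivity)
    calc (2 * (S * |X|) * hY + 2 * ‖β‖ * ‖hz‖) ^ 2
        ≤ ((2 * (S * |X|)) ^ 2 + (2 * ‖β‖) ^ 2) * (hY ^ 2 + ‖hz‖ ^ 2) := by
          linarith [sq_nonneg (2 * (S * |X|) * ‖hz‖ - 2 * ‖β‖ * hY)]
      _ ≤ (μ + μ') ^ 2 * ρ ^ 2 := by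
          apply mul_le_mul hiii _ (by positivity) (by positivity)
          rw [hρ2, hQ]; linarith [sq_nonneg hX]
      _ = ((μ + μ') * ρ) ^ 2 := by ring
  have hYb : 2 * (C * |Y|) ≤ μ + μ' := by
    refine leSq ?_ hN0
    have : (2 * (C * |Y|)) ^ 2 = 4 * (C ^ 2 * Y ^ 2) := by
      rw [mul_pow, mul_pow, sq_abs]; ring
    rw [this]; linarith [sq_nonneg ‖z‖]
  have hXb : C * |hX| ≤ Γ := by rw [hΓ]; exact hsw.le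
  have hYX : C * (2 * (C * S * |Y| * |hX|)) ≤ S * ((μ + μ') * Γ) := by
    have h1 : (2 * (C * |Y|)) * (C * |hX|) ≤ (μ + μ') * Γ :=
      mul_le_mul hYb hXb (by positivity) hN0
    calc C * (2 * (C * S * |Y| * |hX|)) = S * ((2 * (C * |Y|)) * (C * |hX|)) := by ring
      _ ≤ S * ((μ + μ') * Γ) := by gcongr
  have hm : 2 * (S * C * |X| * hY) ≤ (|ip| + |ip'|) + 2 * (C * S * |Y| * |hX|) +
      2 * ‖β‖ * ‖hz‖ := by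
    have h1 : |2 * (S * C * X * hY)| = 2 * (S * C * |X| * hY) := by
      rw [abs_mul, abs_mul, abs_mul, abs_mul, abs_two, abs_of_pos hS, abs_of_pos hC, abs_of_pos hY0]
    rw [← h1, hdiff]
    have a1 : |ip' - ip| ≤ |ip'| + |ip| := abs_sub _ _
    have a2 : |2 * (C * S * Y * hX)| = 2 * (C * S * |Y| * |hX|) := by
      rw [abs_mul, abs_mul, abs_mul, abs_mul, abs_two, abs_of_pos hS, abs_of_pos hC]
    have a3 : |2 * ⟪β, hz⟫| ≤ 2 * ‖β‖ * ‖hz‖ := by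
      rw [abs_mul, abs_two, mul_assoc]
      gcongr
      exact abs_real_inner_le_norm _ _
    have a4 := abs_add_le ((ip' - ip) - 2 * (C * S * Y * hX)) (2 * ⟪β, hz⟫)
    have a5 := abs_sub (ip' - ip) (2 * (C * S * Y * hX))
    linarith
  have hS13 : S ≤ 1 / 3 := by
    refine leSq ?_ (by norm_num)
    norm_num
    linarith
  have hfinX := hb_C C S |X| hY (μ + μ') Γ ρ ‖β‖ ‖hz‖ (|ip| + |ip'|) (2 * (C * S * |Y| * |hX|))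
    hC hS hS13 hY0 hN0 hΓ hρ0 hYρ hNΓ hcs2 hip2 hYX hm
  have hYz : C ^ 2 * (Y ^ 2 + ‖z‖ ^ 2) ≤ 1 - C ^ 2 * Q := by
    have h1 : C ^ 2 * ‖z‖ ^ 2 ≤ 1 * ‖z‖ ^ 2 := by
      gcongr
      linarith [sq_nonneg S]
    have h2 : Γ ^ 2 ≤ S ^ 2 * Q := by
      calc Γ ^ 2 ≤ (S * ρ) ^ 2 := by rw [hΓ]; gcongr
        _ = S ^ 2 * Q := by rw [mul_pow, hρ2]
    have h3 : S ^ 2 * Q = Q - C ^ 2 * Q := by linear_combination Q * hCS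
    linarith
  have := hb_D C S |X| ρ Q (Y ^ 2 + ‖z‖ ^ 2) hC hS hCS h8 hX0 hρ0 hρ2 hD hfinX hYz
  rw [sq_abs] at this
  exact this

end Pool.Agent.H122.LT
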