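import Mathlib
import Pool.Agent.H122.LT12

set_option autoImplicit false

namespace Pool.Agent.H122.LT

open Real Set
open scoped RealInnerProductSpace

variable {E : Type*} [NormedAddCommGroup E] [InnerProductSpace ℝ E]

lemma half_pair_aux (C S X1 X2 Y1 Y2 : ℝ) (z1 z2 β : E) (hC : 0 < C) (hS : 0 < S)
    (hCS : C ^ 2 + S ^ 2 = 1) (h8 : 8 * S ^ 2 ≤ C ^ 2)
    (t11 : (C * Y1 - S * X1) ^ 2 + ‖z1 + β‖ ^ 2 ≤ 1)
    (t12 : (C * Y2 - S * X2) ^ 2 + ‖z2 + β‖ ^ 2 ≤ 1)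
    (t21 : (C * Y1 + S * X1) ^ 2 + ‖z1 - β‖ ^ 2 ≤ 1)
    (t22 : (C * Y2 + S * X2) ^ 2 + ‖z2 - β‖ ^ 2 ≤ 1)
    (hD : 4 < (X1 - X2) ^ 2 + (Y1 - Y2) ^ 2 + ‖z1 - z2‖ ^ 2) (hY : Y1 < Y2)
    (hsw : C ^ 2 * (X2 - X1) ^ 2 < S ^ 2 * (Y2 - Y1) ^ 2) :
    2 * ((X1 + X2) ^ 2 + (Y1 + Y2) ^ 2 + ‖z1 + z2‖ ^ 2) +
      ((X1 - X2) ^ 2 + (Y1 - Y2) ^ 2 + ‖z1 - z2‖ ^ 2) ≤ 8 := by
  have e1 : (1 / 2 : ℝ) • (z1 + z2) + (1 / 2 : ℝ) • (z2 - z1) = z2 := by module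
  have e2 : (1 / 2 : ℝ) • (z1 + z2) - (1 / 2 : ℝ) • (z2 - z1) = z1 := by module
  have n1 : ‖(1 / 2 : ℝ) • (z1 + z2)‖ ^ 2 = ‖z1 + z2‖ ^ 2 / 4 := by
    rw [norm_smul, mul_pow]; norm_num; ring
  have n2 : ‖(1 / 2 : ℝ) • (z2 - z1)‖ ^ 2 = ‖z1 - z2‖ ^ 2 / 4 := by
    rw [norm_smul, mul_pow, norm_sub_rev]; norm_num; ring
  have h := half_bound C S ((X1 + X2) / 2) ((Y1 + Y2) / 2) ((X2 - X1) / 2) ((Y2 - Y1) / 2)
    ((1 / 2 : ℝ) • (z1 + z2)) ((1 / 2 : ℝ) • (z2 - z1)) β hC hS hCS h8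
    (by
      rw [e1]
      have : C * ((Y1 + Y2) / 2 + (Y2 - Y1) / 2) - S * ((X1 + X2) / 2 + (X2 - X1) / 2) =
        C * Y2 - S * X2 := by ring
      rw [this]; exact t12)
    (by
      rw [e2]
      have : C * ((Y1 + Y2) / 2 - (Y2 - Y1) / 2) - S * ((X1 + X2) / 2 - (X2 - X1) / 2) =
        C * Y1 - S * X1 := by ring
      rw [this]; exact t11)
    (by
      rw [e1]
      have : C * ((Y1 + Y2) / 2 + (Y2 - Y1) / 2) + S * ((X1 + X2) / 2 + (X2 - X1) / 2) =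
        C * Y2 + S * X2 := by ring
      rw [this]; exact t22)
    (by
      rw [e2]
      have : C * ((Y1 + Y2) / 2 - (Y2 - Y1) / 2) + S * ((X1 + X2) / 2 - (X2 - X1) / 2) =
        C * Y1 + S * X1 := by ring
      rw [this]; exact t21)
    (by rw [n2]; linarith)
    (by linarith)
    (by
      have h1 : (C * |(X2 - X1) / 2|) ^ 2 < (S * ((Y2 - Y1) / 2)) ^ 2 := by
        rw [mul_pow, sq_abs, mul_pow]; linarith
      exact lt_of_pow_lt_pow_left₀ 2 (mul_nonneg hS.le (by linarith)) h1)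
  rw [n1, n2] at h
  linarith

lemma half_pair (C S X1 X2 Y1 Y2 : ℝ) (z1 z2 β : E) (hC : 0 < C) (hS : 0 < S)
    (hCS : C ^ 2 + S ^ 2 = 1) (h8 : 8 * S ^ 2 ≤ C ^ 2)
    (t11 : (C * Y1 - S * X1) ^ 2 + ‖z1 + β‖ ^ 2 ≤ 1)
    (t12 : (C * Y2 - S * X2) ^ 2 + ‖z2 + β‖ ^ 2 ≤ 1)
    (t21 : (C * Y1 + S * X1) ^ 2 + ‖z1 - β‖ ^ 2 ≤ 1)
    (t22 : (C * Y2 + S * X2) ^ 2 + ‖z2 - β‖ ^ 2 ≤ 1)
    (hD : 4 < (X1 - X2) ^ 2 + (Y1 - Y2) ^ 2 + ‖z1 - z2‖ ^ 2)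
    (hsw : C ^ 2 * (X2 - X1) ^ 2 < S ^ 2 * (Y2 - Y1) ^ 2) :
    2 * ((X1 + X2) ^ 2 + (Y1 + Y2) ^ 2 + ‖z1 + z2‖ ^ 2) +
      ((X1 - X2) ^ 2 + (Y1 - Y2) ^ 2 + ‖z1 - z2‖ ^ 2) ≤ 8 := by
  rcases lt_trichotomy Y1 Y2 with h | h | h
  · exact half_pair_aux C S X1 X2 Y1 Y2 z1 z2 β hC hS hCS h8 t11 t12 t21 t22 hD h hsw
  · rw [h, sub_self] at hsw
    have : 0 ≤ C ^ 2 * (X2 - X1) ^ 2 := by positivity
    linarith
  · have hr := norm_sub_rev z1 z2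
    have := half_pair_aux C S X2 X1 Y2 Y1 z2 z1 β hC hS hCS h8 t12 t11 t22 t21
      (by rw [← hr]; linarith) h (by linarith)
    rw [← hr, add_comm z2 z1] at this
    linarith

/-- two disjoint swapped pairs are impossible (general dimension) -/
lemma disj_gen (C S : ℝ) (X Y : E → ℝ) (Z : E → E) (β : E) (F : Finset E)
    (hC : 0 < C) (hS : 0 < S)
    (hCS : C ^ 2 + S ^ 2 = 1) (h8 : 8 * S ^ 2 ≤ C ^ 2)
    (t1 : ∀ c ∈ F, (C * Y c - S * X c) ^ 2 + ‖Z c + β‖ ^ 2 ≤ 1)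
    (t2 : ∀ c ∈ F, (C * Y c + S * X c) ^ 2 + ‖Z c - β‖ ^ 2 ≤ 1)
    (hD : ∀ c ∈ F, ∀ d ∈ F, c ≠ d → 4 < (X c - X d) ^ 2 + (Y c - Y d) ^ 2 + ‖Z c - Z d‖ ^ 2)
    (a b c d : E) (ha : a ∈ F) (hb : b ∈ F) (hc : c ∈ F) (hd : d ∈ F)
    (hab : a ≠ b) (hcd : c ≠ d) (hac : a ≠ c) (had : a ≠ d) (hbc : b ≠ c) (hbd : b ≠ d)
    (h1 : C ^ 2 * (X b - X a) ^ 2 < S ^ 2 * (Y b - Y a) ^ 2)
    (h2 : C ^ 2 * (X d - X c) ^ 2 < S ^ 2 * (Y d - Y c) ^ 2) : False := by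
  have k1 := half_pair C S (X a) (X b) (Y a) (Y b) (Z a) (Z b) β hC hS hCS h8 (t1 a ha) (t1 b hb)
    (t2 a ha) (t2 b hb) (hD a ha b hb hab) h1
  have k2 := half_pair C S (X c) (X d) (Y c) (Y d) (Z c) (Z d) β hC hS hCS h8 (t1 c hc) (t1 d hd)
    (t2 c hc) (t2 d hd) (hD c hc d hd hcd) h2
  have l1 := hD a ha c hc hac
  have l2 := hD a ha d hd had
  have l3 := hD b hb c hc hbc
  have l4 := hD b hb d hd hbd
  have idr : ∀ x y z w : ℝ, (x - z) ^ 2 + (x - w) ^ 2 + (y - z) ^ 2 + (y - w) ^ 2 ≤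
      2 * (x + y) ^ 2 + 2 * (z + w) ^ 2 + (x - y) ^ 2 + (z - w) ^ 2 := by
    intro x y z w
    nlinarith [sq_nonneg (x + y + z + w)]
  have idv : ‖Z a - Z c‖ ^ 2 + ‖Z a - Z d‖ ^ 2 + ‖Z b - Z c‖ ^ 2 + ‖Z b - Z d‖ ^ 2 ≤
      2 * ‖Z a + Z b‖ ^ 2 + 2 * ‖Z c + Z d‖ ^ 2 + ‖Z a - Z b‖ ^ 2 + ‖Z c - Z d‖ ^ 2 := by
    have h0 : 0 ≤ ‖Z a + Z b + (Z c + Z d)‖ ^ 2 := by positivity
    rw [norm_add_sq_real] at h0
    simp only [norm_add_sq_real, norm_sub_sq_real, inner_add_left, inner_add_right] at h0 ⊢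
    linarith
  have i1 := idr (X a) (X b) (X c) (X d)
  have i2 := idr (Y a) (Y b) (Y c) (Y d)
  linarith

/-- a swapped fork is impossible (general dimension) -/
lemma fork (p u i j k : E) (hu : ‖u‖ = 1)
    (hi : ‖xx p u i‖ ≤ 1) (hj : ‖xx p u j‖ ≤ 1) (hk : ‖xx p u k‖ ≤ 1)
    (hij : 2 < dist i j) (hik : 2 < dist i k)
    (hs : 0 < ⟪u, j - i⟫ * ⟪u, k - i⟫) :
    dist j k ^ 2 < 2 * ⟪u, j - i⟫ ^ 2 + 2 * ⟪u, k - i⟫ ^ 2 := by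
  have h1 := add_lt p u i j hu 1 le_rfl hi hj hij
  have h2 := add_lt p u i k hu 1 le_rfl hi hk hik
  have h3 := dist_sq_eq p u j k hu
  have h4 : ‖xx p u i + xx p u j‖ < |⟪u, j - i⟫| := by
    rw [← sq_abs ⟪u, j - i⟫] at h1
    exact lt_of_pow_lt_pow_left₀ 2 (abs_nonneg _) h1
  have h5 : ‖xx p u i + xx p u k‖ < |⟪u, k - i⟫| := by
    rw [← sq_abs ⟪u, k - i⟫] at h2
    exact lt_of_pow_lt_pow_left₀ 2 (abs_nonneg _) h2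
  have h6 : ‖xx p u j - xx p u k‖ ≤ ‖xx p u i + xx p u j‖ + ‖xx p u i + xx p u k‖ := by
    have : xx p u j - xx p u k = (xx p u i + xx p u j) - (xx p u i + xx p u k) := by abel
    rw [this]
    exact norm_sub_le _ _
  have h7 : ‖xx p u j - xx p u k‖ ^ 2 < (|⟪u, j - i⟫| + |⟪u, k - i⟫|) ^ 2 := by
    have := norm_nonneg (xx p u j - xx p u k)
    gcongr
    linarith
  have h8 : ⟪u, j - k⟫ = ⟪u, j - i⟫ - ⟪u, k - i⟫ := by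
    rw [← inner_sub_right]; congr 1; abel
  have h9 : |⟪u, j - i⟫| * |⟪u, k - i⟫| = ⟪u, j - i⟫ * ⟪u, k - i⟫ := by
    rw [← abs_mul, abs_of_pos hs]
  rw [h3, h8]
  have h10 := sq_abs ⟪u, j - i⟫
  have h11 := sq_abs ⟪u, k - i⟫
  nlinarith

/-- combinatorial reduction of the lemma on swapped pairs -/
lemma reduce (C S : ℝ) (X Y : E → ℝ) (F : Finset E) (hC : 0 < C) (hS : 0 < S)
    (Sh : ∀ i ∈ F, ∀ j ∈ F, ∀ k ∈ F, i ≠ j → i ≠ k → j ≠ k →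
      C ^ 2 * (X j - X i) ^ 2 < S ^ 2 * (Y j - Y i) ^ 2 →
      C ^ 2 * (X k - X i) ^ 2 < S ^ 2 * (Y k - Y i) ^ 2 → 0 < (Y j - Y i) * (Y k - Y i) → False)
    (Dj : ∀ a b c d : E, a ∈ F → b ∈ F → c ∈ F → d ∈ F → a ≠ b → c ≠ d → a ≠ c → a ≠ d →
      b ≠ c → b ≠ d → C ^ 2 * (X b - X a) ^ 2 < S ^ 2 * (Y b - Y a) ^ 2 →
      C ^ 2 * (X d - X c) ^ 2 < S ^ 2 * (Y d - Y c) ^ 2 → False)
    (a b c d : E) (ha : a ∈ F) (hb : b ∈ F) (hc : c ∈ F) (hd : d ∈ F)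
    (h1 : C ^ 2 * (X b - X a) ^ 2 < S ^ 2 * (Y b - Y a) ^ 2)
    (h2 : C ^ 2 * (X d - X c) ^ 2 < S ^ 2 * (Y d - Y c) ^ 2) :
    (a = c ∧ b = d) ∨ (a = d ∧ b = c) := by
  have hne : ∀ a b : E, C ^ 2 * (X b - X a) ^ 2 < S ^ 2 * (Y b - Y a) ^ 2 → a ≠ b := by
    rintro a b h rfl; simp at h
  have hneY : ∀ a b : E, C ^ 2 * (X b - X a) ^ 2 < S ^ 2 * (Y b - Y a) ^ 2 → Y b - Y a ≠ 0 := by
    intro a b h h0
    rw [h0] at h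
    have : 0 ≤ C ^ 2 * (X b - X a) ^ 2 := by positivity
    simp at h
    linarith
  have hsym : ∀ a b : E, C ^ 2 * (X b - X a) ^ 2 < S ^ 2 * (Y b - Y a) ^ 2 →
      C ^ 2 * (X a - X b) ^ 2 < S ^ 2 * (Y a - Y b) ^ 2 := by
    intro a b h
    linarith
  have habs : ∀ a b : E, C ^ 2 * (X b - X a) ^ 2 < S ^ 2 * (Y b - Y a) ^ 2 →
      C * |X b - X a| < S * |Y b - Y a| := by
    intro a b h
    have : (C * |X b - X a|) ^ 2 < (S * |Y b - Y a|) ^ 2 := by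
      rw [mul_pow, mul_pow, sq_abs, sq_abs]; exact h
    exact lt_of_pow_lt_pow_left₀ 2 (by positivity) this
  have htrans : ∀ i j k : E, Y k < Y i → Y i < Y j →
      C ^ 2 * (X j - X i) ^ 2 < S ^ 2 * (Y j - Y i) ^ 2 →
      C ^ 2 * (X i - X k) ^ 2 < S ^ 2 * (Y i - Y k) ^ 2 →
      C ^ 2 * (X j - X k) ^ 2 < S ^ 2 * (Y j - Y k) ^ 2 := by
    intro i j k h1 h2 h3 h4
    have e1 := habs _ _ h3
    have e2 := habs _ _ h4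
    rw [abs_of_pos (sub_pos.2 h2)] at e1
    rw [abs_of_pos (sub_pos.2 h1)] at e2
    have e3 : C * |X j - X k| < S * (Y j - Y k) := by
      have : |X j - X k| ≤ |X j - X i| + |X i - X k| := abs_sub_le _ _ _
      have := mul_le_mul_of_nonneg_left this hC.le
      linarith
    have e4 : (C * |X j - X k|) ^ 2 < (S * (Y j - Y k)) ^ 2 := by
      have := abs_nonneg (X j - X k)
      gcongr
    rw [mul_pow, mul_pow, sq_abs] at e4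
    exact e4
  -- a swapped fork is impossible
  have hfork : ∀ i ∈ F, ∀ j ∈ F, ∀ k ∈ F, j ≠ k →
      C ^ 2 * (X j - X i) ^ 2 < S ^ 2 * (Y j - Y i) ^ 2 →
      C ^ 2 * (X k - X i) ^ 2 < S ^ 2 * (Y k - Y i) ^ 2 → False := by
    intro i hi j hj k hk hjk h3 h4
    have nij := hne _ _ h3
    have nik := hne _ _ h4
    rcases lt_or_gt_of_ne (hneY _ _ h3) with s1 | s1 <;>
      rcases lt_or_gt_of_ne (hneY _ _ h4) with s2 | s2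
    · exact Sh i hi j hj k hk nij nik hjk h3 h4 (mul_pos_of_neg_of_neg s1 s2)
    · -- Y j < Y i < Y k
      have h5 := htrans i k j (by linarith) (by linarith) h4 (hsym _ _ h3)
      exact Sh j hj i hi k hk nij.symm hjk nik (hsym _ _ h3) h5
        (mul_pos (by linarith) (by linarith))
    · have h5 := htrans i j k (by linarith) (by linarith) h3 (hsym _ _ h4)
      exact Sh k hk i hi j hj nik.symm hjk.symm nij (hsym _ _ h4) h5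
        (mul_pos (by linarith) (by linarith))
    · exact Sh i hi j hj k hk nij nik hjk h3 h4 (mul_pos s1 s2)
  by_cases hac : a = c
  · subst hac
    by_cases hbd : b = d
    · exact Or.inl ⟨rfl, hbd⟩
    · exact (hfork a ha b hb d hd hbd h1 h2).elim
  by_cases had : a = d
  · subst had
    by_cases hbc : b = c
    · exact Or.inr ⟨rfl, hbc⟩
    · exact (hfork a ha b hb c hc hbc h1 (hsym _ _ h2)).elim
  by_cases hbc : b = c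
  · subst hbc
    exact (hfork b hb a ha d hd had (hsym _ _ h1) h2).elim
  by_cases hbd : b = d
  · subst hbd
    exact (hfork b hb a ha c hc hac (hsym _ _ h1) (hsym _ _ h2)).elim
  exact (Dj a b c d ha hb hc hd (hne _ _ h1) (hne _ _ h2) hac had hbc hbd h1 h2).elim

end Pool.Agent.H122.LT
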