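import Mathlib
import Pool.Agent.H122.LT13

set_option autoImplicit false

namespace Pool.Agent.H122.LT

open Real Set
open scoped RealInnerProductSpace

variable {E : Type*} [NormedAddCommGroup E] [InnerProductSpace ℝ E]

lemma rhombus (C S X Y : ℝ) (hC : 0 < C) (hS : 0 < S)
    (h1 : (C * Y - S * X) ^ 2 ≤ 1) (h2 : (C * Y + S * X) ^ 2 ≤ 1) :
    S * |X| + C * |Y| ≤ 1 := by
  have k1 := abs_le_one_iff_mul_self_le_one.2 (by linarith : (C * Y - S * X) *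
    (C * Y - S * X) ≤ 1)
  have k2 := abs_le_one_iff_mul_self_le_one.2 (by linarith : (C * Y + S * X) *
    (C * Y + S * X) ≤ 1)
  rw [abs_le] at k1 k2
  rcases abs_cases X with h | h <;> rcases abs_cases Y with h' | h' <;> rw [h.1, h'.1] <;>
    linarith [k1.1, k1.2, k2.1, k2.2]

lemma rhombus2 (C S X1 Y1 X2 Y2 : ℝ) (hC : 0 < C) (hS : 0 < S)
    (h1 : S * |X1| + C * |Y1| ≤ 1) (h2 : S * |X2| + C * |Y2| ≤ 1) :
    S * |X1 - X2| + C * |Y1 - Y2| ≤ 2 := by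
  have a1 : |X1 - X2| ≤ |X1| + |X2| := abs_sub _ _
  have a2 : |Y1 - Y2| ≤ |Y1| + |Y2| := abs_sub _ _
  have a3 := mul_le_mul_of_nonneg_left a1 hS.le
  have a4 := mul_le_mul_of_nonneg_left a2 hC.le
  linarith

lemma tall (C S x y : ℝ) (hC : 0 < C) (hCS : C ^ 2 + S ^ 2 = 1)
    (hD : 4 < x ^ 2 + y ^ 2) (hy : 0 < y)
    (hsw : C ^ 2 * x ^ 2 < S ^ 2 * y ^ 2) : 2 * C < y := by
  have h1 : C ^ 2 * 4 < C ^ 2 * (x ^ 2 + y ^ 2) := by gcongr
  have h2 : (2 * C) ^ 2 < y ^ 2 := by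
    have : y ^ 2 = C ^ 2 * y ^ 2 + S ^ 2 * y ^ 2 := by linear_combination (-y ^ 2) * hCS
    rw [this]; linarith
  exact lt_of_pow_lt_pow_left₀ 2 hy.le h2

/-- planar fork -/
lemma planar_fork_aux (C S x y x' y' : ℝ) (hC : 0 < C) (hS : 0 < S) (hCS : C ^ 2 + S ^ 2 = 1)
    (h3 : 3 * S ^ 2 < C ^ 2)
    (r1 : S * |x| + C * |y| ≤ 2) (r2 : S * |x'| + C * |y'| ≤ 2) (hy : 0 < y) (hy' : 0 < y')
    (d1 : 4 < x ^ 2 + y ^ 2) (d2 : 4 < x' ^ 2 + y' ^ 2)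
    (s1 : C ^ 2 * x ^ 2 < S ^ 2 * y ^ 2) (s2 : C ^ 2 * x' ^ 2 < S ^ 2 * y' ^ 2)
    (hle : y' ≤ y) : (x - x') ^ 2 + (y - y') ^ 2 < 4 := by
  have t1 := tall C S x y hC hCS d1 hy s1
  have t2 := tall C S x' y' hC hCS d2 hy' s2
  rw [abs_of_pos hy] at r1
  rw [abs_of_pos hy'] at r2
  have b1 : S * |x| < S * (2 * S) := by
    have := mul_lt_mul_of_pos_left t1 hC
    linarith
  have b2 : S * |x'| < S * (2 * S) := by
    have := mul_lt_mul_of_pos_left t2 hC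
    linarith
  have c1 : |x| < 2 * S := lt_of_mul_lt_mul_left b1 hS.le
  have c2 : |x'| < 2 * S := lt_of_mul_lt_mul_left b2 hS.le
  have e1 : C * (y - y') < S * (2 * S - |x|) := by
    have := mul_lt_mul_of_pos_left t2 hC
    linarith
  have hx0 := abs_nonneg x
  have e2 : (C * (y - y')) ^ 2 ≤ (S * (2 * S - |x|)) ^ 2 := by
    have : 0 ≤ C * (y - y') := mul_nonneg hC.le (by linarith)
    gcongr
  have e3 : |x - x'| ≤ |x| + 2 * S := by
    have := abs_sub x x'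
    linarith
  have e4 : (x - x') ^ 2 ≤ (|x| + 2 * S) ^ 2 := by
    rw [← sq_abs (x - x')]
    have := abs_nonneg (x - x')
    gcongr
  have e5 : C ^ 2 * (x - x') ^ 2 ≤ C ^ 2 * (|x| + 2 * S) ^ 2 := by gcongr
  have e6 : (S * (2 * S - |x|)) ^ 2 ≤ C ^ 2 * (2 * S - |x|) ^ 2 := by
    rw [mul_pow]
    have : S ^ 2 ≤ C ^ 2 := by linarith [sq_nonneg S]
    exact mul_le_mul_of_nonneg_right this (sq_nonneg _)
  have e7 : C ^ 2 * ((|x| + 2 * S) ^ 2 + (2 * S - |x|) ^ 2) < C ^ 2 * 4 := by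
    have hC2 : 0 < C ^ 2 := by positivity
    apply mul_lt_mul_of_pos_left _ hC2
    have : |x| ^ 2 ≤ (2 * S) ^ 2 := by gcongr
    have e8 : (|x| + 2 * S) ^ 2 + (2 * S - |x|) ^ 2 = 2 * |x| ^ 2 + 8 * S ^ 2 := by ring
    rw [e8]
    have e9 : (2 * S) ^ 2 = 4 * S ^ 2 := by ring
    rw [e9] at this
    linarith
  have e10 : C ^ 2 * ((x - x') ^ 2 + (y - y') ^ 2) < C ^ 2 * 4 := by
    have : C ^ 2 * ((x - x') ^ 2 + (y - y') ^ 2) = C ^ 2 * (x - x') ^ 2 + (C * (y - y')) ^ 2 := by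
      ring
    rw [this]
    linarith
  exact lt_of_mul_lt_mul_left e10 (by positivity)

lemma planar_fork (C S x y x' y' : ℝ) (hC : 0 < C) (hS : 0 < S) (hCS : C ^ 2 + S ^ 2 = 1)
    (h3 : 3 * S ^ 2 < C ^ 2)
    (r1 : S * |x| + C * |y| ≤ 2) (r2 : S * |x'| + C * |y'| ≤ 2)
    (d1 : 4 < x ^ 2 + y ^ 2) (d2 : 4 < x' ^ 2 + y' ^ 2)
    (s1 : C ^ 2 * x ^ 2 < S ^ 2 * y ^ 2) (s2 : C ^ 2 * x' ^ 2 < S ^ 2 * y' ^ 2)
    (hyy : 0 < y * y') : (x - x') ^ 2 + (y - y') ^ 2 < 4 := by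
  rcases pos_and_pos_or_neg_and_neg_of_mul_pos hyy with ⟨hy, hy'⟩ | ⟨hy, hy'⟩
  · rcases le_total y' y with h | h
    · exact planar_fork_aux C S x y x' y' hC hS hCS h3 r1 r2 hy hy' d1 d2 s1 s2 h
    · have := planar_fork_aux C S x' y' x y hC hS hCS h3 r2 r1 hy' hy d2 d1 s2 s1 h
      linarith
  · have r1' : S * |-x| + C * |-y| ≤ 2 := by rw [abs_neg, abs_neg]; exact r1
    have r2' : S * |-x'| + C * |-y'| ≤ 2 := by rw [abs_neg, abs_neg]; exact r2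
    rcases le_total (-y') (-y) with h | h
    · have := planar_fork_aux C S (-x) (-y) (-x') (-y') hC hS hCS h3 r1' r2' (by linarith)
        (by linarith) (by linarith) (by linarith) (by linarith) (by linarith) h
      linarith
    · have := planar_fork_aux C S (-x') (-y') (-x) (-y) hC hS hCS h3 r2' r1' (by linarith)
        (by linarith) (by linarith) (by linarith) (by linarith) (by linarith) h
      linarith

/-- tops (or bottoms) of two swapped planar pairs are close -/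
lemma planar_close (C S X2 X4 Y2 Y4 : ℝ) (hC : 0 < C) (hS : 0 < S) (hCS : C ^ 2 + S ^ 2 = 1)
    (h3 : 3 * S ^ 2 < C ^ 2) (hx : |X2| + |X4| < 2 * S) (hy : C * |Y2 - Y4| < 2 * S ^ 2) :
    (X2 - X4) ^ 2 + (Y2 - Y4) ^ 2 < 4 := by
  have e1 : |X2 - X4| < 2 * S := (abs_sub _ _).trans_lt hx
  have e2 : (X2 - X4) ^ 2 < (2 * S) ^ 2 := by
    rw [← sq_abs (X2 - X4)]
    have := abs_nonneg (X2 - X4)
    gcongr
  have e3 : (C * |Y2 - Y4|) ^ 2 < (2 * S ^ 2) ^ 2 := by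
    have := abs_nonneg (Y2 - Y4)
    gcongr
  rw [mul_pow, sq_abs] at e3
  have hC2 : 0 < C ^ 2 := by positivity
  have e4 : C ^ 2 * (X2 - X4) ^ 2 < C ^ 2 * (2 * S) ^ 2 := mul_lt_mul_of_pos_left e2 hC2
  have e5 : C ^ 2 * ((X2 - X4) ^ 2 + (Y2 - Y4) ^ 2) < C ^ 2 * 4 := by
    have : C ^ 2 * (2 * S) ^ 2 + (2 * S ^ 2) ^ 2 = 4 * S ^ 2 := by
      linear_combination (4 * S ^ 2) * hCS
    linarith
  exact lt_of_mul_lt_mul_left e5 hC2.le

lemma planar_disj_aux (C S X1 X2 X3 X4 Y1 Y2 Y3 Y4 : ℝ) (hC : 0 < C) (hS : 0 < S)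
    (hCS : C ^ 2 + S ^ 2 = 1) (h3 : 3 * S ^ 2 < C ^ 2)
    (r1 : S * |X1| + C * |Y1| ≤ 1) (r2 : S * |X2| + C * |Y2| ≤ 1)
    (r3 : S * |X3| + C * |Y3| ≤ 1) (r4 : S * |X4| + C * |Y4| ≤ 1)
    (d12 : 4 < (X2 - X1) ^ 2 + (Y2 - Y1) ^ 2) (d34 : 4 < (X4 - X3) ^ 2 + (Y4 - Y3) ^ 2)
    (d13 : 4 < (X1 - X3) ^ 2 + (Y1 - Y3) ^ 2) (d24 : 4 < (X2 - X4) ^ 2 + (Y2 - Y4) ^ 2)
    (h12 : Y1 < Y2) (h34 : Y3 < Y4)
    (s1 : C ^ 2 * (X2 - X1) ^ 2 < S ^ 2 * (Y2 - Y1) ^ 2)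
    (s2 : C ^ 2 * (X4 - X3) ^ 2 < S ^ 2 * (Y4 - Y3) ^ 2) : False := by
  have t1 := mul_lt_mul_of_pos_left (tall C S _ _ hC hCS d12 (by linarith) s1) hC
  have t2 := mul_lt_mul_of_pos_left (tall C S _ _ hC hCS d34 (by linarith) s2) hC
  have p1 := mul_le_mul_of_nonneg_left (neg_abs_le Y1) hC.le
  have p2 := mul_le_mul_of_nonneg_left (le_abs_self Y2) hC.le
  have p3 := mul_le_mul_of_nonneg_left (neg_abs_le Y3) hC.le
  have p4 := mul_le_mul_of_nonneg_left (le_abs_self Y4) hC.le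
  have q1 := mul_nonneg hS.le (abs_nonneg X1)
  have q2 := mul_nonneg hS.le (abs_nonneg X2)
  have q3 := mul_nonneg hS.le (abs_nonneg X3)
  have q4 := mul_nonneg hS.le (abs_nonneg X4)
  have u1 : S * (|X1| + |X2|) < S * (2 * S) := by linarith
  have u2 : S * (|X3| + |X4|) < S * (2 * S) := by linarith
  have v1 := lt_of_mul_lt_mul_left u1 hS.le
  have v2 := lt_of_mul_lt_mul_left u2 hS.le
  have w24 : C * |Y2 - Y4| < 2 * S ^ 2 := by
    rcases abs_cases (Y2 - Y4) with h | h <;> rw [h.1] <;> linarith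
  have w13 : C * |Y1 - Y3| < 2 * S ^ 2 := by
    rcases abs_cases (Y1 - Y3) with h | h <;> rw [h.1] <;> linarith
  rcases lt_or_ge (|X2| + |X4|) (2 * S) with h | h
  · have := planar_close C S X2 X4 Y2 Y4 hC hS hCS h3 h w24
    linarith
  · have := planar_close C S X1 X3 Y1 Y3 hC hS hCS h3 (by linarith) w13
    linarith

lemma planar_disj (C S X1 X2 X3 X4 Y1 Y2 Y3 Y4 : ℝ) (hC : 0 < C) (hS : 0 < S)
    (hCS : C ^ 2 + S ^ 2 = 1) (h3 : 3 * S ^ 2 < C ^ 2)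
    (r1 : S * |X1| + C * |Y1| ≤ 1) (r2 : S * |X2| + C * |Y2| ≤ 1)
    (r3 : S * |X3| + C * |Y3| ≤ 1) (r4 : S * |X4| + C * |Y4| ≤ 1)
    (d12 : 4 < (X1 - X2) ^ 2 + (Y1 - Y2) ^ 2) (d34 : 4 < (X3 - X4) ^ 2 + (Y3 - Y4) ^ 2)
    (d13 : 4 < (X1 - X3) ^ 2 + (Y1 - Y3) ^ 2) (d24 : 4 < (X2 - X4) ^ 2 + (Y2 - Y4) ^ 2)
    (d14 : 4 < (X1 - X4) ^ 2 + (Y1 - Y4) ^ 2) (d23 : 4 < (X2 - X3) ^ 2 + (Y2 - Y3) ^ 2)
    (s1 : C ^ 2 * (X2 - X1) ^ 2 < S ^ 2 * (Y2 - Y1) ^ 2)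
    (s2 : C ^ 2 * (X4 - X3) ^ 2 < S ^ 2 * (Y4 - Y3) ^ 2) : False := by
  have n1 : Y1 ≠ Y2 := by
    rintro rfl
    rw [sub_self] at s1
    have : 0 ≤ C ^ 2 * (X2 - X1) ^ 2 := by positivity
    linarith
  have n2 : Y3 ≠ Y4 := by
    rintro rfl
    rw [sub_self] at s2
    have : 0 ≤ C ^ 2 * (X4 - X3) ^ 2 := by positivity
    linarith
  rcases lt_or_gt_of_ne n1 with h1 | h1 <;> rcases lt_or_gt_of_ne n2 with h2 | h2
  · exact planar_disj_aux C S X1 X2 X3 X4 Y1 Y2 Y3 Y4 hC hS hCS h3 r1 r2 r3 r4 (by linarith)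
      (by linarith) d13 d24 h1 h2 s1 s2
  · exact planar_disj_aux C S X1 X2 X4 X3 Y1 Y2 Y4 Y3 hC hS hCS h3 r1 r2 r4 r3 (by linarith)
      (by linarith) d14 d23 h1 h2 s1 (by linarith)
  · exact planar_disj_aux C S X2 X1 X3 X4 Y2 Y1 Y3 Y4 hC hS hCS h3 r2 r1 r3 r4 (by linarith)
      (by linarith) d23 d14 h1 h2 (by linarith) s2
  · exact planar_disj_aux C S X2 X1 X4 X3 Y2 Y1 Y4 Y3 hC hS hCS h3 r2 r1 r4 r3 (by linarith)
      (by linarith) d24 d13 h1 h2 (by linarith) (by linarith)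

/-- Two transversals of many disjoint unit balls have at most one swapped pair and make a small
angle. -/
theorem lemmaS (F : Finset E) (p u p' u' : E) (hu : ‖u‖ = 1) (hu' : ‖u'‖ = 1)
    (hc0 : 0 ≤ ⟪u, u'⟫)
    (hS : ∀ c ∈ F, ∀ d ∈ F, c ≠ d → 2 < dist c d)
    (h1 : ∀ c ∈ F, ‖xx p u c‖ ≤ 1)
    (h2 : ∀ c ∈ F, ‖xx p' u' c‖ ≤ 1)
    (hcard : 9 ≤ F.card ∨ (Module.finrank ℝ E = 2 ∧ 5 ≤ F.card)) :
    (∀ a ∈ F, ∀ b ∈ F, ∀ c ∈ F, ∀ d ∈ F, ⟪u, b - a⟫ * ⟪u', b - a⟫ < 0 →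
      ⟪u, d - c⟫ * ⟪u', d - c⟫ < 0 → (a = c ∧ b = d) ∨ (a = d ∧ b = c)) ∧ 1 / 2 < ⟪u, u'⟫ := by
  classical
  have hle : ⟪u, u'⟫ ≤ 1 := by
    have := real_inner_le_norm u u'
    rwa [hu, hu', mul_one] at this
  rcases eq_or_lt_of_le hle with heq | hlt
  · -- equal directions
    have huu : u = u' := by
      have h3 : ‖u - u'‖ ^ 2 = 0 := by
        rw [norm_sub_sq_real, hu, hu', heq]; norm_num
      have h4 : u - u' = 0 := norm_eq_zero.1 (by simpa using h3)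
      exact sub_eq_zero.1 h4
    refine ⟨fun a _ b _ c _ d _ h => ?_, by rw [heq]; norm_num⟩
    rw [← huu] at h
    exact absurd h (not_lt.2 (mul_self_nonneg _))
  obtain ⟨C, S, X, Y, Z, β, hC, hSp, hCS, hcs0, hx1, hx2, hdist, hi1, hi2, hplan⟩ :=
    coords p u p' u' hu hu' hlt (by linarith)
  have hsq : ∀ z : ℝ, 0 ≤ z → z ≤ 1 → z ^ 2 ≤ 1 := fun z h0 h => by nlinarith
  have t1 : ∀ c ∈ F, (C * Y c - S * X c) ^ 2 + ‖Z c + β‖ ^ 2 ≤ 1 := by
    intro c hc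
    rw [← hx1]; exact hsq _ (norm_nonneg _) (h1 c hc)
  have t2 : ∀ c ∈ F, (C * Y c + S * X c) ^ 2 + ‖Z c - β‖ ^ 2 ≤ 1 := by
    intro c hc
    rw [← hx2]; exact hsq _ (norm_nonneg _) (h2 c hc)
  have hD : ∀ c ∈ F, ∀ d ∈ F, c ≠ d →
      4 < (X c - X d) ^ 2 + (Y c - Y d) ^ 2 + ‖Z c - Z d‖ ^ 2 := by
    intro c hc d hd hcd
    rw [← hdist]
    have := hS c hc d hd hcd
    nlinarith
  have hSC : S ^ 2 ≤ C ^ 2 := by linarith
  have t1' : ∀ c ∈ F, (C * Y c - S * X c) ^ 2 ≤ 1 := fun c hc => by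
    have := t1 c hc
    linarith [sq_nonneg ‖Z c + β‖]
  have t2' : ∀ c ∈ F, (C * Y c + S * X c) ^ 2 ≤ 1 := fun c hc => by
    have := t2 c hc
    linarith [sq_nonneg ‖Z c - β‖]
  have hconv : ∀ a b, ⟪u, b - a⟫ * ⟪u', b - a⟫ < 0 →
      C ^ 2 * (X b - X a) ^ 2 < S ^ 2 * (Y b - Y a) ^ 2 := by
    intro a b h
    rw [hi1, hi2] at h
    linarith
  rcases hcard with hcard | ⟨hdim, hcard⟩
  · -- general case
    obtain ⟨x, hx, y, hy, hxy⟩ := spread_gen F hcard p u hu hS h1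
    rw [hi1] at hxy
    have hr := range_bound C S (X x) (X y) (Y x) (Y y) hC hSC (t1' x hx) (t2' x hx) (t1' y hy)
      (t2' y hy)
    have h8 : 8 * S ^ 2 < C ^ 2 := by
      have : S ^ 2 * 32 < S ^ 2 * (C * (X x - X y) + S * (Y x - Y y)) ^ 2 := by
        have : 0 < S ^ 2 := by positivity
        gcongr
      linarith
    refine ⟨fun a ha b hb c hc d hd hab hcd => ?_, by rw [hcs0]; linarith⟩
    refine reduce C S X Y F hC hSp ?_ ?_ a b c d ha hb hc hd (hconv _ _ hab) (hconv _ _ hcd)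
    · intro i hi j hj k hk hij hik hjk s1 s2 hyy
      -- signs
      have habs : ∀ a b : E, C ^ 2 * (X b - X a) ^ 2 < S ^ 2 * (Y b - Y a) ^ 2 →
          |C * (X b - X a)| < |S * (Y b - Y a)| := by
        intro a b h
        rw [← mul_pow, ← mul_pow] at h
        exact sq_lt_sq.1 h
      have b1 := habs _ _ s1
      have b2 := habs _ _ s2
      have hyy' : 0 < (S * (Y j - Y i)) * (S * (Y k - Y i)) := by
        have : (S * (Y j - Y i)) * (S * (Y k - Y i)) = S ^ 2 * ((Y j - Y i) * (Y k - Y i)) := by ring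
        rw [this]; positivity
      have sg : ∀ A B A' B' : ℝ, |A| < |B| → |A'| < |B'| → 0 < B * B' →
          0 < (A + B) * (A' + B') ∧ 0 < (A - B) * (A' - B') := by
        intro A B A' B' h1 h2 h3
        rcases pos_and_pos_or_neg_and_neg_of_mul_pos h3 with ⟨hy, hy'⟩ | ⟨hy, hy'⟩
        · rw [abs_of_pos hy, abs_lt] at h1
          rw [abs_of_pos hy', abs_lt] at h2
          exact ⟨mul_pos (by linarith) (by linarith),
            mul_pos_of_neg_of_neg (by linarith) (by linarith)⟩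
        · rw [abs_of_neg hy, abs_lt] at h1
          rw [abs_of_neg hy', abs_lt] at h2
          exact ⟨mul_pos_of_neg_of_neg (by linarith) (by linarith),
            mul_pos (by linarith) (by linarith)⟩
      obtain ⟨g1, g2⟩ := sg _ _ _ _ b1 b2 hyy'
      have f1 := fork p u i j k hu (h1 i hi) (h1 j hj) (h1 k hk) (hS i hi j hj hij)
        (hS i hi k hk hik) (by rw [hi1, hi1]; exact g1)
      have f2 := fork p' u' i j k hu' (h2 i hi) (h2 j hj) (h2 k hk) (hS i hi j hj hij)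
        (hS i hi k hk hik) (by rw [hi2, hi2]; exact g2)
      rw [hi1, hi1] at f1
      rw [hi2, hi2] at f2
      have hdjk : 4 < dist j k ^ 2 := by
        have := hS j hj k hk hjk
        nlinarith
      have yb : ∀ a ∈ F, ∀ b ∈ F, C ^ 2 * (Y b - Y a) ^ 2 ≤ 4 := by
        intro a ha b hb
        have r1 := rhombus C S (X a) (Y a) hC hSp (t1' a ha) (t2' a ha)
        have r2 := rhombus C S (X b) (Y b) hC hSp (t1' b hb) (t2' b hb)
        have r3 := rhombus2 C S _ _ _ _ hC hSp r2 r1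
        have r4 : C * |Y b - Y a| ≤ 2 := by
          linarith [mul_nonneg hSp.le (abs_nonneg (X b - X a))]
        have r5 : (C * |Y b - Y a|) ^ 2 ≤ 2 ^ 2 := by
          have := mul_nonneg hC.le (abs_nonneg (Y b - Y a))
          gcongr
        rw [mul_pow, sq_abs] at r5
        linarith
      have y1 := yb i hi j hj
      have y2 := yb i hi k hk
      have z1 : S ^ 2 * (Y j - Y i) ^ 2 ≤ 1 / 2 := by
        have : 8 * S ^ 2 * (Y j - Y i) ^ 2 ≤ C ^ 2 * (Y j - Y i) ^ 2 := by gcongr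
        linarith
      have z2 : S ^ 2 * (Y k - Y i) ^ 2 ≤ 1 / 2 := by
        have : 8 * S ^ 2 * (Y k - Y i) ^ 2 ≤ C ^ 2 * (Y k - Y i) ^ 2 := by gcongr
        linarith
      linarith
    · intro a b c d ha hb hc hd hab hcd hac had hbc hbd s1 s2
      exact disj_gen C S X Y Z β F hC hSp hCS h8.le t1 t2 hD a b c d ha hb hc hd hab hcd hac had
        hbc hbd s1 s2
  · -- planar case
    obtain ⟨hβ, hZ⟩ := hplan hdim
    have hD' : ∀ c ∈ F, ∀ d ∈ F, c ≠ d → 4 < (X c - X d) ^ 2 + (Y c - Y d) ^ 2 := by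
      intro c hc d hd hcd
      have := hD c hc d hd hcd
      rw [hZ, hZ, sub_self, norm_zero] at this
      linarith
    obtain ⟨x, hx, y, hy, hxy⟩ := spread_planar F hcard (fun c => C * X c + S * Y c)
      (fun c => C * Y c - S * X c) t1' (by
        intro c hc d hd hcd
        have := hD' c hc d hd hcd
        have e : (C * X c + S * Y c - (C * X d + S * Y d)) ^ 2 +
          (C * Y c - S * X c - (C * Y d - S * X d)) ^ 2 = (X c - X d) ^ 2 + (Y c - Y d) ^ 2 := by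
          linear_combination ((X c - X d) ^ 2 + (Y c - Y d) ^ 2) * hCS
        rw [e]; exact this)
    have hr := range_bound C S (X x) (X y) (Y x) (Y y) hC hSC (t1' x hx) (t2' x hx) (t1' y hy)
      (t2' y hy)
    have h3 : 3 * S ^ 2 < C ^ 2 := by
      have e : C * (X x - X y) + S * (Y x - Y y) = C * X x + S * Y x - (C * X y + S * Y y) := by
        ring
      rw [e] at hr
      have : S ^ 2 * 12 < S ^ 2 * (C * X x + S * Y x - (C * X y + S * Y y)) ^ 2 := by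
        have : 0 < S ^ 2 := by positivity
        gcongr
      linarith
    have hrh : ∀ c ∈ F, S * |X c| + C * |Y c| ≤ 1 := fun c hc =>
      rhombus C S (X c) (Y c) hC hSp (t1' c hc) (t2' c hc)
    refine ⟨fun a ha b hb c hc d hd hab hcd => ?_, by rw [hcs0]; linarith⟩
    refine reduce C S X Y F hC hSp ?_ ?_ a b c d ha hb hc hd (hconv _ _ hab) (hconv _ _ hcd)
    · intro i hi j hj k hk hij hik hjk s1 s2 hyy
      have := planar_fork C S (X j - X i) (Y j - Y i) (X k - X i) (Y k - Y i) hC hSp hCS h3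
        (rhombus2 C S _ _ _ _ hC hSp (hrh j hj) (hrh i hi))
        (rhombus2 C S _ _ _ _ hC hSp (hrh k hk) (hrh i hi))
        (hD' j hj i hi hij.symm) (hD' k hk i hi hik.symm) s1 s2 hyy
      have h4 := hD' j hj k hk hjk
      linarith
    · intro a b c d ha hb hc hd hab hcd hac had hbc hbd s1 s2
      exact planar_disj C S (X a) (X b) (X c) (X d) (Y a) (Y b) (Y c) (Y d) hC hSp hCS h3
        (hrh a ha) (hrh b hb) (hrh c hc) (hrh d hd) (hD' a ha b hb hab) (hD' c hc d hd hcd)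
        (hD' a ha c hc hac) (hD' b hb d hd hbd) (hD' a ha d hd had) (hD' b hb c hc hbc) s1 s2

end Pool.Agent.H122.LT
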