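import Mathlib

set_option autoImplicit false

namespace Pool.Agent.H122.LT

/-- The combinatorial part: sign patterns of the deletion transversals of a critical family. -/
theorem comb {ι : Type*} [Fintype ι] [LinearOrder ι] (d : ℕ) (hd : 2 ≤ d)
    (hm : 4 * d ≤ Fintype.card ι) (s : ι → ι × ι → Bool)
    (hS : ∀ i j, i ≠ j → ∀ e e' : ι × ι, e.1 < e.2 → e'.1 < e'.2 →
      i ≠ e.1 → i ≠ e.2 → i ≠ e'.1 → i ≠ e'.2 → j ≠ e.1 → j ≠ e.2 → j ≠ e'.1 → j ≠ e'.2 →
      s i e ≠ s j e → s i e' ≠ s j e' → e = e')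
    (hC : ∀ O : ι × ι → Bool, ∃ W : Finset ι, W.card ≤ 2 * d ∧ ∀ i, i ∉ W →
      ∃ e : ι × ι, e.1 < e.2 ∧ e.1 ∈ W ∧ e.2 ∈ W ∧ s i e ≠ O e) : False := by
  classical
  let T : ι × ι → Finset ι := fun e => Finset.univ.filter fun i => i ≠ e.1 ∧ i ≠ e.2 ∧ s i e = true
  let Fa : ι × ι → Finset ι := fun e => Finset.univ.filter fun i =>
    i ≠ e.1 ∧ i ≠ e.2 ∧ s i e = false
  have hT : ∀ e i, i ∈ T e ↔ i ≠ e.1 ∧ i ≠ e.2 ∧ s i e = true := by intro e i; simp [T]
  have hF : ∀ e i, i ∈ Fa e ↔ i ≠ e.1 ∧ i ≠ e.2 ∧ s i e = false := by intro e i; simp [Fa]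
  have hnot : ∀ (W : Finset ι) (i a : ι), i ∉ W → a ∈ W → i ≠ a := by
    intro W i a h1 h2 h; rw [h] at h1; exact h1 h2
  by_cases hcase : ∃ f : ι × ι, f.1 < f.2 ∧ 3 ≤ (T f).card ∧ 3 ≤ (Fa f).card
  · obtain ⟨f, hf, hf1, hf2⟩ := hcase
    have hopp : ∀ b : Bool, ∀ e : ι × ι, ∃ j, j ≠ f.1 ∧ j ≠ f.2 ∧ j ≠ e.1 ∧ j ≠ e.2 ∧ s j f ≠ b := by
      intro b e
      have key : ∀ G : Finset ι, 3 ≤ G.card → ∃ j ∈ G, j ≠ e.1 ∧ j ≠ e.2 := by
        intro G hG
        have h2 : ({e.1, e.2} : Finset ι).card ≤ 2 := Finset.card_le_two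
        obtain ⟨j, hj1, hj2⟩ := Finset.exists_mem_notMem_of_card_lt_card
          (lt_of_le_of_lt h2 (by omega : 2 < G.card))
        simp only [Finset.mem_insert, Finset.mem_singleton, not_or] at hj2
        exact ⟨j, hj1, hj2.1, hj2.2⟩
      cases b
      · obtain ⟨j, hj, h1, h2⟩ := key _ hf1
        rw [hT] at hj
        exact ⟨j, hj.1, hj.2.1, h1, h2, by rw [hj.2.2]; simp⟩
      · obtain ⟨j, hj, h1, h2⟩ := key _ hf2
        rw [hF] at hj
        exact ⟨j, hj.1, hj.2.1, h1, h2, by rw [hj.2.2]; simp⟩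
    have hagree : ∀ e : ι × ι, e.1 < e.2 → e ≠ f → ∀ i i', i ≠ f.1 → i ≠ f.2 → i ≠ e.1 → i ≠ e.2 →
        i' ≠ f.1 → i' ≠ f.2 → i' ≠ e.1 → i' ≠ e.2 → s i e = s i' e := by
      intro e he hef i i' a1 a2 a3 a4 b1 b2 b3 b4
      by_contra hne
      have hii : i ≠ i' := by rintro rfl; exact hne rfl
      have hff : s i f = s i' f := by
        by_contra h
        exact hef (hS i i' hii e f he hf a3 a4 a1 a2 b3 b4 b1 b2 hne h)
      obtain ⟨j, c1, c2, c3, c4, c5⟩ := hopp (s i f) e
      have hij : i ≠ j := by rintro rfl; exact c5 rfl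
      have hij' : i' ≠ j := by rintro rfl; exact c5 hff.symm
      have h1 : s i e = s j e := by
        by_contra h
        exact hef (hS i j hij e f he hf a3 a4 a1 a2 c3 c4 c1 c2 h (Ne.symm c5))
      have h2 : s i' e = s j e := by
        by_contra h
        exact hef (hS i' j hij' e f he hf b3 b4 b1 b2 c3 c4 c1 c2 h (by rw [← hff]; exact Ne.symm c5))
      exact hne (h1.trans h2.symm)
    let O : ι × ι → Bool := fun e => decide (∃ i, i ≠ f.1 ∧ i ≠ f.2 ∧ i ≠ e.1 ∧ i ≠ e.2 ∧
      s i e = true)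
    have hO : ∀ e : ι × ι, e.1 < e.2 → e ≠ f → ∀ i, i ≠ f.1 → i ≠ f.2 → i ≠ e.1 → i ≠ e.2 →
        s i e = O e := by
      intro e he hef i a1 a2 a3 a4
      by_cases h : s i e = true
      · have : O e = true := by
          simp only [O, decide_eq_true_eq]
          exact ⟨i, a1, a2, a3, a4, h⟩
        rw [h, this]
      · have : O e = false := by
          simp only [O, decide_eq_false_iff_not]
          rintro ⟨i', b1, b2, b3, b4, h'⟩
          exact h ((hagree e he hef i i' a1 a2 a3 a4 b1 b2 b3 b4).trans h')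
        rw [this]
        simpa using h
    obtain ⟨W1, hW1, hW1'⟩ := hC fun e => if e = f then true else O e
    obtain ⟨W2, hW2, hW2'⟩ := hC fun e => if e = f then false else O e
    have k1 : ∀ i, i ≠ f.1 → i ≠ f.2 → i ∉ W1 → f.1 ∈ W1 ∧ f.2 ∈ W1 ∧ s i f = false := by
      intro i a1 a2 hi
      obtain ⟨e, he, he1, he2, hse⟩ := hW1' i hi
      by_cases hef : e = f
      · subst hef
        rw [if_pos rfl] at hse
        exact ⟨he1, he2, by simpa using hse⟩
      · rw [if_neg hef] at hse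
        exact absurd (hO e he hef i a1 a2 (hnot W1 i _ hi he1) (hnot W1 i _ hi he2)) hse
    have k2 : ∀ i, i ≠ f.1 → i ≠ f.2 → i ∉ W2 → f.1 ∈ W2 ∧ f.2 ∈ W2 ∧ s i f = true := by
      intro i a1 a2 hi
      obtain ⟨e, he, he1, he2, hse⟩ := hW2' i hi
      by_cases hef : e = f
      · subst hef
        rw [if_pos rfl] at hse
        exact ⟨he1, he2, by simpa using hse⟩
      · rw [if_neg hef] at hse
        exact absurd (hO e he hef i a1 a2 (hnot W2 i _ hi he1) (hnot W2 i _ hi he2)) hse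
    have hbig : ∀ W : Finset ι, W.card ≤ 2 * d → (∀ i, i ≠ f.1 → i ≠ f.2 → i ∈ W) → False := by
      intro W hW hall
      have hsub : (Finset.univ : Finset ι) ⊆ W ∪ {f.1, f.2} := by
        intro i _
        rw [Finset.mem_union, Finset.mem_insert, Finset.mem_singleton]
        by_cases a1 : i = f.1
        · exact Or.inr (Or.inl a1)
        by_cases a2 : i = f.2
        · exact Or.inr (Or.inr a2)
        exact Or.inl (hall i a1 a2)
      have h1 := Finset.card_le_card hsub
      have h2 := Finset.card_union_le W {f.1, f.2}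
      have h3 : ({f.1, f.2} : Finset ι).card ≤ 2 := Finset.card_le_two
      rw [Finset.card_univ] at h1
      omega
    by_cases hfW1 : f.1 ∈ W1 ∧ f.2 ∈ W1
    · by_cases hfW2 : f.1 ∈ W2 ∧ f.2 ∈ W2
      · have hsub : (Finset.univ : Finset ι) ⊆ W1 ∪ W2 := by
          intro i _
          rw [Finset.mem_union]
          by_contra hcon
          rw [not_or] at hcon
          have a1 : i ≠ f.1 := hnot W1 i _ hcon.1 hfW1.1
          have a2 : i ≠ f.2 := hnot W1 i _ hcon.1 hfW1.2
          have h1 := (k1 i a1 a2 hcon.1).2.2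
          have h2 := (k2 i a1 a2 hcon.2).2.2
          rw [h1] at h2
          exact Bool.false_ne_true h2
        have h1 := Finset.card_le_card hsub
        have h2 := Finset.card_union_add_card_inter W1 W2
        have h3 : ({f.1, f.2} : Finset ι) ⊆ W1 ∩ W2 := by
          intro x hx
          rw [Finset.mem_insert, Finset.mem_singleton] at hx
          rw [Finset.mem_inter]
          rcases hx with rfl | rfl
          · exact ⟨hfW1.1, hfW2.1⟩
          · exact ⟨hfW1.2, hfW2.2⟩
        have h4 := Finset.card_le_card h3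
        rw [Finset.card_pair hf.ne] at h4
        rw [Finset.card_univ] at h1
        omega
      · refine hbig W2 hW2 fun i a1 a2 => ?_
        by_contra h
        have := k2 i a1 a2 h
        exact hfW2 ⟨this.1, this.2.1⟩
    · refine hbig W1 hW1 fun i a1 a2 => ?_
      by_contra h
      have := k1 i a1 a2 h
      exact hfW1 ⟨this.1, this.2.1⟩
  · push Not at hcase
    let O : ι × ι → Bool := fun e => decide (3 ≤ (T e).card)
    let B : ι × ι → Finset ι := fun e => Finset.univ.filter fun i => i ≠ e.1 ∧ i ≠ e.2 ∧ s i e ≠ O e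
    have hB : ∀ e i, i ∈ B e ↔ i ≠ e.1 ∧ i ≠ e.2 ∧ s i e ≠ O e := by intro e i; simp [B]
    have hBcard : ∀ e : ι × ι, e.1 < e.2 → (B e).card ≤ 2 := by
      intro e he
      by_cases h : 3 ≤ (T e).card
      · have hOe : O e = true := by simp only [O, decide_eq_true_eq]; exact h
        have h1 := hcase e he h
        have h2 : B e ⊆ Fa e := by
          intro i hi
          rw [hB, hOe] at hi
          rw [hF]
          exact ⟨hi.1, hi.2.1, by simpa using hi.2.2⟩
        have := Finset.card_le_card h2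
        omega
      · have hOe : O e = false := by simp only [O, decide_eq_false_iff_not]; exact h
        have h2 : B e ⊆ T e := by
          intro i hi
          rw [hB, hOe] at hi
          rw [hT]
          exact ⟨hi.1, hi.2.1, by simpa using hi.2.2⟩
        have := Finset.card_le_card h2
        omega
    have huniq : ∀ i (e1 e2 : ι × ι), e1.1 < e1.2 → e2.1 < e2.2 → i ∈ B e1 → i ∈ B e2 →
        e1 = e2 := by
      intro i e1 e2 he1 he2 hi1 hi2
      have c1 := hBcard e1 he1
      have c2 := hBcard e2 he2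
      have c3 := Finset.card_union_add_card_inter (B e1) (B e2)
      have c4 : 1 ≤ (B e1 ∩ B e2).card :=
        Finset.card_pos.2 ⟨i, Finset.mem_inter.2 ⟨hi1, hi2⟩⟩
      have c5 : ({e1.1, e1.2, e2.1, e2.2} : Finset ι).card ≤ 4 := Finset.card_le_four
      have c6 := Finset.card_union_le (B e1 ∪ B e2) {e1.1, e1.2, e2.1, e2.2}
      have c7 : ((B e1 ∪ B e2) ∪ {e1.1, e1.2, e2.1, e2.2}).card < (Finset.univ : Finset ι).card := by
        rw [Finset.card_univ]; omega
      obtain ⟨j, -, hj⟩ := Finset.exists_mem_notMem_of_card_lt_card c7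
      simp only [Finset.mem_union, Finset.mem_insert, Finset.mem_singleton, not_or] at hj
      obtain ⟨⟨j1, j2⟩, j3, j4, j5, j6⟩ := hj
      have hij : i ≠ j := by rintro rfl; exact j1 hi1
      have i1 := (hB _ _).1 hi1
      have i2 := (hB _ _).1 hi2
      have l1 : s j e1 = O e1 := by
        by_contra h; exact j1 ((hB _ _).2 ⟨j3, j4, h⟩)
      have l2 : s j e2 = O e2 := by
        by_contra h; exact j2 ((hB _ _).2 ⟨j5, j6, h⟩)
      exact hS i j hij e1 e2 he1 he2 i1.1 i1.2.1 i2.1 i2.2.1 j3 j4 j5 j6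
        (by rw [l1]; exact i1.2.2) (by rw [l2]; exact i2.2.2)
    obtain ⟨W, hW, hW'⟩ := hC O
    have hmem : ∀ i, i ∉ W → ∃ e : ι × ι, e.1 < e.2 ∧ e.1 ∈ W ∧ e.2 ∈ W ∧ i ∈ B e := by
      intro i hi
      obtain ⟨e, he, he1, he2, hse⟩ := hW' i hi
      exact ⟨e, he, he1, he2, (hB _ _).2 ⟨hnot W i _ hi he1, hnot W i _ hi he2, hse⟩⟩
    have hcardV : 3 ≤ (Finset.univ \ W).card := by
      have h1 := Finset.le_card_sdiff W (Finset.univ : Finset ι)
      rw [Finset.card_univ] at h1
      omega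
    obtain ⟨i0, hi0⟩ : (Finset.univ \ W).Nonempty := Finset.card_pos.1 (by omega)
    have hi0W : i0 ∉ W := by simpa using hi0
    obtain ⟨f, hf, hf1, hf2, hfB⟩ := hmem i0 hi0W
    have hsub : Finset.univ \ W ⊆ B f := by
      intro j hj
      have hjW : j ∉ W := by simpa using hj
      by_contra hjB
      obtain ⟨e, he, he1, he2, heB⟩ := hmem j hjW
      have hef : e ≠ f := by rintro rfl; exact hjB heB
      have hij : i0 ≠ j := by rintro rfl; exact hjB hfB
      have l1 : s j f = O f := by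
        by_contra h
        exact hjB ((hB _ _).2 ⟨hnot W j _ hjW hf1, hnot W j _ hjW hf2, h⟩)
      have l2 : s i0 e = O e := by
        by_contra h
        exact hef (huniq i0 e f he hf ((hB _ _).2 ⟨hnot W i0 _ hi0W he1, hnot W i0 _ hi0W he2, h⟩)
          hfB)
      have i1 := (hB _ _).1 hfB
      have i2 := (hB _ _).1 heB
      refine hef (hS i0 j hij e f he hf (hnot W i0 _ hi0W he1) (hnot W i0 _ hi0W he2) i1.1 i1.2.1
        i2.1 i2.2.1 (hnot W j _ hjW hf1) (hnot W j _ hjW hf2) ?_ ?_)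
      · rw [l2]; exact Ne.symm i2.2.2
      · rw [l1]; exact i1.2.2
    have := Finset.card_le_card hsub
    have := hBcard f hf
    omega

end Pool.Agent.H122.LT
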