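import Mathlib
import Pool.Agent.H122.LT14
import Pool.Agent.H122.LT15

set_option autoImplicit false

namespace Pool.Agent.H122.LT

open Real Set
open scoped RealInnerProductSpace

variable {E : Type*} [NormedAddCommGroup E] [InnerProductSpace ℝ E]

lemma xx_neg (p u c : E) : xx p (-u) c = xx p u c := by
  simp only [xx, inner_neg_left, neg_smul_neg]

lemma inner_ne_zero (p u a b : E) (hu : ‖u‖ = 1) (ha : ‖xx p u a‖ ≤ 1) (hb : ‖xx p u b‖ ≤ 1)
    (h : 2 < dist a b) : ⟪u, b - a⟫ ≠ 0 := by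
  intro h0
  have := add_lt p u a b hu 1 le_rfl ha hb h
  rw [h0] at this
  have h1 : (0 : ℝ) ≤ ‖xx p u a + xx p u b‖ ^ 2 := by positivity
  norm_num at this
  linarith

/-- A critical family of at least `4d` balls does not exist. -/
theorem upper_crit [FiniteDimensional ℝ E] [DecidableEq E] (d : ℕ) (hd : 2 ≤ d) (hdim : Module.finrank ℝ E = d)
    (F : Finset E) (hsep : ∀ x ∈ F, ∀ y ∈ F, x ≠ y → 2 < dist x y) (hm : 4 * d ≤ F.card)
    (hcrit : ∀ x ∈ F, ∃ p u : E, ‖u‖ = 1 ∧ ∀ c ∈ F.erase x, ‖xx p u c‖ ≤ 1) :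
    ∃ p u : E, ‖u‖ = 1 ∧ ∀ c ∈ F, ‖xx p u c‖ ≤ 1 := by
  classical
  by_contra hno
  -- index the family
  let m := F.card
  let c : Fin m → E := fun i => (F.equivFin.symm i : E)
  have hcF : ∀ i, c i ∈ F := fun i => (F.equivFin.symm i).2
  have hcinj : Function.Injective c := fun i j h =>
    F.equivFin.symm.injective (Subtype.ext h)
  have hcsurj : ∀ x ∈ F, ∃ i, c i = x := by
    intro x hx
    refine ⟨F.equivFin ⟨x, hx⟩, ?_⟩
    simp [c]
  have hcr : ∀ i, ∃ pu : E × E, ‖pu.2‖ = 1 ∧ ∀ x ∈ F.erase (c i), ‖xx pu.1 pu.2 x‖ ≤ 1 := by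
    intro i
    obtain ⟨p, u, h1, h2⟩ := hcrit (c i) (hcF i)
    exact ⟨(p, u), h1, h2⟩
  choose L hL1 hL2 using hcr
  have hmpos : 0 < m := by omega
  let i0 : Fin m := ⟨0, hmpos⟩
  let p : Fin m → E := fun i => (L i).1
  let v : Fin m → E := fun i => if 0 ≤ ⟪(L i).2, (L i0).2⟫ then (L i).2 else -(L i).2
  have hv : ∀ i, v i = (L i).2 ∨ v i = -(L i).2 := by
    intro i
    simp only [v]
    split_ifs
    · exact Or.inl rfl
    · exact Or.inr rfl
  have hv1 : ∀ i, ‖v i‖ = 1 := by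
    intro i
    rcases hv i with h | h <;> rw [h]
    · exact hL1 i
    · rw [norm_neg]; exact hL1 i
  have hvx : ∀ i, ∀ x ∈ F.erase (c i), ‖xx (p i) (v i) x‖ ≤ 1 := by
    intro i x hx
    rcases hv i with h | h <;> rw [h]
    · exact hL2 i x hx
    · rw [xx_neg]; exact hL2 i x hx
  -- two deletion lines
  have hG : ∀ i j, i ≠ j → 9 ≤ ((F.erase (c i)).erase (c j)).card ∨
      (Module.finrank ℝ E = 2 ∧ 5 ≤ ((F.erase (c i)).erase (c j)).card) := by
    intro i j hij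
    have h1 : c j ∈ F.erase (c i) := Finset.mem_erase.2 ⟨fun h => hij (hcinj h).symm, hcF j⟩
    rw [Finset.card_erase_of_mem h1, Finset.card_erase_of_mem (hcF i)]
    rcases Nat.eq_or_lt_of_le hd with h2 | h2
    · right
      refine ⟨by omega, by omega⟩
    · left
      omega
  have hGi : ∀ i j x, x ∈ (F.erase (c i)).erase (c j) → x ∈ F.erase (c i) ∧ x ∈ F.erase (c j) := by
    intro i j x hx
    simp only [Finset.mem_erase] at hx ⊢
    exact ⟨⟨hx.2.1, hx.2.2⟩, ⟨hx.1, hx.2.2⟩⟩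
  have hGF : ∀ i j x, x ∈ (F.erase (c i)).erase (c j) → x ∈ F := fun i j x hx =>
    Finset.mem_of_mem_erase (Finset.mem_of_mem_erase hx)
  have hhalf : ∀ i j, i ≠ j → ⟪v i, v j⟫ < 0 → ⟪v i, v j⟫ < -(1 / 2) := by
    intro i j hij hneg
    have := (lemmaS ((F.erase (c i)).erase (c j)) (p i) (v i) (p j) (-(v j)) (hv1 i)
      (by rw [norm_neg]; exact hv1 j) (by rw [inner_neg_right]; linarith)
      (fun x hx y hy hxy => hsep x (hGF i j x hx) y (hGF i j y hy) hxy)
      (fun x hx => hvx i x (hGi i j x hx).1)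
      (fun x hx => by rw [xx_neg]; exact hvx j x (hGi i j x hx).2) (hG i j hij)).2
    rw [inner_neg_right] at this
    linarith
  have hhalf' : ∀ i j, i ≠ j → 0 ≤ ⟪v i, v j⟫ → 1 / 2 < ⟪v i, v j⟫ := by
    intro i j hij hpos
    exact (lemmaS ((F.erase (c i)).erase (c j)) (p i) (v i) (p j) (v j) (hv1 i)
      (hv1 j) hpos
      (fun x hx y hy hxy => hsep x (hGF i j x hx) y (hGF i j y hy) hxy)
      (fun x hx => hvx i x (hGi i j x hx).1)
      (fun x hx => hvx j x (hGi i j x hx).2) (hG i j hij)).2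
  have hvi0 : v i0 = (L i0).2 := by
    simp only [v]
    rw [if_pos]
    rw [real_inner_self_eq_norm_sq]; positivity
  have h0 : ∀ i, 0 ≤ ⟪v i, v i0⟫ := by
    intro i
    rw [hvi0]
    simp only [v]
    split_ifs with h
    · exact h
    · rw [inner_neg_left]; push Not at h; linarith
  have hpos : ∀ i j, i ≠ j → 0 ≤ ⟪v i, v j⟫ := by
    intro i j hij
    by_contra hneg
    push Not at hneg
    have h1 := hhalf i j hij hneg
    have hi : i ≠ i0 := by
      rintro rfl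
      have := h0 j
      rw [real_inner_comm] at this
      linarith
    have hj : j ≠ i0 := by
      rintro rfl
      have := h0 i
      linarith
    have a1 := hhalf' i i0 hi (h0 i)
    have a2 := hhalf' j i0 hj (h0 j)
    have h2 : ‖v i + v j‖ ^ 2 < 1 := by
      rw [norm_add_sq_real, hv1, hv1]; linarith
    have h3 : 1 < ⟪v i + v j, v i0⟫ := by rw [inner_add_left]; linarith
    have h4 : ⟪v i + v j, v i0⟫ ≤ ‖v i + v j‖ := by
      have := real_inner_le_norm (v i + v j) (v i0)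
      rwa [hv1, mul_one] at this
    have h5 : 1 < ‖v i + v j‖ := by linarith
    nlinarith
  have hmainS : ∀ i j, i ≠ j → ∀ a ∈ (F.erase (c i)).erase (c j),
      ∀ b ∈ (F.erase (c i)).erase (c j), ∀ a' ∈ (F.erase (c i)).erase (c j),
      ∀ b' ∈ (F.erase (c i)).erase (c j), ⟪v i, b - a⟫ * ⟪v j, b - a⟫ < 0 →
      ⟪v i, b' - a'⟫ * ⟪v j, b' - a'⟫ < 0 → (a = a' ∧ b = b') ∨ (a = b' ∧ b = a') := by
    intro i j hij
    exact (lemmaS ((F.erase (c i)).erase (c j)) (p i) (v i) (p j) (v j) (hv1 i)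
      (hv1 j) (hpos i j hij)
      (fun x hx y hy hxy => hsep x (hGF i j x hx) y (hGF i j y hy) hxy)
      (fun x hx => hvx i x (hGi i j x hx).1)
      (fun x hx => hvx j x (hGi i j x hx).2) (hG i j hij)).1
  have hmemE : ∀ i k, i ≠ k → c k ∈ F.erase (c i) := fun i k h =>
    Finset.mem_erase.2 ⟨fun h' => h (hcinj h').symm, hcF k⟩
  have hmemG : ∀ i j k, i ≠ k → j ≠ k → c k ∈ (F.erase (c i)).erase (c j) := fun i j k h h' =>
    Finset.mem_erase.2 ⟨fun h'' => h' (hcinj h'').symm, hmemE i k h⟩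
  have hnz : ∀ i a b, i ≠ a → i ≠ b → a ≠ b → ⟪v i, c b - c a⟫ ≠ 0 := by
    intro i a b ha hb hab
    exact inner_ne_zero (p i) (v i) (c a) (c b) (hv1 i) (hvx i _ (hmemE i a ha))
      (hvx i _ (hmemE i b hb)) (hsep _ (hcF a) _ (hcF b) fun h => hab (hcinj h))
  refine comb (ι := Fin m) d hd (by rw [Fintype.card_fin]; exact hm)
    (fun i e => decide (0 < ⟪v i, c e.2 - c e.1⟫)) ?_ ?_
  · intro i j hij e e' he he' i1 i2 i3 i4 j1 j2 j3 j4 hs hs'
    have hprod : ∀ e : Fin m × Fin m, e.1 < e.2 → i ≠ e.1 → i ≠ e.2 → j ≠ e.1 → j ≠ e.2 →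
        decide (0 < ⟪v i, c e.2 - c e.1⟫) ≠ decide (0 < ⟪v j, c e.2 - c e.1⟫) →
        ⟪v i, c e.2 - c e.1⟫ * ⟪v j, c e.2 - c e.1⟫ < 0 := by
      intro e he a1 a2 b1 b2 hne
      have n1 := hnz i e.1 e.2 a1 a2 he.ne
      have n2 := hnz j e.1 e.2 b1 b2 he.ne
      rcases lt_or_gt_of_ne n1 with h1 | h1 <;> rcases lt_or_gt_of_ne n2 with h2 | h2
      · exact absurd (by rw [decide_eq_false (not_lt.2 h1.le), decide_eq_false (not_lt.2 h2.le)]) hne
      · exact mul_neg_of_neg_of_pos h1 h2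
      · exact mul_neg_of_pos_of_neg h1 h2
      · exact absurd (by rw [decide_eq_true h1, decide_eq_true h2]) hne
    have k1 := hprod e he i1 i2 j1 j2 hs
    have k2 := hprod e' he' i3 i4 j3 j4 hs'
    rcases hmainS i j hij (c e.1) (hmemG i j _ i1 j1) (c e.2) (hmemG i j _ i2 j2)
      (c e'.1) (hmemG i j _ i3 j3) (c e'.2) (hmemG i j _ i4 j4) k1 k2 with ⟨h1, h2⟩ | ⟨h1, h2⟩
    · exact Prod.ext (hcinj h1) (hcinj h2)
    · exfalso
      have h1' := hcinj h1
      have h2' := hcinj h2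
      rw [h1', h2'] at he
      exact absurd he (not_lt.2 he'.le)
  · intro O
    let R : E → E → Prop := fun x y => ∃ e : Fin m × Fin m, e.1 < e.2 ∧
      ((x = c e.1 ∧ y = c e.2 ∧ O e = true) ∨ (x = c e.2 ∧ y = c e.1 ∧ O e = false))
    have hRirr : ∀ x ∈ F, ¬ R x x := by
      rintro x - ⟨e, he, ⟨h1, h2, -⟩ | ⟨h1, h2, -⟩⟩
      · exact absurd (hcinj (h1.symm.trans h2)) he.ne
      · exact absurd (hcinj (h2.symm.trans h1)) he.ne
    have hRtot : ∀ x ∈ F, ∀ y ∈ F, x ≠ y → R x y ∨ R y x := by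
      intro x hx y hy hxy
      obtain ⟨i, rfl⟩ := hcsurj x hx
      obtain ⟨j, rfl⟩ := hcsurj y hy
      have hij : i ≠ j := by rintro rfl; exact hxy rfl
      rcases lt_or_gt_of_ne hij with h | h
      · by_cases hO : O (i, j) = true
        · exact Or.inl ⟨(i, j), h, Or.inl ⟨rfl, rfl, hO⟩⟩
        · exact Or.inr ⟨(i, j), h, Or.inr ⟨rfl, rfl, by simpa using hO⟩⟩
      · by_cases hO : O (j, i) = true
        · exact Or.inr ⟨(j, i), h, Or.inl ⟨rfl, rfl, hO⟩⟩
        · exact Or.inl ⟨(j, i), h, Or.inr ⟨rfl, rfl, by simpa using hO⟩⟩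
    obtain ⟨n, rfl⟩ : ∃ n, d = n + 1 := ⟨d - 1, by omega⟩
    have hex : ∃ A ⊆ F, A.card ≤ 2 * n + 2 ∧
        ¬ ∃ p u : E, ‖u‖ = 1 ∧ Resp R A u ∧ ∀ c ∈ A, ‖xx p u c‖ ≤ 1 := by
      by_contra hcon
      push Not at hcon
      refine hno (fixed_order n hdim (by omega) F R hRirr hRtot hsep fun A hA hcard => ?_)
      by_contra hcon2
      push Not at hcon2
      obtain ⟨q, w, h1, h2, h3⟩ := hcon A hA hcard
      obtain ⟨x, hx, hx'⟩ := hcon2 q w h1 h2
      linarith [h3 x hx]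
    obtain ⟨A, hAF, hAcard, hAno⟩ := hex
    refine ⟨Finset.univ.filter fun i => c i ∈ A, ?_, ?_⟩
    · have h1 : ((Finset.univ.filter fun i => c i ∈ A).image c).card ≤ A.card := by
        apply Finset.card_le_card
        intro x hx
        obtain ⟨i, hi, rfl⟩ := Finset.mem_image.1 hx
        exact (Finset.mem_filter.1 hi).2
      rw [Finset.card_image_of_injective _ hcinj] at h1
      omega
    · intro i hi
      have hiA : c i ∉ A := by
        intro h; exact hi (Finset.mem_filter.2 ⟨Finset.mem_univ _, h⟩)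
      have hAi : ∀ x ∈ A, x ∈ F.erase (c i) := fun x hx =>
        Finset.mem_erase.2 ⟨fun h => hiA (h ▸ hx), hAF hx⟩
      have hnr : ¬ Resp R A (v i) := by
        intro h
        exact hAno ⟨p i, v i, hv1 i, h, fun x hx => hvx i x (hAi x hx)⟩
      simp only [Resp] at hnr
      push Not at hnr
      obtain ⟨x, hx, y, hy, ⟨e, he, hor⟩, hle⟩ := hnr
      refine ⟨e, he, ?_⟩
      rcases hor with ⟨h1, h2, h3⟩ | ⟨h1, h2, h3⟩
      · subst h1; subst h2
        refine ⟨Finset.mem_filter.2 ⟨Finset.mem_univ _, hx⟩,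
          Finset.mem_filter.2 ⟨Finset.mem_univ _, hy⟩, ?_⟩
        rw [h3, decide_eq_false (not_lt.2 hle)]
        simp
      · subst h1; subst h2
        refine ⟨Finset.mem_filter.2 ⟨Finset.mem_univ _, hy⟩,
          Finset.mem_filter.2 ⟨Finset.mem_univ _, hx⟩, ?_⟩
        have ha : i ≠ e.1 := by rintro rfl; exact hiA hy
        have hb : i ≠ e.2 := by rintro rfl; exact hiA hx
        have h4 := hnz i e.1 e.2 ha hb he.ne
        have h5 : 0 ≤ ⟪v i, c e.2 - c e.1⟫ := by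
          have : c e.2 - c e.1 = -(c e.1 - c e.2) := by abel
          rw [this, inner_neg_right]; linarith
        rw [h3, decide_eq_true (lt_of_le_of_ne h5 (Ne.symm h4))]
        simp

/-- Helly type theorem for line transversals to disjoint unit balls: `4d-1` suffices. -/
theorem upper [FiniteDimensional ℝ E] (d : ℕ) (hd : 2 ≤ d) (hdim : Module.finrank ℝ E = d)
    (S : Finset E) (hsep : ∀ x ∈ S, ∀ y ∈ S, x ≠ y → 2 < dist x y)
    (hT : ∀ T ⊆ S, T.card ≤ 4 * d - 1 → ∃ p u : E, ‖u‖ = 1 ∧ ∀ c ∈ T, ‖xx p u c‖ ≤ 1) :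
    ∃ p u : E, ‖u‖ = 1 ∧ ∀ c ∈ S, ‖xx p u c‖ ≤ 1 := by
  classical
  have key : ∀ n : ℕ, ∀ T ⊆ S, T.card = n → ∃ p u : E, ‖u‖ = 1 ∧ ∀ c ∈ T, ‖xx p u c‖ ≤ 1 := by
    intro n
    induction n using Nat.strong_induction_on with
    | _ n ih =>
      intro T hTS hcard
      by_cases h : T.card ≤ 4 * d - 1
      · exact hT T hTS h
      · refine upper_crit d hd hdim T (fun x hx y hy hxy => hsep x (hTS hx) y (hTS hy) hxy)
          (by omega) fun x hx => ?_
        have h1 : (T.erase x).card = T.card - 1 := Finset.card_erase_of_mem hx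
        exact ih (T.card - 1) (by omega) (T.erase x) ((Finset.erase_subset _ _).trans hTS) h1
  exact key S.card S (Finset.Subset.refl _) rfl

end Pool.Agent.H122.LT
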