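import Mathlib
import Pool.Agent.H122.LT16
import Pool.Agent.H122.Danz2

set_option autoImplicit false

namespace Pool.Agent.H122.LT

open Real Set
open scoped RealInnerProductSpace

variable {E : Type*} [NormedAddCommGroup E] [InnerProductSpace ℝ E]

lemma to_unit (T : Finset E)
    (h : ∃ p v : E, v ≠ 0 ∧ ∀ c ∈ T, ∃ t : ℝ, dist (p + t • v) c ≤ 1) :
    ∃ p u : E, ‖u‖ = 1 ∧ ∀ c ∈ T, ‖xx p u c‖ ≤ 1 := by
  obtain ⟨p, v, hv, h⟩ := h
  have hv0 : 0 < ‖v‖ := norm_pos_iff.2 hv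
  have hu : ‖‖v‖⁻¹ • v‖ = 1 := by
    rw [norm_smul, norm_inv, norm_norm, inv_mul_cancel₀ hv0.ne']
  refine ⟨p, ‖v‖⁻¹ • v, hu, fun c hc => ?_⟩
  obtain ⟨t, ht⟩ := h c hc
  rw [← xx_shift p (‖v‖⁻¹ • v) c (t * ‖v‖) hu]
  refine (norm_xx_le _ _ c hu).trans ?_
  rw [smul_smul, mul_assoc, mul_inv_cancel₀ hv0.ne', mul_one, ← dist_eq_norm, dist_comm]
  exact ht

lemma of_unit (T : Finset E) (h : ∃ p u : E, ‖u‖ = 1 ∧ ∀ c ∈ T, ‖xx p u c‖ ≤ 1) :
    ∃ p v : E, v ≠ 0 ∧ ∀ c ∈ T, ∃ t : ℝ, dist (p + t • v) c ≤ 1 := by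
  obtain ⟨p, u, hu, h⟩ := h
  refine ⟨p, u, ?_, fun c hc => ⟨tt p u c, ?_⟩⟩
  · intro h0; rw [h0, norm_zero] at hu; norm_num at hu
  · rw [dist_comm, dist_eq_norm]
    have : c - (p + tt p u c • u) = xx p u c := by simp only [xx, tt]; abel
    rw [this]; exact h c hc

/-- The line transversal property `H(d,k)`: every finite family of pairwise disjoint unit balls in
dimension `d` whose subfamilies of size at most `k` have line transversals has one. -/
def HellyTrans (d k : ℕ) : Prop :=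
  ∀ S : Finset (EuclideanSpace ℝ (Fin d)),
    (∀ x ∈ S, ∀ y ∈ S, x ≠ y → 2 < dist x y) →
    (∀ T ⊆ S, T.card ≤ k →
      ∃ p v : EuclideanSpace ℝ (Fin d), v ≠ 0 ∧ ∀ c ∈ T, ∃ t : ℝ, dist (p + t • v) c ≤ 1) →
    ∃ p v : EuclideanSpace ℝ (Fin d), v ≠ 0 ∧ ∀ c ∈ S, ∃ t : ℝ, dist (p + t • v) c ≤ 1

/-- `T(4d-1)` implies `T` for pairwise disjoint unit balls in dimension `d ≥ 2`. -/
theorem helly_upper (d k : ℕ) (hd : 2 ≤ d) (hk : 4 * d - 1 ≤ k) : HellyTrans d k := by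
  intro S hsep hT
  refine of_unit S (upper d hd (by simp) S hsep fun T hTS hcard => ?_)
  exact to_unit T (hT T hTS (hcard.trans hk))

/-- `T(4d-5)` does not imply `T` in dimension `d ≥ 2`. -/
theorem helly_lower (n k : ℕ) (hk : k ≤ 4 * n + 3) : ¬ HellyTrans (n + 2) k := by
  intro h
  obtain ⟨S, hcard, hsep, hdrop, hno⟩ := Danz.main n
  exact hno (h S hsep fun T hTS hTc => hdrop T hTS (by omega))

theorem helly_one (k : ℕ) : HellyTrans 1 k := by
  intro S _ _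
  refine ⟨0, EuclideanSpace.single 0 1, ?_, fun c _ => ⟨c 0, ?_⟩⟩
  · intro h
    have := congrArg (fun x : EuclideanSpace ℝ (Fin 1) => x 0) h
    simp at this
  · have : (0 : EuclideanSpace ℝ (Fin 1)) + c 0 • EuclideanSpace.single 0 1 = c := by
      ext i
      fin_cases i
      simp
    rw [this, dist_self]
    norm_num

theorem strict_growth (d k : ℕ) (hd : 1 ≤ d) (h : HellyTrans (d + 1) (k + 1)) : HellyTrans d k := by
  rcases Nat.eq_or_lt_of_le hd with h1 | h1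
  · subst h1; exact helly_one k
  · by_cases hk : k + 1 < 4 * d
    · obtain ⟨n, rfl⟩ : ∃ n, d = n + 1 := ⟨d - 1, by omega⟩
      exact absurd h (helly_lower n (k + 1) (by omega))
    · exact helly_upper d k h1 (by omega)

end Pool.Agent.H122.LT
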