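import Pool.Agent.H558.PP.DStm

set_option autoImplicit false

/-!
# D4: the mean over the levels of the part of the good sections
-/

namespace Pool.Agent.H122.PPD4

open PowerSeries Finset Pool.Agent.R836.PP Pool.Agent.H558.KK Pool.Agent.H558.PP
open Pool.Agent.K7.H72.MT hiding W few dis DD dis_stable dis_vary DD_stable DD_sum DD_block few_bad
  dis_le DD_le base count

/-- an eighth root -/
theorem d4_root (K : ℕ) : ∃ L : ℕ, L ^ 8 ≤ K ∧ K < (L + 1) ^ 8 := by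
  induction K with
  | zero => exact ⟨0, by norm_num, by norm_num⟩
  | succ K ih =>
    obtain ⟨L, h1, h2⟩ := ih
    rcases Nat.lt_or_ge (K + 1) ((L + 1) ^ 8) with h | h
    · exact ⟨L, by omega, h⟩
    · refine ⟨L + 1, h, ?_⟩
      have h3 : (L + 1) ^ 8 < (L + 1 + 1) ^ 8 := Nat.pow_lt_pow_left (by omega) (by norm_num)
      omega

theorem d4_sum_mod (F : ℕ → ℝ) (M n : ℕ) :
    ∑ b ∈ range (M * n), F (b % M) = n * ∑ b ∈ range M, F b := by
  induction n with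
  | zero => simp
  | succ n ih =>
    rw [Nat.mul_succ, Finset.sum_range_add, ih]
    have h1 : ∑ x ∈ range M, F ((M * n + x) % M) = ∑ x ∈ range M, F x := by
      refine Finset.sum_congr rfl fun x hx => ?_
      rw [Nat.mul_add_mod, Nat.mod_eq_of_lt (mem_range.1 hx)]
    rw [h1]
    push_cast
    ring

open scoped Classical in
/-- the part of the sections whose ancestors are dead -/
noncomputable def d4W (T g : ℕ) (U : S) (k t : ℕ) : ℝ :=
  (#{b ∈ range (2 ^ k) | ¬ Gv T (node P2 (k - g) (b % 2 ^ (k - g)) (t % 2 ^ (k - g)) U)} : ℝ) /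
    2 ^ k

theorem d4W_nonneg (T g : ℕ) (U : S) (k t : ℕ) : 0 ≤ d4W T g U k t := by
  unfold d4W
  positivity

open scoped Classical in
theorem d4_split (V T g : ℕ) (U : S) (k t : ℕ) :
    1 - Yf V U k t ≤ Zf V T g U k t + d4W T g U k t := by
  unfold Yf Zf d4W
  have h2 : (0 : ℝ) < 2 ^ k := by positivity
  have h1 : (1 : ℝ) - (#{b ∈ range (2 ^ k) | Gv V (node P2 k b t U)} : ℝ) / 2 ^ k =
      (#{b ∈ range (2 ^ k) | ¬ Gv V (node P2 k b t U)} : ℝ) / 2 ^ k := by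
    have h3 : (#{b ∈ range (2 ^ k) | Gv V (node P2 k b t U)} : ℝ) +
        (#{b ∈ range (2 ^ k) | ¬ Gv V (node P2 k b t U)} : ℝ) = 2 ^ k := by
      have h4 := card_filter_add_card_filter_not (s := range (2 ^ k))
        (fun b => Gv V (node P2 k b t U))
      rw [card_range] at h4
      exact_mod_cast h4
    rw [eq_div_iff h2.ne', sub_mul, div_mul_cancel₀ _ h2.ne', one_mul]
    linarith
  rw [h1, ← add_div]
  apply div_le_div_of_nonneg_right _ h2.le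
  have h5 : {b ∈ range (2 ^ k) | ¬ Gv V (node P2 k b t U)} ⊆
      {b ∈ range (2 ^ k) | ¬ Gv V (node P2 k b t U) ∧
        Gv T (node P2 (k - g) (b % 2 ^ (k - g)) (t % 2 ^ (k - g)) U)} ∪
      {b ∈ range (2 ^ k) | ¬ Gv T (node P2 (k - g) (b % 2 ^ (k - g)) (t % 2 ^ (k - g)) U)} := by
    intro b hb
    obtain ⟨h6, h7⟩ := mem_filter.1 hb
    by_cases h8 : Gv T (node P2 (k - g) (b % 2 ^ (k - g)) (t % 2 ^ (k - g)) U)
    · exact mem_union_left _ (mem_filter.2 ⟨h6, h7, h8⟩)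
    · exact mem_union_right _ (mem_filter.2 ⟨h6, h8⟩)
  exact_mod_cast (card_le_card h5).trans (card_union_le _ _)

open scoped Classical in
theorem d4_Zf01 (V T g : ℕ) (U : S) (k t : ℕ) : 0 ≤ Zf V T g U k t ∧ Zf V T g U k t ≤ 1 := by
  unfold Zf
  refine ⟨by positivity, ?_⟩
  rw [div_le_one (by positivity)]
  have h1 := card_filter_le (range (2 ^ k)) (fun b => ¬ Gv V (node P2 k b t U) ∧
    Gv T (node P2 (k - g) (b % 2 ^ (k - g)) (t % 2 ^ (k - g)) U))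
  rw [card_range] at h1
  exact_mod_cast h1

open scoped Classical in
theorem d4_Zfmod (V T g : ℕ) (U : S) (k t : ℕ) : Zf V T g U k (t % 2 ^ k) = Zf V T g U k t := by
  unfold Zf
  have h1 : t % 2 ^ k % 2 ^ (k - g) = t % 2 ^ (k - g) :=
    Nat.mod_mod_of_dvd t (pow_dvd_pow 2 (Nat.sub_le k g))
  have h2 : ∀ b, node P2 k b (t % 2 ^ k) U = node P2 k b t U := fun b => node_mod P2 k b t U
  have h3 : {b ∈ range (2 ^ k) | ¬ Gv V (node P2 k b (t % 2 ^ k) U) ∧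
      Gv T (node P2 (k - g) (b % 2 ^ (k - g)) (t % 2 ^ k % 2 ^ (k - g)) U)} =
      {b ∈ range (2 ^ k) | ¬ Gv V (node P2 k b t U) ∧
      Gv T (node P2 (k - g) (b % 2 ^ (k - g)) (t % 2 ^ (k - g)) U)} := by
    ext b
    rw [mem_filter, mem_filter, h1, h2]
  rw [h3]

theorem d4_Yf0 (V : ℕ) (U : S) (k t : ℕ) : 0 ≤ Yf V U k t := by
  unfold Yf
  positivity

open scoped Classical in
/-- the sum of `W` -/
theorem d4_sumW (T g N k : ℕ) (U : S) (E : ℝ) (hk : k ≤ N)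
    (h : (#{p ∈ range (2 ^ (k - g)) ×ˢ range (2 ^ (k - g)) |
      ¬ Gv T (node P2 (k - g) p.2 p.1 U)} : ℝ) ≤ E * 4 ^ (k - g)) :
    ∑ t ∈ range (2 ^ N), d4W T g U k t ≤ E * 2 ^ N := by
  obtain ⟨m, hm⟩ : ∃ m, m = k - g := ⟨_, rfl⟩
  have hmk : m ≤ k := by omega
  obtain ⟨F, hF⟩ : ∃ F : ℕ → ℕ → ℝ, F = fun t b => if ¬ Gv T (node P2 m b t U) then 1 else 0 :=
    ⟨_, rfl⟩
  have e1 : ∀ t, d4W T g U k t = (2 ^ (k - m) * ∑ b ∈ range (2 ^ m), F (t % 2 ^ m) b) / 2 ^ k := by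
    intro t
    unfold d4W
    congr 1
    rw [← hm, card_filter]
    have h1 : (2 : ℕ) ^ k = 2 ^ m * 2 ^ (k - m) := by rw [← pow_add]; congr 1; omega
    rw [h1]
    push_cast
    have h2 := d4_sum_mod (fun b => F (t % 2 ^ m) b) (2 ^ m) (2 ^ (k - m))
    push_cast at h2
    rw [← h2, hF]
  have e2 : ∑ t ∈ range (2 ^ N), ∑ b ∈ range (2 ^ m), F (t % 2 ^ m) b =
      2 ^ (N - m) * ∑ t ∈ range (2 ^ m), ∑ b ∈ range (2 ^ m), F t b := by
    have h1 : (2 : ℕ) ^ N = 2 ^ m * 2 ^ (N - m) := by rw [← pow_add]; congr 1; omega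
    rw [h1]
    have h2 := d4_sum_mod (fun t => ∑ b ∈ range (2 ^ m), F t b) (2 ^ m) (2 ^ (N - m))
    push_cast at h2
    exact h2
  have e3 : ∑ t ∈ range (2 ^ m), ∑ b ∈ range (2 ^ m), F t b ≤ E * 4 ^ m := by
    rw [← hm] at h
    refine le_trans (le_of_eq ?_) h
    rw [card_filter]
    push_cast
    rw [sum_product, hF]
  rw [sum_congr rfl fun t _ => e1 t, ← sum_div, ← mul_sum, e2]
  rw [div_le_iff₀ (by positivity)]
  have h4 : (4 : ℝ) ^ m = 2 ^ m * 2 ^ m := by rw [← mul_pow]; norm_num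
  calc (2 : ℝ) ^ (k - m) * (2 ^ (N - m) * ∑ t ∈ range (2 ^ m), ∑ b ∈ range (2 ^ m), F t b)
      ≤ (2 : ℝ) ^ (k - m) * (2 ^ (N - m) * (E * 4 ^ m)) := by gcongr
    _ = E * (2 ^ (N - m) * 2 ^ m) * (2 ^ (k - m) * 2 ^ m) := by rw [h4]; ring
    _ = E * 2 ^ N * 2 ^ k := by
        rw [← pow_add, ← pow_add]
        congr 3
        · congr 1; omega
        · omega

theorem d4_Gl (m0 J : ℕ) : Gl m0 J ≤ (m0 + J) ^ 2 ∧ (1 ≤ J → m0 ≤ Gl m0 J) := by
  unfold Gl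
  constructor
  · calc ∑ L ∈ Ico m0 (m0 + J), L ≤ ∑ L ∈ Ico m0 (m0 + J), (m0 + J) :=
        sum_le_sum fun L hL => (mem_Ico.1 hL).2.le
      _ = J * (m0 + J) := by rw [sum_const, Nat.card_Ico, smul_eq_mul]; congr 1; omega
      _ ≤ (m0 + J) ^ 2 := by nlinarith
  · intro hJ
    exact single_le_sum (f := fun L => L) (fun _ _ => Nat.zero_le _)
      (mem_Ico.2 ⟨le_rfl, by omega⟩)

open scoped Classical in
theorem d4 (h3 : S_T3) (h2 : S_D2) (hd3 : S_D3) (hv : S_VAR) : S_D4 := by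
  obtain ⟨L0, hL0, hStp⟩ := h3
  refine ⟨8 * 8 ^ L0, ?_⟩
  intro C
  obtain ⟨A2, hA2⟩ := h2 L0 hL0 hStp C
  obtain ⟨X, hX⟩ : ∃ X : ℕ, X = 16 * (1 + A2 + A2 ^ 2) + L0 + 2 := ⟨_, rfl⟩
  refine ⟨1312 + (X : ℝ) ^ 8, by positivity, ?_⟩
  intro U hU K N hK hKN
  have hKr : (1 : ℝ) ≤ K := by exact_mod_cast hK
  have hK0 : (0 : ℝ) < K := by linarith
  obtain ⟨r, hr⟩ : ∃ r : ℝ, r = (K : ℝ) ^ (1 / 4 : ℝ) := ⟨_, rfl⟩
  have hr0 : 0 < r := by rw [hr]; positivity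
  have hr4 : r ^ 4 = K := by
    rw [hr, ← Real.rpow_natCast, ← Real.rpow_mul hK0.le]
    norm_num
  have hr1 : 1 ≤ r := by
    by_contra hlt
    push Not at hlt
    have : r ^ 4 < 1 := pow_lt_one₀ hr0.le hlt (by norm_num)
    linarith
  have hrinv : (K : ℝ) ^ (-(1 / 4) : ℝ) = 1 / r := by
    have h1 : (K : ℝ) ^ (-(1 / 4) : ℝ) = ((K : ℝ) ^ (1 / 4 : ℝ))⁻¹ := Real.rpow_neg hK0.le _
    rw [h1, ← hr]
    exact (one_div r).symm
  rw [hrinv]
  have h2N : (0 : ℝ) < 2 ^ N := by positivity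
  by_cases hsm : K < X ^ 8
  · -- small `K`
    have h1 : (#{t ∈ range (2 ^ N) | ∑ k ∈ range K, Yf (8 * 8 ^ L0) U k t < K / 2} : ℝ) ≤
        2 ^ N := by
      have h1 := card_filter_le (range (2 ^ N))
        (fun t => ∑ k ∈ range K, Yf (8 * 8 ^ L0) U k t < K / 2)
      rw [card_range] at h1
      exact_mod_cast h1
    refine h1.trans ?_
    have h2 : (K : ℝ) ≤ (X : ℝ) ^ 8 := by exact_mod_cast hsm.le
    have h3 : r ≤ (X : ℝ) ^ 8 := by
      calc r = r * 1 := (mul_one r).symm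
        _ ≤ r * r ^ 3 := by gcongr; exact one_le_pow₀ hr1
        _ = K := by rw [← hr4]; ring
        _ ≤ _ := h2
    have h4 : 1 ≤ (1312 + (X : ℝ) ^ 8) * (1 / r) := by
      rw [mul_one_div, le_div_iff₀ hr0]
      linarith
    calc (2 : ℝ) ^ N = 1 * 2 ^ N := (one_mul _).symm
      _ ≤ (1312 + (X : ℝ) ^ 8) * (1 / r) * 2 ^ N := by gcongr
  · -- large `K`
    rw [not_lt] at hsm
    obtain ⟨L, hL1, hL2⟩ := d4_root K
    have hLX : X ≤ L := by
      by_contra hlt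
      have h1 : (L + 1) ^ 8 ≤ X ^ 8 := Nat.pow_le_pow_left (by omega) 8
      omega
    obtain ⟨J, hJ⟩ : ∃ J, J = L - L0 := ⟨_, rfl⟩
    have hLJ : L0 + J = L := by omega
    obtain ⟨g, hg, hD3⟩ := hd3 L0 hL0 hStp L0 J le_rfl
    obtain ⟨G, hG⟩ : ∃ G, G = Gl L0 J := ⟨_, rfl⟩
    rw [← hG] at hg hD3
    have hGle : G ≤ L ^ 2 := by
      have := (d4_Gl L0 J).1
      rwa [hLJ, ← hG] at this
    have hG1 : 1 ≤ G := by
      have := (d4_Gl L0 J).2 (by omega)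
      omega
    obtain ⟨η, hη⟩ : ∃ η : ℝ, η = 1 / ((L0 : ℝ) - 1) ^ 2 := ⟨_, rfl⟩
    have hη1 : η ≤ 1 / 16 := by
      rw [hη]
      have h1 : (6 : ℝ) ≤ L0 := by exact_mod_cast hL0
      have h2 : (16 : ℝ) ≤ ((L0 : ℝ) - 1) ^ 2 := by nlinarith
      exact one_div_le_one_div_of_le (by norm_num) h2
    rw [← hη, hLJ] at hD3
    -- the first exceptional set
    have hB1 := hv N K G (fun k t => Zf (8 * 8 ^ L0) (8 * 8 ^ L) g U k t) η (1 / 16) hG1 hK hKN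
      (by norm_num) (fun k t => d4_Zf01 _ _ _ _ _ _) (fun k t => d4_Zfmod _ _ _ _ _ _)
      (fun k hk a ha => hD3 U k hk a ha)
    obtain ⟨k1, hk1⟩ : ∃ k1, k1 = G + A2 * (L + A2) := ⟨_, rfl⟩
    have hLr : (0 : ℝ) < L := by
      have : 0 < L := by omega
      exact_mod_cast this
    have hk1K : 16 * k1 ≤ K := by
      have h1 : 16 * k1 ≤ 16 * (1 + A2 + A2 ^ 2) * L ^ 2 := by
        have h5 : 1 ≤ L := by omega
        have h6 : L ≤ L ^ 2 := by nlinarith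
        have h7 : 1 ≤ L ^ 2 := by nlinarith
        have h8 : A2 * L ≤ A2 * L ^ 2 := Nat.mul_le_mul_left _ h6
        have h9 : A2 ^ 2 * 1 ≤ A2 ^ 2 * L ^ 2 := Nat.mul_le_mul_left _ h7
        rw [hk1]
        nlinarith
      have h2 : 16 * (1 + A2 + A2 ^ 2) ≤ L := by omega
      have h3 : 16 * (1 + A2 + A2 ^ 2) * L ^ 2 ≤ L * L ^ 2 := Nat.mul_le_mul_right _ h2
      have h4 : L * L ^ 2 ≤ L ^ 8 := by
        have : L * L ^ 2 = L ^ 3 := by ring
        rw [this]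
        exact Nat.pow_le_pow_right (by omega) (by norm_num)
      omega
    obtain ⟨E, hE⟩ : ∃ E : ℝ, E = 2 / ((L : ℝ) - 1) ^ 2 := ⟨_, rfl⟩
    have hE0 : 0 ≤ E := by rw [hE]; positivity
    have hWsum : ∀ k ∈ Ico k1 K, ∑ t ∈ range (2 ^ N), d4W (8 * 8 ^ L) g U k t ≤ E * 2 ^ N := by
      intro k hk
      obtain ⟨h4, h5⟩ := mem_Ico.1 hk
      apply d4_sumW _ _ _ _ _ _ (by omega)
      rw [hE]
      exact hA2 L (by omega) (k - g) (by omega) U hU
    -- the second exceptional set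
    have hB2 : (#{t ∈ range (2 ^ N) | (K : ℝ) / 16 < ∑ k ∈ Ico k1 K, d4W (8 * 8 ^ L) g U k t} : ℝ) ≤
        16 * E * 2 ^ N := by
      have h1 : (#{t ∈ range (2 ^ N) | (K : ℝ) / 16 <
          ∑ k ∈ Ico k1 K, d4W (8 * 8 ^ L) g U k t} : ℝ) * ((K : ℝ) / 16) ≤
          ∑ t ∈ range (2 ^ N), ∑ k ∈ Ico k1 K, d4W (8 * 8 ^ L) g U k t := by
        rw [← nsmul_eq_mul, ← sum_const]
        refine le_trans (sum_le_sum fun t ht => (mem_filter.1 ht).2.le) ?_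
        exact sum_le_sum_of_subset_of_nonneg (filter_subset _ _) fun t _ _ =>
          sum_nonneg fun k _ => d4W_nonneg _ _ _ _ _
      rw [sum_comm] at h1
      have h2 : ∑ k ∈ Ico k1 K, ∑ t ∈ range (2 ^ N), d4W (8 * 8 ^ L) g U k t ≤
          K * (E * 2 ^ N) := by
        refine (sum_le_sum hWsum).trans ?_
        rw [sum_const, nsmul_eq_mul, Nat.card_Ico]
        have h3 : ((K - k1 : ℕ) : ℝ) ≤ K := by exact_mod_cast Nat.sub_le _ _
        gcongr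
      have h3 := h1.trans h2
      have h4 : (#{t ∈ range (2 ^ N) | (K : ℝ) / 16 <
          ∑ k ∈ Ico k1 K, d4W (8 * 8 ^ L) g U k t} : ℝ) * ((K : ℝ) / 16) ≤
          (16 * E * 2 ^ N) * ((K : ℝ) / 16) := by
        refine h3.trans (le_of_eq ?_)
        ring
      exact le_of_mul_le_mul_right h4 (by positivity)
    -- the inclusion
    have hsub : {t ∈ range (2 ^ N) | ∑ k ∈ range K, Yf (8 * 8 ^ L0) U k t < K / 2} ⊆
        {t ∈ range (2 ^ N) | (η + 1 / 16) * K <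
          ∑ k ∈ Ico G (K + 1), Zf (8 * 8 ^ L0) (8 * 8 ^ L) g U k t} ∪
        {t ∈ range (2 ^ N) | (K : ℝ) / 16 < ∑ k ∈ Ico k1 K, d4W (8 * 8 ^ L) g U k t} := by
      intro t ht
      obtain ⟨ht1, ht2⟩ := mem_filter.1 ht
      by_contra hne
      rw [mem_union, not_or] at hne
      obtain ⟨hn1, hn2⟩ := hne
      have hn1' : ∑ k ∈ Ico G (K + 1), Zf (8 * 8 ^ L0) (8 * 8 ^ L) g U k t ≤
          (η + 1 / 16) * K := by
        by_contra hh
        exact hn1 (mem_filter.2 ⟨ht1, not_le.1 hh⟩)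
      have hn2' : ∑ k ∈ Ico k1 K, d4W (8 * 8 ^ L) g U k t ≤ (K : ℝ) / 16 := by
        by_contra hh
        exact hn2 (mem_filter.2 ⟨ht1, not_le.1 hh⟩)
      have h5 : ∑ k ∈ Ico k1 K, Zf (8 * 8 ^ L0) (8 * 8 ^ L) g U k t ≤ (η + 1 / 16) * K := by
        refine le_trans ?_ hn1'
        refine sum_le_sum_of_subset_of_nonneg ?_ fun k _ _ => (d4_Zf01 _ _ _ _ _ _).1
        intro k hk
        obtain ⟨h6, h7⟩ := mem_Ico.1 hk
        exact mem_Ico.2 ⟨by omega, by omega⟩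
      have h6 : ∑ k ∈ Ico k1 K, (1 - Yf (8 * 8 ^ L0) U k t) ≤
          (η + 1 / 16) * K + K / 16 := by
        refine (sum_le_sum fun k _ => d4_split (8 * 8 ^ L0) (8 * 8 ^ L) g U k t).trans ?_
        rw [sum_add_distrib]
        exact add_le_add h5 hn2'
      rw [sum_sub_distrib, sum_const, nsmul_eq_mul, Nat.card_Ico, mul_one] at h6
      have h7 : ((K - k1 : ℕ) : ℝ) = K - k1 := by
        rw [Nat.cast_sub (by omega)]
      rw [h7] at h6
      have h8 : ∑ k ∈ Ico k1 K, Yf (8 * 8 ^ L0) U k t ≤ ∑ k ∈ range K, Yf (8 * 8 ^ L0) U k t := by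
        refine sum_le_sum_of_subset_of_nonneg ?_ fun k _ _ => d4_Yf0 _ _ _ _
        intro k hk
        exact mem_range.2 (mem_Ico.1 hk).2
      have h9 : (k1 : ℝ) ≤ K / 16 := by
        rw [le_div_iff₀ (by norm_num)]
        exact_mod_cast (by omega : k1 * 16 ≤ K)
      have h10 : η * K ≤ 1 / 16 * K := by gcongr
      linarith
    have hcard := card_le_card hsub
    have hcard2 : (#{t ∈ range (2 ^ N) | ∑ k ∈ range K, Yf (8 * 8 ^ L0) U k t < K / 2} : ℝ) ≤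
        4 * G / ((1 / 16) ^ 2 * K) * 2 ^ N + 16 * E * 2 ^ N := by
      refine le_trans ?_ (add_le_add hB1 hB2)
      exact_mod_cast hcard.trans (card_union_le _ _)
    refine hcard2.trans ?_
    -- numbers
    have hLr2 : (L : ℝ) ^ 2 ≤ r := by
      have h1 : ((L : ℝ) ^ 2) ^ 4 ≤ r ^ 4 := by
        rw [hr4, ← pow_mul]
        exact_mod_cast hL1
      exact le_of_pow_le_pow_left₀ (by norm_num) hr0.le h1
    have hrL : r ≤ ((L : ℝ) + 1) ^ 2 := by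
      have h1 : r ^ 4 ≤ (((L : ℝ) + 1) ^ 2) ^ 4 := by
        rw [hr4, ← pow_mul]
        exact_mod_cast hL2.le
      exact le_of_pow_le_pow_left₀ (by norm_num) (by positivity) h1
    have hGr : (G : ℝ) ≤ r := by
      have : (G : ℝ) ≤ (L : ℝ) ^ 2 := by exact_mod_cast hGle
      linarith
    have c1 : 4 * (G : ℝ) / ((1 / 16) ^ 2 * K) ≤ 1024 * (1 / r) := by
      rw [← hr4, mul_one_div, div_le_div_iff₀ (by positivity) hr0]
      have h1 : r ^ 2 ≤ r ^ 4 := pow_le_pow_right₀ hr1 (by norm_num)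
      have h2 : (G : ℝ) * r ≤ r * r := mul_le_mul_of_nonneg_right hGr hr0.le
      linarith
    have hL18 : (18 : ℝ) ≤ L := by
      have : 18 ≤ L := by omega
      exact_mod_cast this
    have c2 : 16 * E ≤ 288 * (1 / r) := by
      rw [hE, mul_one_div, mul_div_assoc', div_le_div_iff₀ (by nlinarith) hr0]
      have h1 : ((L : ℝ) + 1) ^ 2 ≤ 9 * ((L : ℝ) - 1) ^ 2 := by nlinarith
      have h2 : r ≤ 9 * ((L : ℝ) - 1) ^ 2 := hrL.trans h1
      linarith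
    have c3 : (0 : ℝ) ≤ (X : ℝ) ^ 8 * (1 / r) := by positivity
    calc 4 * (G : ℝ) / ((1 / 16) ^ 2 * K) * 2 ^ N + 16 * E * 2 ^ N
        ≤ 1024 * (1 / r) * 2 ^ N + 288 * (1 / r) * 2 ^ N := by gcongr
      _ ≤ (1312 + (X : ℝ) ^ 8) * (1 / r) * 2 ^ N := by
          have : 0 ≤ (X : ℝ) ^ 8 * (1 / r) * 2 ^ N := by positivity
          linarith

end Pool.Agent.H122.PPD4
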